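import Mathlib

namespace Pool.Agent.J4.H7.C39

/-- Chords `(i, j)` with `a ≤ i < j ≤ m` other than `(a, a + 1)`. -/
abbrev Ch (a m : ℤ) : Type := {c : ℤ × ℤ // a ≤ c.1 ∧ c.1 < c.2 ∧ a + 2 ≤ c.2 ∧ c.2 ≤ m}

/-- The chords starting at `a` or `a + 1`. -/
abbrev PQ (a m : ℤ) : Type := {c : ℤ × ℤ // (c.1 = a ∨ c.1 = a + 1) ∧ a + 2 ≤ c.2 ∧ c.2 ≤ m}

/-- No two chords of `M` cross. -/
def NC {a m : ℤ} (M : Ch a m →₀ ℕ) : Prop :=
  ∀ u v : Ch a m, M u ≠ 0 → M v ≠ 0 → ¬ (u.1.1 < v.1.1 ∧ v.1.1 < u.1.2 ∧ u.1.2 < v.1.2)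

/-- Opening point of a chord starting at `a + 2` or later. -/
def op {a m : ℤ} (i : ℤ) (h : a + 2 ≤ i ∧ i ≤ m) : PQ a m := ⟨(a, i), ⟨Or.inl rfl, h.1, h.2⟩⟩

/-- Closing point of a chord. -/
def cl {a m : ℤ} (i : ℤ) (h : a + 2 ≤ i ∧ i ≤ m) : PQ a m := ⟨(a + 1, i), ⟨Or.inr rfl, h.1, h.2⟩⟩

open Classical in
/-- The leading exponent of a chord. -/
noncomputable def le1 {a m : ℤ} (u : Ch a m) : PQ a m →₀ ℕ :=
  if h : a + 2 ≤ u.1.1 then
    Finsupp.single (op u.1.1 ⟨h, by have := u.2; omega⟩) 1 +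
      Finsupp.single (cl u.1.2 ⟨by have := u.2; omega, by have := u.2; omega⟩) 1
  else Finsupp.single ⟨u.1, by have := u.2; omega⟩ 1

/-- The leading exponent of a product of chords. -/
noncomputable def lexp {a m : ℤ} (M : Ch a m →₀ ℕ) : PQ a m →₀ ℕ := Finsupp.weight le1 M

theorem lexp_add {a m : ℤ} (M M' : Ch a m →₀ ℕ) : lexp (M + M') = lexp M + lexp M' :=
  map_add _ _ _

theorem lexp_single {a m : ℤ} (u : Ch a m) : lexp (Finsupp.single u 1) = le1 u := by
  rw [lexp, Finsupp.weight_single, one_smul]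

theorem lexp_apply {a m : ℤ} (M : Ch a m →₀ ℕ) (p : PQ a m) :
    lexp M p = ∑ u ∈ M.support, M u * le1 u p := by
  rw [lexp, Finsupp.weight_apply, Finsupp.sum, Finsupp.finsetSum_apply]
  simp

theorem exists_of_lexp {a m : ℤ} {M : Ch a m →₀ ℕ} {p : PQ a m} (h : lexp M p ≠ 0) :
    ∃ u, M u ≠ 0 ∧ le1 u p ≠ 0 := by
  rw [lexp_apply] at h
  obtain ⟨u, hu, h0⟩ := Finset.exists_ne_zero_of_sum_ne_zero h
  exact ⟨u, left_ne_zero_of_mul h0, right_ne_zero_of_mul h0⟩

theorem lexp_of_exists {a m : ℤ} {M : Ch a m →₀ ℕ} {p : PQ a m} (u : Ch a m) (hu : M u ≠ 0)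
    (h : le1 u p ≠ 0) : lexp M p ≠ 0 := by
  rw [lexp_apply]
  intro h0
  rw [Finset.sum_eq_zero_iff] at h0
  have := h0 u (by simpa using hu)
  exact (mul_ne_zero hu h) this

theorem le1_op {a m : ℤ} {u : Ch a m} {i : ℤ} {h : a + 2 ≤ i ∧ i ≤ m} (hu : le1 u (op i h) ≠ 0) :
    (u.1.1 = a ∧ u.1.2 = i) ∨ (u.1.1 = i) := by
  classical
  unfold le1 at hu
  split_ifs at hu with h2
  · right
    rw [Finsupp.add_apply] at hu
    by_contra hne
    apply hu
    rw [Finsupp.single_eq_of_ne, Finsupp.single_eq_of_ne, add_zero]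
    · intro h3
      have := congrArg (fun z => z.1.1) h3
      simp only [op, cl] at this
      omega
    · intro h3
      have := congrArg (fun z => z.1.2) h3
      simp only [op] at this
      omega
  · left
    by_contra hne
    apply hu
    rw [Finsupp.single_eq_of_ne]
    intro h3
    apply hne
    have h4 := congrArg (fun z => z.1.1) h3
    have h5 := congrArg (fun z => z.1.2) h3
    simp only [op] at h4 h5
    omega

theorem le1_cl {a m : ℤ} {u : Ch a m} {i : ℤ} {h : a + 2 ≤ i ∧ i ≤ m} (hu : le1 u (cl i h) ≠ 0) :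
    (u.1.1 = a + 1 ∧ u.1.2 = i) ∨ (a + 2 ≤ u.1.1 ∧ u.1.2 = i) := by
  classical
  unfold le1 at hu
  split_ifs at hu with h2
  · right
    rw [Finsupp.add_apply] at hu
    by_contra hne
    apply hu
    rw [Finsupp.single_eq_of_ne, Finsupp.single_eq_of_ne, add_zero]
    · intro h3
      have := congrArg (fun z => z.1.2) h3
      simp only [cl] at this
      omega
    · intro h3
      have := congrArg (fun z => z.1.1) h3
      simp only [op, cl] at this
      omega
  · left
    by_contra hne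
    apply hu
    rw [Finsupp.single_eq_of_ne]
    intro h3
    apply hne
    have h4 := congrArg (fun z => z.1.1) h3
    have h5 := congrArg (fun z => z.1.2) h3
    simp only [cl] at h4 h5
    omega

theorem le1_big {a m : ℤ} {u : Ch a m} (h : a + 2 ≤ u.1.1) :
    le1 u (op u.1.1 ⟨h, by have := u.2; omega⟩) ≠ 0 ∧
      le1 u (cl u.1.2 ⟨by have := u.2; omega, by have := u.2; omega⟩) ≠ 0 := by
  classical
  unfold le1
  rw [dif_pos h]
  constructor
  · rw [Finsupp.add_apply, Finsupp.single_eq_same]; omega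
  · rw [Finsupp.add_apply, Finsupp.single_eq_same]; omega

/-- A closest opener-closer pair is a chord of any noncrossing monomial. -/
theorem chord_of_min {a m : ℤ} {M : Ch a m →₀ ℕ} (hM : NC M) (u : Ch a m) (hu : a + 2 ≤ u.1.1)
    (h1 : lexp M (op u.1.1 ⟨hu, by have := u.2; omega⟩) ≠ 0)
    (h2 : lexp M (cl u.1.2 ⟨by have := u.2; omega, by have := u.2; omega⟩) ≠ 0)
    (h3 : ∀ i (hi : a + 2 ≤ i ∧ i ≤ m), u.1.1 < i → i < u.1.2 →
      lexp M (op i hi) = 0 ∧ lexp M (cl i hi) = 0) : M u ≠ 0 := by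
  classical
  obtain ⟨v, hv, hv1⟩ := exists_of_lexp h1
  obtain ⟨w, hw, hw1⟩ := exists_of_lexp h2
  have hu2 := u.2
  have hv2 := v.2
  have hw2 := w.2
  have ho := le1_op hv1
  have hc := le1_cl hw1
  have key : ∀ z : Ch a m, M z ≠ 0 → a + 2 ≤ z.1.1 →
      (¬ (u.1.1 < z.1.1 ∧ z.1.1 < u.1.2)) ∧ (¬ (u.1.1 < z.1.2 ∧ z.1.2 < u.1.2)) := by
    intro z hz hza
    have hz2 := z.2
    constructor
    · rintro ⟨ha, hb⟩
      have := (h3 z.1.1 ⟨hza, by omega⟩ ha hb).1
      exact lexp_of_exists z hz (le1_big hza).1 this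
    · rintro ⟨ha, hb⟩
      have := (h3 z.1.2 ⟨by omega, by omega⟩ ha hb).2
      exact lexp_of_exists z hz (le1_big hza).2 this
  have c1 := hM v w hv hw
  have c2 := hM w v hw hv
  have k1 := key v hv
  have k2 := key w hw
  by_cases h5 : v.1 = u.1
  · rwa [Subtype.ext h5] at hv
  by_cases h6 : w.1 = u.1
  · rwa [Subtype.ext h6] at hw
  exfalso
  have h5' : ¬ (v.1.1 = u.1.1 ∧ v.1.2 = u.1.2) := fun h => h5 (Prod.ext h.1 h.2)
  have h6' : ¬ (w.1.1 = u.1.1 ∧ w.1.2 = u.1.2) := fun h => h6 (Prod.ext h.1 h.2)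
  omega

theorem lexp_small {a m : ℤ} {M : Ch a m →₀ ℕ} (hM : ∀ u, M u ≠ 0 → ¬ (a + 2 ≤ u.1.1))
    (u : Ch a m) (hu : ¬ (a + 2 ≤ u.1.1)) :
    lexp M ⟨u.1, by have := u.2; omega⟩ = M u := by
  classical
  rw [lexp_apply, Finset.sum_eq_single u]
  · unfold le1
    rw [dif_neg hu, Finsupp.single_eq_same, mul_one]
  · intro v hv hvu
    have h1 := hM v (by simpa using hv)
    unfold le1
    rw [dif_neg h1, Finsupp.single_eq_of_ne, mul_zero]
    intro h2
    apply hvu
    exact Subtype.ext (congrArg (fun z => z.1) h2).symm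
  · intro h
    have : M u = 0 := by simpa using h
    rw [this, zero_mul]

/-- The leading exponent determines a noncrossing monomial. -/
theorem lexp_inj {a m : ℤ} : ∀ (n : ℕ) (M M' : Ch a m →₀ ℕ), M.degree ≤ n → NC M → NC M' →
    lexp M = lexp M' → M = M' := by
  classical
  intro n
  induction n with
  | zero =>
    intro M M' hn hM hM' he
    have hM0 : M = 0 := by
      rw [← Finsupp.degree_eq_zero_iff]; omega
    subst hM0
    ext u
    by_contra h
    have h' : M' u ≠ 0 := by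
      intro h0; apply h; rw [h0]; simp
    have he0 : lexp M' = 0 := by rw [← he, lexp, map_zero]
    by_cases hu : a + 2 ≤ u.1.1
    · exact lexp_of_exists u h' (le1_big hu).1 (by rw [he0]; rfl)
    · have h7 : le1 u ⟨u.1, by have := u.2; omega⟩ ≠ 0 := by
        unfold le1
        rw [dif_neg hu, Finsupp.single_eq_same]; omega
      exact lexp_of_exists u h' h7 (by rw [he0]; rfl)
  | succ n ih =>
    intro M M' hn hM hM' he
    by_cases hbig : ∃ u : Ch a m, a + 2 ≤ u.1.1 ∧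
        (∀ h, lexp M (op u.1.1 h) ≠ 0) ∧ (∀ h, lexp M (cl u.1.2 h) ≠ 0)
    · obtain ⟨u, ⟨hu, hu1, hu2⟩, hmin⟩ : ∃ u : Ch a m, (a + 2 ≤ u.1.1 ∧
        (∀ h, lexp M (op u.1.1 h) ≠ 0) ∧ (∀ h, lexp M (cl u.1.2 h) ≠ 0)) ∧
        ∀ v : Ch a m, (a + 2 ≤ v.1.1 ∧
        (∀ h, lexp M (op v.1.1 h) ≠ 0) ∧ (∀ h, lexp M (cl v.1.2 h) ≠ 0)) →
          u.1.2 - u.1.1 ≤ v.1.2 - v.1.1 := by
        obtain ⟨u0, hu0⟩ := hbig
        have hwf := WellFounded.has_min (InvImage.wf
          (fun u : Ch a m => (u.1.2 - u.1.1).toNat) Nat.lt_wfRel.wf)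
          {u : Ch a m | a + 2 ≤ u.1.1 ∧
        (∀ h, lexp M (op u.1.1 h) ≠ 0) ∧ (∀ h, lexp M (cl u.1.2 h) ≠ 0)} ⟨u0, hu0⟩
        obtain ⟨u, hu, hmin⟩ := hwf
        refine ⟨u, hu, fun v hv => ?_⟩
        have h1 := hmin v hv
        have h2 : ¬ ((v.1.2 - v.1.1).toNat < (u.1.2 - u.1.1).toNat) := h1
        have := u.2
        have := v.2
        omega
      have h3 : ∀ i (hi : a + 2 ≤ i ∧ i ≤ m), u.1.1 < i → i < u.1.2 →
          lexp M (op i hi) = 0 ∧ lexp M (cl i hi) = 0 := by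
        intro i hi h1 h2
        have hu' := u.2
        constructor
        · by_contra h0
          have := hmin ⟨(i, u.1.2), ⟨by omega, by simpa using h2, by simp; omega, by simp; omega⟩⟩
            ⟨hi.1, fun _ => h0, hu2⟩
          simp only at this
          omega
        · by_contra h0
          have := hmin ⟨(u.1.1, i), ⟨by simp; omega, by simpa using h1, by simp; omega,
            by simp; omega⟩⟩ ⟨hu, hu1, fun _ => h0⟩
          simp only at this
          omega
      have hMu : M u ≠ 0 := chord_of_min hM u hu (hu1 _) (hu2 _) h3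
      have hMu' : M' u ≠ 0 := chord_of_min hM' u hu (by rw [← he]; exact hu1 _)
        (by rw [← he]; exact hu2 _) (by rw [← he]; exact h3)
      have e1 : M = (M - Finsupp.single u 1) + Finsupp.single u 1 :=
        (Finsupp.sub_add_single_one_cancel hMu).symm
      have e2 : M' = (M' - Finsupp.single u 1) + Finsupp.single u 1 :=
        (Finsupp.sub_add_single_one_cancel hMu').symm
      have hle : ∀ (N : Ch a m →₀ ℕ) (v : Ch a m),
          (N - Finsupp.single u 1 : Ch a m →₀ ℕ) v ≠ 0 → N v ≠ 0 := by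
        intro N v h h0
        apply h
        rw [Finsupp.tsub_apply, h0, Nat.zero_sub]
      have := ih (M - Finsupp.single u 1) (M' - Finsupp.single u 1) ?_
        (fun v w hv hw => hM v w (hle M v hv) (hle M w hw))
        (fun v w hv hw => hM' v w (hle M' v hv) (hle M' w hw)) ?_
      · rw [e1, e2, this]
      · have h8 : M.degree = (M - Finsupp.single u 1).degree + 1 := by
          conv_lhs => rw [e1]
          rw [map_add, Finsupp.degree_single]
        omega
      · rw [e1, e2, lexp_add, lexp_add] at he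
        exact add_right_cancel he
    · have hs : ∀ N : Ch a m →₀ ℕ, lexp M = lexp N → ∀ u, N u ≠ 0 → ¬ (a + 2 ≤ u.1.1) := by
        intro N hN u hu hua
        apply hbig
        refine ⟨u, hua, fun h => ?_, fun h => ?_⟩
        · rw [hN]; exact lexp_of_exists u hu (le1_big hua).1
        · rw [hN]; exact lexp_of_exists u hu (le1_big hua).2
      have s1 := hs M rfl
      have s2 := hs M' he
      ext u
      by_cases hu : a + 2 ≤ u.1.1
      · have h1 : M u = 0 := by
          by_contra h; exact s1 u h hu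
        have h2 : M' u = 0 := by
          by_contra h; exact s2 u h hu
        rw [h1, h2]
      · rw [← lexp_small s1 u hu, ← lexp_small s2 u hu, he]

end Pool.Agent.J4.H7.C39
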