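import Mathlib

namespace Pool.Agent.J4.H7.C39

open MvPolynomial

/-- `q` has the monomial `e` with coefficient `c`, all its other monomials having smaller weight. -/
def HasLead {ι L : Type*} [CommRing L] (w : ι → ℕ) (q : MvPolynomial ι L) (e : ι →₀ ℕ) (c : L) :
    Prop :=
  coeff e q = c ∧ ∀ e', coeff e' q ≠ 0 → e' ≠ e → Finsupp.weight w e' < Finsupp.weight w e

variable {ι L : Type*} [CommRing L] {w : ι → ℕ}

theorem HasLead.le {q : MvPolynomial ι L} {e : ι →₀ ℕ} {c : L} (h : HasLead w q e c)
    {e' : ι →₀ ℕ} (he : coeff e' q ≠ 0) : Finsupp.weight w e' ≤ Finsupp.weight w e := by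
  by_cases h1 : e' = e
  · rw [h1]
  · exact (h.2 e' he h1).le

theorem HasLead.mul {q q' : MvPolynomial ι L} {e e' : ι →₀ ℕ} {c c' : L}
    (h : HasLead w q e c) (h' : HasLead w q' e' c') : HasLead w (q * q') (e + e') (c * c') := by
  classical
  constructor
  · rw [coeff_mul, Finset.sum_eq_single (e, e')]
    · rw [h.1, h'.1]
    · rintro ⟨x, y⟩ hxy hne
      by_contra h0
      have hx : coeff x q ≠ 0 := left_ne_zero_of_mul h0
      have hy : coeff y q' ≠ 0 := right_ne_zero_of_mul h0
      have hs : x + y = e + e' := by simpa using hxy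
      have hw : Finsupp.weight w x + Finsupp.weight w y =
          Finsupp.weight w e + Finsupp.weight w e' := by
        rw [← map_add, ← map_add, hs]
      have h1 := h.le hx
      have h2 := h'.le hy
      by_cases hxe : x = e
      · apply hne
        rw [hxe] at hs ⊢
        have := add_left_cancel hs
        rw [this]
      · have := h.2 x hx hxe
        omega
    · intro hn
      exact absurd (by simp) hn
  · intro z hz hne
    rw [coeff_mul] at hz
    obtain ⟨⟨x, y⟩, hxy, h0⟩ := Finset.exists_ne_zero_of_sum_ne_zero hz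
    have hx : coeff x q ≠ 0 := left_ne_zero_of_mul h0
    have hy : coeff y q' ≠ 0 := right_ne_zero_of_mul h0
    have hs : x + y = z := by simpa using hxy
    have h1 := h.le hx
    have h2 := h'.le hy
    rw [← hs, map_add, map_add]
    by_cases hxe : x = e
    · have hye : y ≠ e' := by
        intro hye
        apply hne
        rw [← hs, hxe, hye]
      have := h'.2 y hy hye
      omega
    · have := h.2 x hx hxe
      omega

theorem HasLead.one : HasLead w (1 : MvPolynomial ι L) 0 1 := by
  classical
  constructor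
  · simp
  · intro e' he' hne
    rw [coeff_one] at he'
    exact absurd (by simpa using (fun h => he' (if_neg h))) (Ne.symm hne)

theorem HasLead.pow {q : MvPolynomial ι L} {e : ι →₀ ℕ} {c : L} (h : HasLead w q e c) (n : ℕ) :
    HasLead w (q ^ n) (n • e) (c ^ n) := by
  induction n with
  | zero => simpa using HasLead.one
  | succ n ih => rw [pow_succ, pow_succ, add_smul, one_smul]; exact ih.mul h

theorem HasLead.prod {κ : Type*} (s : Finset κ) {q : κ → MvPolynomial ι L} {e : κ → ι →₀ ℕ}
    {c : κ → L} (h : ∀ k ∈ s, HasLead w (q k) (e k) (c k)) :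
    HasLead w (∏ k ∈ s, q k) (∑ k ∈ s, e k) (∏ k ∈ s, c k) := by
  classical
  induction s using Finset.induction_on with
  | empty => simpa using HasLead.one
  | insert a s ha ih =>
    rw [Finset.prod_insert ha, Finset.prod_insert ha, Finset.sum_insert ha]
    exact (h a (Finset.mem_insert_self a s)).mul
      (ih fun k hk => h k (Finset.mem_insert_of_mem hk))

/-- Linear independence by distinct leading monomials. -/
theorem lead_indep {κ : Type*} (s : Finset κ) [NoZeroDivisors L] {q : κ → MvPolynomial ι L}
    {e : κ → ι →₀ ℕ} {c : κ → L} (h : ∀ k ∈ s, HasLead w (q k) (e k) (c k))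
    (hc : ∀ k ∈ s, c k ≠ 0) (hinj : ∀ k ∈ s, ∀ l ∈ s, e k = e l → k = l) (b : κ → L)
    (hb : ∑ k ∈ s, C (b k) * q k = 0) : ∀ k ∈ s, b k = 0 := by
  classical
  by_contra hcon
  push Not at hcon
  obtain ⟨k0, hk0, hbk0⟩ := hcon
  obtain ⟨k, hk, hmax⟩ := Finset.exists_max_image (s.filter fun k => b k ≠ 0)
    (fun k => Finsupp.weight w (e k)) ⟨k0, by simp [hk0, hbk0]⟩
  rw [Finset.mem_filter] at hk
  have h1 : coeff (e k) (∑ l ∈ s, C (b l) * q l) = b k * c k := by
    rw [coeff_sum, Finset.sum_eq_single k]
    · rw [coeff_C_mul, (h k hk.1).1]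
    · intro l hl hlk
      rw [coeff_C_mul]
      by_contra h0
      have hbl : b l ≠ 0 := left_ne_zero_of_mul h0
      have hql : coeff (e k) (q l) ≠ 0 := right_ne_zero_of_mul h0
      have h2 := hmax l (by simp [hl, hbl])
      have h3 : e k ≠ e l := fun h3 => hlk (hinj k hk.1 l hl h3).symm
      have := (h l hl).2 _ hql h3
      omega
    · intro hk'
      exact absurd hk.1 hk'
  rw [hb, coeff_zero] at h1
  exact mul_ne_zero hk.2 (hc k hk.1) h1.symm

end Pool.Agent.J4.H7.C39
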