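import Mathlib
import Pool.Agent.J4.H7.C39.Lead
import Pool.Agent.J4.H7.C39.Chord

namespace Pool.Agent.J4.H7.C39

open MvPolynomial

/-- The relation ideal of the family `g` is generated by quadrics. -/
def Quad (K : Type*) [Field K] {σ A : Type*} [CommRing A] [Algebra K A] (g : σ → A) : Prop :=
  ∀ p : MvPolynomial σ K, aeval g p = 0 →
    p ∈ Ideal.span {q : MvPolynomial σ K | q.IsHomogeneous 2 ∧ aeval g q = 0}

section Ext

variable {K F : Type*} [Field K] [Field F] [Algebra K F] {σ : Type*}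

/-- The extended family. -/
def fam (g0 : σ → F) (Z : ℤ → ℤ → F) (a m : ℤ) : Ch a m ⊕ σ → F :=
  Sum.elim (fun c => Z c.1.1 c.1.2) g0

/-- The variable of the pair `(i, j)`. -/
noncomputable def cv (K : Type*) [Field K] (a m : ℤ) (y0 : σ) (i j : ℤ) :
    MvPolynomial (Ch a m ⊕ σ) K :=
  if h : a ≤ i ∧ i < j ∧ a + 2 ≤ j ∧ j ≤ m then X (Sum.inl ⟨(i, j), h⟩) else X (Sum.inr y0)

/-- The variable of the pair `(i, j)`. -/
noncomputable def cv' (K : Type*) [Field K] (a m : ℤ) (y0 : σ) (i j : ℤ) :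
    MvPolynomial (Ch a m) (MvPolynomial σ K) :=
  if h : a ≤ i ∧ i < j ∧ a + 2 ≤ j ∧ j ≤ m then X ⟨(i, j), h⟩ else C (X y0)

theorem cv_hom (a m : ℤ) (y0 : σ) (i j : ℤ) : (cv K a m y0 i j).IsHomogeneous 1 := by
  unfold cv
  split_ifs
  · exact isHomogeneous_X _ _
  · exact isHomogeneous_X _ _

theorem cv_map (a m : ℤ) (y0 : σ) (i j : ℤ) :
    sumAlgEquiv K (Ch a m) σ (cv K a m y0 i j) = cv' K a m y0 i j := by
  unfold cv cv'
  split_ifs <;> simp

theorem cv_aeval (g0 : σ → F) (Z : ℤ → ℤ → F) (a m : ℤ) (y0 : σ) (hy : Z a (a + 1) = g0 y0)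
    (i j : ℤ) (hi : a ≤ i) (hij : i < j) (hj : j ≤ m) :
    aeval (fam g0 Z a m) (cv K a m y0 i j) = Z i j := by
  unfold cv
  split_ifs with h
  · simp [fam]
  · have h1 : i = a := by omega
    have h2 : j = a + 1 := by omega
    rw [h1, h2, hy]
    simp [fam]

/-- The ideal generated by the quadric relations, seen in the iterated polynomial ring. -/
noncomputable def JJ (K : Type*) [Field K] [Algebra K F] (g0 : σ → F) (Z : ℤ → ℤ → F) (a m : ℤ) :
    Ideal (MvPolynomial (Ch a m) (MvPolynomial σ K)) :=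
  (Ideal.span {q : MvPolynomial (Ch a m ⊕ σ) K |
    q.IsHomogeneous 2 ∧ aeval (fam g0 Z a m) q = 0}).map
      ((sumAlgEquiv K (Ch a m) σ : _ ≃ₐ[K] _) : _ →+* _)

theorem mem_JJ (g0 : σ → F) (Z : ℤ → ℤ → F) (a m : ℤ) (q : MvPolynomial (Ch a m ⊕ σ) K)
    (h : q.IsHomogeneous 2) (h' : aeval (fam g0 Z a m) q = 0) :
    sumAlgEquiv K (Ch a m) σ q ∈ JJ K g0 Z a m :=
  Ideal.mem_map_of_mem _ (Ideal.subset_span ⟨h, h'⟩)

theorem plk (g0 : σ → F) (Z : ℤ → ℤ → F) (a m : ℤ) (y0 : σ) (hy : Z a (a + 1) = g0 y0)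
    (hZ : ∀ i j k l, a ≤ i → i < j → j < k → k < l → l ≤ m →
      Z i k * Z j l = Z i j * Z k l + Z i l * Z j k)
    (i j k l : ℤ) (hi : a ≤ i) (hij : i < j) (hjk : j < k) (hkl : k < l) (hl : l ≤ m) :
    cv' K a m y0 i k * cv' K a m y0 j l -
      (cv' K a m y0 i j * cv' K a m y0 k l + cv' K a m y0 i l * cv' K a m y0 j k) ∈
      JJ K g0 Z a m := by
  have := mem_JJ (K := K) g0 Z a m (cv K a m y0 i k * cv K a m y0 j l -
      (cv K a m y0 i j * cv K a m y0 k l + cv K a m y0 i l * cv K a m y0 j k)) ?_ ?_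
  · simpa only [map_sub, map_mul, map_add, cv_map] using this
  · have h := fun i j k l => (cv_hom (K := K) a m y0 i j).mul (cv_hom (K := K) a m y0 k l)
    exact (h i k j l).sub ((h i j k l).add (h i l j k))
  · rw [map_sub, map_add, map_mul, map_mul, map_mul]
    rw [cv_aeval g0 Z a m y0 hy i k, cv_aeval g0 Z a m y0 hy j l, cv_aeval g0 Z a m y0 hy i j,
      cv_aeval g0 Z a m y0 hy k l, cv_aeval g0 Z a m y0 hy i l, cv_aeval g0 Z a m y0 hy j k,
      hZ i j k l hi hij hjk hkl hl, sub_self]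
    all_goals omega

/-- Being congruent to a combination of noncrossing monomials. -/
def Str (g0 : σ → F) (Z : ℤ → ℤ → F) (a m : ℤ)
    (p : MvPolynomial (Ch a m) (MvPolynomial σ K)) : Prop :=
  ∃ p1 : MvPolynomial (Ch a m) (MvPolynomial σ K),
    (∀ M, coeff M p1 ≠ 0 → NC M) ∧ p - p1 ∈ JJ K g0 Z a m

theorem Str.add {g0 : σ → F} {Z : ℤ → ℤ → F} {a m : ℤ}
    {p q : MvPolynomial (Ch a m) (MvPolynomial σ K)}
    (hp : Str g0 Z a m p) (hq : Str g0 Z a m q) : Str g0 Z a m (p + q) := by
  obtain ⟨p1, h1, h2⟩ := hp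
  obtain ⟨q1, h3, h4⟩ := hq
  refine ⟨p1 + q1, fun M hM => ?_, ?_⟩
  · rw [coeff_add] at hM
    by_cases h : coeff M p1 = 0
    · rw [h, zero_add] at hM; exact h3 M hM
    · exact h1 M h
  · have : p + q - (p1 + q1) = (p - p1) + (q - q1) := by ring
    rw [this]
    exact Ideal.add_mem _ h2 h4

theorem Str.smul {g0 : σ → F} {Z : ℤ → ℤ → F} {a m : ℤ}
    {p : MvPolynomial (Ch a m) (MvPolynomial σ K)}
    (hp : Str g0 Z a m p) (c : MvPolynomial σ K) : Str g0 Z a m (C c * p) := by
  obtain ⟨p1, h1, h2⟩ := hp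
  refine ⟨C c * p1, fun M hM => ?_, ?_⟩
  · rw [coeff_C_mul] at hM
    exact h1 M (right_ne_zero_of_mul hM)
  · rw [← mul_sub]
    exact Ideal.mul_mem_left _ _ h2

theorem Str.congr {g0 : σ → F} {Z : ℤ → ℤ → F} {a m : ℤ}
    {p q : MvPolynomial (Ch a m) (MvPolynomial σ K)}
    (hp : Str g0 Z a m p) (h : q - p ∈ JJ K g0 Z a m) : Str g0 Z a m q := by
  obtain ⟨p1, h1, h2⟩ := hp
  refine ⟨p1, h1, ?_⟩
  have : q - p1 = (q - p) + (p - p1) := by ring
  rw [this]
  exact Ideal.add_mem _ h h2

/-- The weight used for straightening. -/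
def wt (a m : ℤ) (u : Ch a m) : ℕ :=
  ((u.1.2 - u.1.1) * (2 * (m - a) - (u.1.2 - u.1.1))).toNat

theorem wt_eq (a m : ℤ) (u : Ch a m) :
    (wt a m u : ℤ) = (u.1.2 - u.1.1) * (2 * (m - a) - (u.1.2 - u.1.1)) := by
  have := u.2
  unfold wt
  rw [Int.toNat_of_nonneg]
  apply mul_nonneg <;> omega

theorem Str.mono {g0 : σ → F} {Z : ℤ → ℤ → F} {a m : ℤ} {y0 : σ} (hy : Z a (a + 1) = g0 y0)
    (hZ : ∀ i j k l, a ≤ i → i < j → j < k → k < l → l ≤ m →
      Z i k * Z j l = Z i j * Z k l + Z i l * Z j k) :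
    ∀ (n : ℕ) (M : Ch a m →₀ ℕ), Finsupp.weight (wt a m) M = n →
      Str g0 Z a m (monomial M 1 : MvPolynomial (Ch a m) (MvPolynomial σ K)) := by
  classical
  intro n
  induction n using Nat.strong_induction_on with
  | _ n ih =>
  intro M hn
  by_cases hM : NC M
  · refine ⟨monomial M 1, fun N hN => ?_, by simp⟩
    rw [coeff_monomial] at hN
    by_cases h : M = N
    · rw [← h]; exact hM
    · rw [if_neg h] at hN; exact absurd rfl hN
  · unfold NC at hM
    push Not at hM
    obtain ⟨u, v, hu, hv, h1, h2, h3⟩ := hM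
    obtain ⟨⟨i, k⟩, hu'⟩ := u
    obtain ⟨⟨j, l⟩, hv'⟩ := v
    simp only at h1 h2 h3 hu' hv'
    set u : Ch a m := ⟨(i, k), hu'⟩ with hudef
    set v : Ch a m := ⟨(j, l), hv'⟩ with hvdef
    have huv : v ≠ u := by
      intro h
      have := congrArg (fun z => z.1.1) h
      simp only [hudef, hvdef] at this
      omega
    have e1 : M = (M - Finsupp.single u 1) + Finsupp.single u 1 :=
      (Finsupp.sub_add_single_one_cancel hu).symm
    have hv2 : (M - Finsupp.single u 1 : Ch a m →₀ ℕ) v ≠ 0 := by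
      rw [Finsupp.tsub_apply, Finsupp.single_eq_of_ne huv, Nat.sub_zero]; exact hv
    have e2 : M - Finsupp.single u 1 =
        (M - Finsupp.single u 1 - Finsupp.single v 1) + Finsupp.single v 1 :=
      (Finsupp.sub_add_single_one_cancel hv2).symm
    set M0 := M - Finsupp.single u 1 - Finsupp.single v 1 with hM0
    have e3 : M = M0 + Finsupp.single v 1 + Finsupp.single u 1 := by rw [← e2, ← e1]
    have hw : Finsupp.weight (wt a m) M =
        Finsupp.weight (wt a m) M0 + wt a m v + wt a m u := by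
      rw [e3]; simp [Finsupp.weight_single]
    have hmono : (monomial M 1 : MvPolynomial (Ch a m) (MvPolynomial σ K)) =
        monomial M0 1 * (cv' K a m y0 i k * cv' K a m y0 j l) := by
      have hu3 : cv' K a m y0 i k = X u := by
        unfold cv'; rw [dif_pos (by omega)]
      have hv3 : cv' K a m y0 j l = X v := by
        unfold cv'; rw [dif_pos (by omega)]
      rw [hu3, hv3]
      conv_lhs => rw [e3]
      rw [mul_comm (X u), ← mul_assoc]
      simp [X, monomial_mul]
    rw [hmono]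
    have hp := plk (K := K) g0 Z a m y0 hy hZ i j k l (by omega) h1 h2 h3 (by omega)
    have hp2 := Ideal.mul_mem_left _
      (monomial M0 1 : MvPolynomial (Ch a m) (MvPolynomial σ K)) hp
    rw [mul_sub] at hp2
    refine Str.congr ?_ hp2
    rw [mul_add]
    have hwu := wt_eq a m u
    have hwv := wt_eq a m v
    simp only [hudef, hvdef] at hwu hwv
    have hkl : cv' K a m y0 k l = X ⟨(k, l), by omega⟩ := by
      unfold cv'; rw [dif_pos (by omega)]
    have hwkl := wt_eq a m ⟨(k, l), by omega⟩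
    have hil : cv' K a m y0 i l = X ⟨(i, l), by omega⟩ := by
      unfold cv'; rw [dif_pos (by omega)]
    have hwil := wt_eq a m ⟨(i, l), by omega⟩
    have hjk : cv' K a m y0 j k = X ⟨(j, k), by omega⟩ := by
      unfold cv'; rw [dif_pos (by omega)]
    have hwjk := wt_eq a m ⟨(j, k), by omega⟩
    simp only at hwkl hwil hwjk
    apply Str.add
    · by_cases hij : a + 2 ≤ j
      · have hij' : cv' K a m y0 i j = X ⟨(i, j), by omega⟩ := by
          unfold cv'; rw [dif_pos (by omega)]
        have hwij := wt_eq a m ⟨(i, j), by omega⟩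
        simp only at hwij
        have hmm : (monomial M0 1 * (cv' K a m y0 i j * cv' K a m y0 k l) :
            MvPolynomial (Ch a m) (MvPolynomial σ K)) =
            monomial (M0 + Finsupp.single ⟨(i, j), by omega⟩ 1 +
              Finsupp.single ⟨(k, l), by omega⟩ 1) 1 := by
          rw [hij', hkl, ← mul_assoc]
          simp [X, monomial_mul]
        rw [hmm]
        refine ih _ ?_ _ rfl
        rw [← hn, hw, map_add, map_add, Finsupp.weight_single, Finsupp.weight_single, one_smul,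
          one_smul]
        zify
        rw [hwu, hwv, hwij, hwkl]
        nlinarith [mul_pos (show (0:ℤ) < k - j by omega) (show (0:ℤ) < (m - a) - (k - i) by omega),
          mul_pos (show (0:ℤ) < k - j by omega) (show (0:ℤ) < (m - a) - (l - j) by omega),
          mul_pos (show (0:ℤ) < k - j by omega) (show (0:ℤ) < k - j by omega),
          mul_pos (show (0:ℤ) < k - j by omega) (show (0:ℤ) < j - i by omega),
          mul_pos (show (0:ℤ) < k - j by omega) (show (0:ℤ) < l - k by omega)]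
      · have hij' : cv' K a m y0 i j = C (X y0) := by
          unfold cv'; rw [dif_neg (by omega)]
        have hmm : (monomial M0 1 * (cv' K a m y0 i j * cv' K a m y0 k l) :
            MvPolynomial (Ch a m) (MvPolynomial σ K)) =
            C (X y0) * monomial (M0 + Finsupp.single ⟨(k, l), by omega⟩ 1) 1 := by
          rw [hij', hkl, mul_comm (C (X y0)), ← mul_assoc, mul_comm _ (C (X y0))]
          simp [X, monomial_mul]
        rw [hmm]
        refine Str.smul (ih _ ?_ _ rfl) _
        rw [← hn, hw, map_add, Finsupp.weight_single, one_smul]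
        zify
        rw [hwu, hwv, hwkl]
        nlinarith [mul_pos (show (0:ℤ) < k - j by omega) (show (0:ℤ) < (m - a) - (k - i) by omega),
          mul_pos (show (0:ℤ) < k - j by omega) (show (0:ℤ) < (m - a) - (l - j) by omega),
          mul_pos (show (0:ℤ) < k - j by omega) (show (0:ℤ) < k - j by omega),
          mul_pos (show (0:ℤ) < k - j by omega) (show (0:ℤ) < j - i by omega),
          mul_pos (show (0:ℤ) < k - j by omega) (show (0:ℤ) < l - k by omega),
          mul_pos (show (0:ℤ) < j - i by omega) (show (0:ℤ) < 2 * (m - a) - (j - i) by omega)]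
    · have hmm : (monomial M0 1 * (cv' K a m y0 i l * cv' K a m y0 j k) :
          MvPolynomial (Ch a m) (MvPolynomial σ K)) =
          monomial (M0 + Finsupp.single ⟨(i, l), by omega⟩ 1 +
            Finsupp.single ⟨(j, k), by omega⟩ 1) 1 := by
        rw [hil, hjk, ← mul_assoc]
        simp [X, monomial_mul]
      rw [hmm]
      refine ih _ ?_ _ rfl
      rw [← hn, hw, map_add, map_add, Finsupp.weight_single, Finsupp.weight_single, one_smul,
        one_smul]
      zify
      rw [hwu, hwv, hwil, hwjk]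
      nlinarith [mul_pos (show (0:ℤ) < j - i by omega) (show (0:ℤ) < l - k by omega)]

theorem Str.all {g0 : σ → F} {Z : ℤ → ℤ → F} {a m : ℤ} {y0 : σ} (hy : Z a (a + 1) = g0 y0)
    (hZ : ∀ i j k l, a ≤ i → i < j → j < k → k < l → l ≤ m →
      Z i k * Z j l = Z i j * Z k l + Z i l * Z j k)
    (p : MvPolynomial (Ch a m) (MvPolynomial σ K)) : Str g0 Z a m p := by
  classical
  induction p using MvPolynomial.induction_on' with
  | monomial M c =>
    have h := (Str.mono (K := K) hy hZ _ M rfl).smul c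
    rwa [C_mul_monomial, mul_one] at h
  | add p q hp hq => exact hp.add hq

end Ext

end Pool.Agent.J4.H7.C39
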