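import Mathlib
import Pool.Agent.J4.H7.C39.Ext

namespace Pool.Agent.J4.H7.C39

open MvPolynomial

section Ext

variable {K F : Type*} [Field K] [Field F] [Algebra K F] {σ : Type*}

/-- Weight on the variables `P`, `Q`. -/
def w2 (a m : ℤ) (p : PQ a m) : ℕ := if p.1.1 = a then (m - p.1.2).toNat else 0

/-- The expression of a chord through the variables `P`, `Q`. -/
noncomputable def psi {L : Type*} [Field L] (a m : ℤ) (t : L) (u : Ch a m) :
    MvPolynomial (PQ a m) L :=
  if h : a + 2 ≤ u.1.1 then
    C t⁻¹ * (X (op u.1.1 ⟨h, by have := u.2; omega⟩) *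
        X (cl u.1.2 ⟨by have := u.2; omega, by have := u.2; omega⟩) -
      X (op u.1.2 ⟨by have := u.2; omega, by have := u.2; omega⟩) *
        X (cl u.1.1 ⟨h, by have := u.2; omega⟩))
  else X ⟨u.1, by have := u.2; omega⟩

/-- The leading coefficient of a chord. -/
noncomputable def lc {L : Type*} [Field L] (a m : ℤ) (t : L) (u : Ch a m) : L :=
  if a + 2 ≤ u.1.1 then t⁻¹ else 1

theorem psi_lead {L : Type*} [Field L] (a m : ℤ) (t : L) (u : Ch a m) :
    HasLead (w2 a m) (psi a m t u) (le1 u) (lc a m t u) := by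
  classical
  have hu := u.2
  unfold psi le1 lc
  by_cases h : a + 2 ≤ u.1.1
  · simp only [dif_pos h, if_pos h]
    have hne : Finsupp.single (op u.1.2 (⟨by omega, by omega⟩ : a + 2 ≤ u.1.2 ∧ u.1.2 ≤ m)) 1 +
        Finsupp.single (cl u.1.1 ⟨h, by omega⟩) 1 ≠
        Finsupp.single (op u.1.1 ⟨h, by omega⟩) 1 + Finsupp.single (cl u.1.2 ⟨by omega, by omega⟩) 1 := by
      intro h0
      have h1 := DFunLike.congr_fun h0 (op u.1.1 (⟨h, by omega⟩ : a + 2 ≤ u.1.1 ∧ u.1.1 ≤ m))
      rw [Finsupp.add_apply, Finsupp.add_apply, Finsupp.single_eq_same,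
        Finsupp.single_eq_of_ne, Finsupp.single_eq_of_ne] at h1
      · omega
      · intro h3
        have := congrArg (fun z => z.1.1) h3
        simp only [op, cl] at this
        omega
      · intro h3
        have := congrArg (fun z => z.1.2) h3
        simp only [op] at this
        omega
    have hx : ∀ p q : PQ a m, (X p * X q : MvPolynomial (PQ a m) L) =
        monomial (Finsupp.single p 1 + Finsupp.single q 1) 1 := by
      intro p q
      simp [X, monomial_mul]
    constructor
    · rw [coeff_C_mul, coeff_sub, hx, hx, coeff_monomial, coeff_monomial, if_pos rfl, if_neg hne]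
      ring
    · intro e' he' hne'
      rw [coeff_C_mul, coeff_sub, hx, hx, coeff_monomial, coeff_monomial, if_neg (Ne.symm hne')]
        at he'
      have h2 : Finsupp.single (op u.1.2 (⟨by omega, by omega⟩ : a + 2 ≤ u.1.2 ∧ u.1.2 ≤ m)) 1 +
          Finsupp.single (cl u.1.1 ⟨h, by omega⟩) 1 = e' := by
        by_contra h3
        rw [if_neg h3] at he'
        simp at he'
      rw [← h2]
      simp only [map_add, Finsupp.weight_single, w2, op, cl, one_smul]
      rw [if_pos trivial, if_pos trivial, if_neg (by omega), if_neg (by omega)]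
      omega
  · simp only [dif_neg h, if_neg h]
    constructor
    · rw [coeff_X, if_pos rfl]
    · intro e' he' hne'
      rw [coeff_X, if_neg (Ne.symm hne')] at he'
      exact absurd rfl he'

theorem psi_eval (Z : ℤ → ℤ → F) (a m : ℤ) {L : IntermediateField K F} (t : L)
    (ht : Z a (a + 1) = t) (ht0 : (t : F) ≠ 0)
    (hZ : ∀ i j k l, a ≤ i → i < j → j < k → k < l → l ≤ m →
      Z i k * Z j l = Z i j * Z k l + Z i l * Z j k) (u : Ch a m) :
    aeval (fun p : PQ a m => Z p.1.1 p.1.2) (psi a m t u) = Z u.1.1 u.1.2 := by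
  have hu := u.2
  unfold psi
  by_cases h : a + 2 ≤ u.1.1
  · rw [dif_pos h]
    simp only [map_mul, map_sub, aeval_X, aeval_C, op, cl]
    have h1 := hZ a (a + 1) u.1.1 u.1.2 le_rfl (by omega) (by omega) (by omega) (by omega)
    rw [ht] at h1
    have h2 : Z a u.1.1 * Z (a + 1) u.1.2 - Z a u.1.2 * Z (a + 1) u.1.1 =
        (t : F) * Z u.1.1 u.1.2 := by rw [h1]; ring
    rw [h2]
    have h3 : (algebraMap L F) t⁻¹ = (t : F)⁻¹ := by simp
    rw [h3, ← mul_assoc, inv_mul_cancel₀ ht0, one_mul]
  · rw [dif_neg h]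
    simp

theorem coeff_mem_JJ (g0 : σ → F) (Z : ℤ → ℤ → F) (a m : ℤ) (hg : Quad K g0)
    (b : MvPolynomial σ K) (hb : aeval g0 b = 0) :
    (C b : MvPolynomial (Ch a m) (MvPolynomial σ K)) ∈ JJ K g0 Z a m := by
  have h1 := hg b hb
  have h2 : Ideal.span {q : MvPolynomial σ K | q.IsHomogeneous 2 ∧ aeval g0 q = 0} ≤
      (JJ K g0 Z a m).comap (C : MvPolynomial σ K →+* _) := by
    rw [Ideal.span_le]
    rintro q ⟨hq1, hq2⟩
    rw [SetLike.mem_coe, Ideal.mem_comap]
    have h3 := mem_JJ (K := K) g0 Z a m (rename Sum.inr q) ?_ ?_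
    · have h4 : ∀ q : MvPolynomial σ K,
          sumAlgEquiv K (Ch a m) σ (rename Sum.inr q) = C q := by
        intro q
        induction q using MvPolynomial.induction_on with
        | C r => simp
        | add p q hp hq => simp only [map_add, hp, hq]
        | mul_X p i hp => simp only [map_mul, hp, rename_X, sumAlgEquiv_X_inr]
      rw [h4] at h3
      exact h3
    · exact hq1.rename_isHomogeneous
    · rw [aeval_rename]
      have : fam g0 Z a m ∘ Sum.inr = g0 := by
        ext x; simp [fam]
      rw [this, hq2]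
  exact h2 h1

/-- **Extension Lemma.** Adjoining the minors of a strip to a family whose relation ideal is
generated by quadrics gives a family whose relation ideal is generated by quadrics. -/
theorem ext_quad (g0 : σ → F) (y0 : σ) (Z : ℤ → ℤ → F) (a m : ℤ) (hg : Quad K g0)
    (hy : Z a (a + 1) = g0 y0) (hy0 : g0 y0 ≠ 0)
    (hZ : ∀ i j k l, a ≤ i → i < j → j < k → k < l → l ≤ m →
      Z i k * Z j l = Z i j * Z k l + Z i l * Z j k)
    (hind : AlgebraicIndependent (IntermediateField.adjoin K (Set.range g0))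
      (fun p : PQ a m => Z p.1.1 p.1.2)) : Quad K (fam g0 Z a m) := by
  classical
  intro p hp
  set L := IntermediateField.adjoin K (Set.range g0) with hL
  have hmem : ∀ y, g0 y ∈ L := fun y => IntermediateField.subset_adjoin _ _ ⟨y, rfl⟩
  have hmem2 : ∀ b : MvPolynomial σ K, aeval g0 b ∈ L := by
    intro b
    have h1 : (aeval g0 b : F) = ((aeval (fun y => (⟨g0 y, hmem y⟩ : L)) b : L) : F) := by
      have h2 := MvPolynomial.aeval_algebraMap_apply (A := L) F
        (fun y => (⟨g0 y, hmem y⟩ : L)) b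
      exact h2
    rw [h1]
    exact Subtype.mem _
  -- straighten
  set P := sumAlgEquiv K (Ch a m) σ p with hP
  obtain ⟨P1, hNC, hJ⟩ := Str.all (K := K) hy hZ P
  -- evaluation
  let ev : MvPolynomial (Ch a m) (MvPolynomial σ K) →+* F :=
    eval₂Hom ((aeval g0 : MvPolynomial σ K →ₐ[K] F) : MvPolynomial σ K →+* F)
      (fun c : Ch a m => Z c.1.1 c.1.2)
  have hev : ∀ q : MvPolynomial (Ch a m ⊕ σ) K,
      ev (sumAlgEquiv K (Ch a m) σ q) = aeval (fam g0 Z a m) q := by
    intro q
    induction q using MvPolynomial.induction_on with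
    | C r => simp [ev]
    | add p q hp hq => simp only [map_add, hp, hq]
    | mul_X p i hp =>
      rw [map_mul, map_mul, map_mul, hp]
      congr 1
      cases i with
      | inl c => simp [ev, fam]
      | inr c => simp [ev, fam]
  have hevJ : ∀ q ∈ JJ K g0 Z a m, ev q = 0 := by
    intro q hq
    have : JJ K g0 Z a m ≤ RingHom.ker ev := by
      unfold JJ
      rw [Ideal.map_le_iff_le_comap, Ideal.span_le]
      rintro r ⟨hr1, hr2⟩
      rw [SetLike.mem_coe, Ideal.mem_comap, RingHom.mem_ker]
      exact (hev r).trans hr2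
    exact this hq
  have hP1 : ev P1 = 0 := by
    have h1 := hevJ _ hJ
    rw [map_sub, hP, hev, hp, zero_sub, neg_eq_zero] at h1
    exact h1
  -- the coefficients vanish
  let t : L := ⟨g0 y0, hmem y0⟩
  have ht : Z a (a + 1) = t := hy
  let Psi : (Ch a m →₀ ℕ) → MvPolynomial (PQ a m) L := fun M =>
    ∏ u ∈ M.support, psi a m t u ^ M u
  let b : (Ch a m →₀ ℕ) → L := fun M => ⟨aeval g0 (coeff M P1), hmem2 _⟩
  have hsum : ∑ M ∈ P1.support, C (b M) * Psi M = 0 := by
    apply hind.eq_zero_of_aeval_eq_zero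
    rw [map_sum, ← hP1]
    conv_rhs => rw [P1.as_sum]
    rw [map_sum]
    refine Finset.sum_congr rfl fun M _ => ?_
    rw [map_mul, aeval_C, map_prod]
    have h5 : ev (monomial M (coeff M P1)) =
        aeval g0 (coeff M P1) * ∏ u ∈ M.support, (Z u.1.1 u.1.2) ^ M u := by
      simp only [ev, coe_eval₂Hom, eval₂_monomial]
      rfl
    rw [h5]
    congr 1
    refine Finset.prod_congr rfl fun u _ => ?_
    rw [map_pow, psi_eval Z a m t ht hy0 hZ]
  have hz := lead_indep (w := w2 a m) P1.support (q := Psi) (e := lexp)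
    (c := fun M => ∏ u ∈ M.support, lc a m t u ^ M u) ?_ ?_ ?_ b hsum
  · -- conclusion
    have hP1J : P1 ∈ JJ K g0 Z a m := by
      rw [P1.as_sum]
      refine Ideal.sum_mem _ fun M hM => ?_
      have h6 : (monomial M (coeff M P1) : MvPolynomial (Ch a m) (MvPolynomial σ K)) =
          monomial M 1 * C (coeff M P1) := by
        rw [mul_comm, C_mul_monomial, mul_one]
      rw [h6]
      refine Ideal.mul_mem_left _ _ (coeff_mem_JJ g0 Z a m hg _ ?_)
      exact congrArg Subtype.val (hz M hM)
    have hPJ : P ∈ JJ K g0 Z a m := by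
      have : P = (P - P1) + P1 := by ring
      rw [this]
      exact Ideal.add_mem _ hJ hP1J
    unfold JJ at hPJ
    have h7 := Ideal.mem_map_of_equiv
      (I := Ideal.span {q : MvPolynomial (Ch a m ⊕ σ) K |
        q.IsHomogeneous 2 ∧ aeval (fam g0 Z a m) q = 0})
      ((sumAlgEquiv K (Ch a m) σ).toRingEquiv) P
    obtain ⟨x, hx, hxP⟩ := h7.1 hPJ
    have : x = p := (sumAlgEquiv K (Ch a m) σ).injective hxP
    rw [← this]
    exact hx
  · intro M _
    have h8 := HasLead.prod (w := w2 a m) M.support (q := fun u => psi a m t u ^ M u)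
      (e := fun u => M u • le1 u) (c := fun u => lc a m t u ^ M u)
      (fun u _ => (psi_lead a m t u).pow (M u))
    have h9 : lexp M = ∑ u ∈ M.support, M u • le1 u := by
      rw [lexp, Finsupp.weight_apply, Finsupp.sum]
    rw [h9]
    exact h8
  · intro M _
    refine Finset.prod_ne_zero_iff.2 fun u _ => pow_ne_zero _ ?_
    unfold lc
    split_ifs
    · apply inv_ne_zero
      intro h0
      apply hy0
      exact congrArg Subtype.val h0
    · exact one_ne_zero
  · intro M hM N hN h
    exact lexp_inj _ M N le_rfl (hNC M (by simpa using hM)) (hNC N (by simpa using hN)) h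

end Ext

end Pool.Agent.J4.H7.C39
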