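import Mathlib

namespace Pool.Agent.J4.H7.C39

section Ind

variable {K F : Type*} [Field K] [Field F] [Algebra K F]

/-- The family `y` is algebraically independent over the field `K(S)`. -/
def Ind (K : Type*) [Field K] {F τ : Type*} [Field F] [Algebra K F] (S : Set F) (y : τ → F) :
    Prop :=
  AlgebraicIndependent (IntermediateField.adjoin K S) y

theorem Ind.comp {τ τ' : Type*} {S : Set F} {y : τ → F} (h : Ind K S y) (e : τ' → τ)
    (he : Function.Injective e) : Ind K S (y ∘ e) :=
  AlgebraicIndependent.comp h e he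

theorem Ind.mono_base {τ : Type*} {S S' : Set F} {y : τ → F} (h : Ind K S' y)
    (hS : S ⊆ IntermediateField.adjoin K S') : Ind K S y := by
  have hle : IntermediateField.adjoin K S ≤ IntermediateField.adjoin K S' :=
    IntermediateField.adjoin_le_iff.2 hS
  exact AlgebraicIndependent.of_ringHom_of_comp_eq (IntermediateField.inclusion hle)
    (RingHom.id F) h (IntermediateField.inclusion_injective hle) rfl

theorem Ind.mono_base' {τ : Type*} {S S' : Set F} {y : τ → F} (h : Ind K S' y)
    (hS : S ⊆ S') : Ind K S y :=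
  h.mono_base (hS.trans (IntermediateField.subset_adjoin _ _))

theorem Ind.sum_iff {τ τ' : Type*} {S : Set F} {y : τ → F} {x : τ' → F} :
    Ind K S (Sum.elim y x) ↔ Ind K S x ∧ Ind K (S ∪ Set.range x) y := by
  unfold Ind
  rw [AlgebraicIndependent.sumElim_iff]
  refine and_congr_right fun _ => ?_
  rw [← IntermediateField.algebraicIndependent_adjoin_iff]
  have h := IntermediateField.adjoin_adjoin_left K S (Set.range x)
  have h2 : AlgebraicIndependent
      ((IntermediateField.adjoin (IntermediateField.adjoin K S) (Set.range x)).restrictScalars K) y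
      ↔ AlgebraicIndependent (IntermediateField.adjoin K (S ∪ Set.range x)) y := by
    rw [h]
  exact h2

theorem Ind.sum_iff' {τ τ' : Type*} {S : Set F} {y : τ → F} {x : τ' → F} :
    Ind K S (Sum.elim y x) ↔ Ind K S y ∧ Ind K (S ∪ Set.range y) x := by
  rw [← Ind.sum_iff]
  unfold Ind
  apply algebraicIndependent_equiv' (Equiv.sumComm τ τ')
  ext z
  cases z <;> rfl

end Ind

end Pool.Agent.J4.H7.C39

namespace Pool.Agent.J4.H7.C39

section IndOn

variable {K F : Type*} [Field K] [Field F] [Algebra K F] {ι : Type*} {f : ι → F}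

/-- The elements `f i`, `i ∈ T`, are algebraically independent over `K(S)`. -/
def IndOn (K : Type*) [Field K] {F ι : Type*} [Field F] [Algebra K F] (S : Set F) (f : ι → F)
    (T : Set ι) : Prop :=
  Ind K S (fun i : T => f i)

theorem IndOn.union_iff {S : Set F} {A B : Set ι} (h : Disjoint A B) :
    IndOn K S f (A ∪ B) ↔ IndOn K S f A ∧ IndOn K (S ∪ f '' A) f B := by
  classical
  have h1 : Set.range (fun i : A => f i) = f '' A := by
    ext z; simp
  unfold IndOn
  rw [← h1, ← Ind.sum_iff']
  unfold Ind
  apply algebraicIndependent_equiv' (Equiv.Set.union h)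
  ext z
  rcases z with ⟨z, hz⟩
  simp only [Function.comp]
  rcases hz with hz | hz
  · rw [Equiv.Set.union_apply_left h hz]
    rfl
  · rw [Equiv.Set.union_apply_right h hz]
    rfl

theorem IndOn.mono {S : Set F} {A B : Set ι} (h : IndOn K S f B) (hAB : A ⊆ B) :
    IndOn K S f A :=
  Ind.comp h (Set.inclusion hAB) (Set.inclusion_injective hAB)

theorem IndOn.mono_base {S S' : Set F} {A : Set ι} (h : IndOn K S' f A)
    (hS : S ⊆ IntermediateField.adjoin K S') : IndOn K S f A :=
  Ind.mono_base h hS

theorem IndOn.mono_base' {S S' : Set F} {A : Set ι} (h : IndOn K S' f A)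
    (hS : S ⊆ S') : IndOn K S f A :=
  Ind.mono_base' h hS

end IndOn

end Pool.Agent.J4.H7.C39
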