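import Mathlib
import Pool.Agent.J4.H7.C39.Ind

namespace Pool.Agent.J4.H7.C39

open MvPolynomial

section Strip

variable {K F : Type*} [Field K] [Field F] [Algebra K F] {x : ℤ × ℤ → F}

/-- The 2-minor with columns `q.1` and rows `q.2`, up to sign. -/
def fm (x : ℤ × ℤ → F) (q : (ℤ × ℤ) × (ℤ × ℤ)) : F :=
  x (q.1.1, q.2.2) * x (q.1.2, q.2.1) - x (q.1.2, q.2.2) * x (q.1.1, q.2.1)

theorem fm_ne_zero (hx : AlgebraicIndependent K x) (q : (ℤ × ℤ) × (ℤ × ℤ))
    (h1 : q.1.1 ≠ q.1.2) (h2 : q.2.1 ≠ q.2.2) : fm x q ≠ 0 := by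
  classical
  intro h0
  have h3 := hx.eq_zero_of_aeval_eq_zero
    (X (q.1.1, q.2.2) * X (q.1.2, q.2.1) - X (q.1.2, q.2.2) * X (q.1.1, q.2.1)) (by
      simp only [map_sub, map_mul, aeval_X]; exact h0)
  have h4 := congrArg (eval (fun v : ℤ × ℤ =>
    if v = (q.1.1, q.2.2) ∨ v = (q.1.2, q.2.1) then (1 : K) else 0)) h3
  simp only [map_sub, map_mul, eval_X, map_zero] at h4
  rw [if_pos (Or.inl trivial), if_pos (Or.inr trivial), if_neg] at h4
  · simp at h4
  · rintro (h | h)
    · have := congrArg (fun z => z.1) h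
      simp only at this
      exact h1 this.symm
    · have := congrArg (fun z => z.2) h
      simp only at this
      exact h2 this.symm

theorem pts_ind (hx : AlgebraicIndependent K x) (R0 T : Set (ℤ × ℤ)) (h : Disjoint R0 T) :
    IndOn K (x '' R0) x T := by
  unfold IndOn Ind
  rw [IntermediateField.algebraicIndependent_adjoin_iff]
  exact AlgebraicIndependent.adjoin_of_disjoint hx h

/-- The new variables of a strip are independent over the old entries. -/
theorem strip_ind (hx : AlgebraicIndependent K x) (R0 : Set (ℤ × ℤ)) (a w m n : ℤ)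
    (h00 : (a, n - 1) ∈ R0) (h01 : (a, n) ∈ R0)
    (h10 : (a + 1, n - 1) ∈ R0) (h11 : (a + 1, n) ∈ R0)
    (hnew : ∀ c, w < c → c ≤ m → (c, n - 1) ∉ R0 ∧ (c, n) ∉ R0) :
    IndOn K (x '' R0) (fm x)
      {q | q.2 = (n - 1, n) ∧ (q.1.1 = a ∨ q.1.1 = a + 1) ∧ w < q.1.2 ∧ q.1.2 ≤ m} := by
  classical
  set L := IntermediateField.adjoin K (x '' R0) with hL
  have hmem : ∀ v ∈ R0, x v ∈ L := fun v hv => IntermediateField.subset_adjoin _ _ ⟨v, hv, rfl⟩
  let W := {c : ℤ // w < c ∧ c ≤ m}
  let xs : Bool × W → F := fun p => x (p.2.1, if p.1 then n else n - 1)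
  have hxs : AlgebraicIndependent L xs := by
    have h1 := pts_ind hx R0 R0ᶜ disjoint_compl_right
    have hin : ∀ p : Bool × W, ((p.2.1, if p.1 then n else n - 1) : ℤ × ℤ) ∈ R0ᶜ := by
      rintro ⟨b, ⟨c, hc⟩⟩
      have h2 := hnew c hc.1 hc.2
      cases b
      · exact h2.1
      · exact h2.2
    have h3 := h1.comp (fun p : Bool × W => ⟨_, hin p⟩) (by
      rintro ⟨b, ⟨c, hc⟩⟩ ⟨b', ⟨c', hc'⟩⟩ h
      simp only [Subtype.mk.injEq, Prod.mk.injEq] at h
      obtain ⟨h4, h5⟩ := h
      cases b <;> cases b' <;> simp at h5 <;> first | omega | simp [h4])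
    exact h3
  -- the linear forms
  let al : L := ⟨x (a, n), hmem _ h01⟩
  let be : L := ⟨x (a, n - 1), hmem _ h00⟩
  let ga : L := ⟨x (a + 1, n), hmem _ h11⟩
  let de : L := ⟨x (a + 1, n - 1), hmem _ h10⟩
  let t : L := al * de - ga * be
  have ht : t ≠ 0 := by
    intro h0
    have h1 := congrArg Subtype.val h0
    apply fm_ne_zero hx ((a, a + 1), (n - 1, n)) (by simp) (by simp)
    exact h1
  let lin : Bool × W → MvPolynomial (Bool × W) L := fun p =>
    if p.1 then C ga * X (false, p.2) - C de * X (true, p.2)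
    else C al * X (false, p.2) - C be * X (true, p.2)
  let lin' : Bool × W → MvPolynomial (Bool × W) L := fun p =>
    if p.1 then C t⁻¹ * (C ga * X (false, p.2) - C al * X (true, p.2))
    else C t⁻¹ * (C de * X (false, p.2) - C be * X (true, p.2))
  have hlin : AlgebraicIndependent L lin := by
    rw [algebraicIndependent_iff_injective_aeval]
    apply Function.LeftInverse.injective (g := aeval lin')
    intro p
    have hcomp : ((aeval lin' : MvPolynomial (Bool × W) L →ₐ[L] MvPolynomial (Bool × W) L).comp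
        (aeval lin)) = AlgHom.id L _ := by
      apply MvPolynomial.algHom_ext
      have htt : (C t⁻¹ * C t : MvPolynomial (Bool × W) L) = 1 := by
        rw [← C_mul, inv_mul_cancel₀ ht, C_1]
      have htd : (C t : MvPolynomial (Bool × W) L) = C al * C de - C ga * C be := by
        simp only [t, C_sub, C_mul]
      rintro ⟨b, c⟩
      cases b
      · simp only [AlgHom.comp_apply, aeval_X, lin, lin', AlgHom.id_apply, map_sub, map_mul,
          if_true, if_false, Bool.false_eq_true, algHom_C, algebraMap_eq]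
        linear_combination (X (false, c)) * htt + (-C t⁻¹ * X (false, c)) * htd
      · simp only [AlgHom.comp_apply, aeval_X, lin, lin', AlgHom.id_apply, map_sub, map_mul,
          if_true, if_false, Bool.false_eq_true, algHom_C, algebraMap_eq]
        linear_combination (X (true, c)) * htt + (-C t⁻¹ * X (true, c)) * htd
    exact DFunLike.congr_fun hcomp p
  have h5 : AlgebraicIndependent L fun i => aeval xs (lin i) :=
    AlgebraicIndependent.aeval_of_algebraicIndependent hxs hlin
  let e : {q : (ℤ × ℤ) × (ℤ × ℤ) | q.2 = (n - 1, n) ∧ (q.1.1 = a ∨ q.1.1 = a + 1) ∧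
      w < q.1.2 ∧ q.1.2 ≤ m} → Bool × W := fun q =>
    (decide (q.1.1.1 = a + 1), ⟨q.1.1.2, q.2.2.2.1, q.2.2.2.2⟩)
  have he : Function.Injective e := by
    rintro ⟨⟨⟨i, c⟩, jj⟩, h1, h2, h3⟩ ⟨⟨⟨i', c'⟩, jj'⟩, h1', h2', h3'⟩ h
    simp only [e, Prod.mk.injEq, decide_eq_decide] at h
    simp only at h1 h2 h1' h2'
    have hi : i = i' := by omega
    have hc : c = c' := congrArg Subtype.val h.2
    subst h1 h1' hi hc
    rfl
  have h6 := h5.comp e he
  have h7 : (fun q : {q : (ℤ × ℤ) × (ℤ × ℤ) | q.2 = (n - 1, n) ∧ (q.1.1 = a ∨ q.1.1 = a + 1) ∧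
      w < q.1.2 ∧ q.1.2 ≤ m} => fm x q.1) = (fun i => aeval xs (lin i)) ∘ e := by
    funext q
    obtain ⟨⟨⟨i, c⟩, jj⟩, h1, h2, h3, h4⟩ := q
    simp only at h1 h2 h3 h4
    subst h1
    rcases h2 with h2 | h2
    · subst h2
      have hd : decide (i = i + 1) = false := by simp
      change fm x ((i, c), (n - 1, n)) = aeval xs (lin (decide (i = i + 1), ⟨c, h3, h4⟩))
      rw [hd]
      simp only [lin, Bool.false_eq_true, if_false, map_sub, map_mul,
        aeval_C, aeval_X, xs, if_true, fm]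
      simp only [al, be, IntermediateField.algebraMap_apply]
      ring
    · subst h2
      have hd : decide (a + 1 = a + 1) = true := by simp
      change fm x ((a + 1, c), (n - 1, n)) = aeval xs (lin (decide (a + 1 = a + 1), ⟨c, h3, h4⟩))
      rw [hd]
      simp only [lin, if_true, map_sub, map_mul,
        aeval_C, aeval_X, xs, Bool.false_eq_true, if_false, fm]
      simp only [ga, de, IntermediateField.algebraMap_apply]
      ring
  unfold IndOn Ind
  rw [h7]
  exact h6

end Strip

end Pool.Agent.J4.H7.C39
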