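import Mathlib
import Pool.Agent.J4.H7.C39.Strip
import Pool.Agent.J4.H7.C39.Ext2

namespace Pool.Agent.J4.H7.C39

open MvPolynomial

theorem Quad.of_equiv {K : Type*} [Field K] {σ τ A : Type*} [CommRing A] [Algebra K A]
    (e : σ ≃ τ) {g : τ → A} (h : Quad K (g ∘ e)) : Quad K g := by
  intro p hp
  have h1 : aeval (g ∘ e) (rename e.symm p) = 0 := by
    rw [aeval_rename]
    have : (g ∘ e) ∘ e.symm = g := by ext; simp
    rw [this, hp]
  have h2 := h _ h1
  have h3 : Ideal.span {q : MvPolynomial σ K | q.IsHomogeneous 2 ∧ aeval (g ∘ e) q = 0} ≤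
      (Ideal.span {q : MvPolynomial τ K | q.IsHomogeneous 2 ∧ aeval g q = 0}).comap
        (rename e : MvPolynomial σ K →ₐ[K] MvPolynomial τ K) := by
    rw [Ideal.span_le]
    rintro q ⟨hq1, hq2⟩
    rw [SetLike.mem_coe, Ideal.mem_comap]
    refine Ideal.subset_span ⟨hq1.rename_isHomogeneous, ?_⟩
    rw [aeval_rename, hq2]
  have h4 := h3 h2
  rw [Ideal.mem_comap, rename_rename] at h4
  have : (e ∘ e.symm : τ → τ) = id := by ext; simp
  rw [this, rename_id] at h4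
  exact h4

section Step

variable {K F : Type*} [Field K] [Field F] [Algebra K F] {x : ℤ × ℤ → F}

/-- The minors in `s` have a relation ideal generated by quadrics, and the minors in `T` are
independent over them. -/
def Gd (K : Type*) [Field K] {F : Type*} [Field F] [Algebra K F] (x : ℤ × ℤ → F)
    (s T : Set ((ℤ × ℤ) × (ℤ × ℤ))) : Prop :=
  Quad K (fun q : s => fm x q) ∧ IndOn K (fm x '' s) (fm x) T

/-- The minors of the strip with rows `n - 1`, `n` and columns `a, …, m` whose last column is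
larger than `w`. -/
def St (a w m n : ℤ) : Set ((ℤ × ℤ) × (ℤ × ℤ)) :=
  {q | q.2 = (n - 1, n) ∧ a ≤ q.1.1 ∧ q.1.1 < q.1.2 ∧ w < q.1.2 ∧ q.1.2 ≤ m}

/-- The same with first column `a` or `a + 1`. -/
def Sq (a w m n : ℤ) : Set ((ℤ × ℤ) × (ℤ × ℤ)) :=
  {q | q.2 = (n - 1, n) ∧ (q.1.1 = a ∨ q.1.1 = a + 1) ∧ w < q.1.2 ∧ q.1.2 ≤ m}

theorem fm_plucker (x : ℤ × ℤ → F) (n i j k l : ℤ) :
    fm x ((i, k), (n - 1, n)) * fm x ((j, l), (n - 1, n)) =
      fm x ((i, j), (n - 1, n)) * fm x ((k, l), (n - 1, n)) +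
      fm x ((i, l), (n - 1, n)) * fm x ((j, k), (n - 1, n)) := by
  simp only [fm]
  ring

theorem fm_mem_adjoin {S : Set (ℤ × ℤ)} {q : (ℤ × ℤ) × (ℤ × ℤ)}
    (h1 : (q.1.1, q.2.2) ∈ S) (h2 : (q.1.2, q.2.1) ∈ S) (h3 : (q.1.2, q.2.2) ∈ S)
    (h4 : (q.1.1, q.2.1) ∈ S) : fm x q ∈ IntermediateField.adjoin K (x '' S) := by
  have h : ∀ v ∈ S, x v ∈ IntermediateField.adjoin K (x '' S) := fun v hv =>
    IntermediateField.subset_adjoin _ _ ⟨v, hv, rfl⟩
  exact sub_mem (mul_mem (h _ h1) (h _ h2)) (mul_mem (h _ h3) (h _ h4))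

theorem step (hx : AlgebraicIndependent K x) (R0 : Set (ℤ × ℤ)) (a w m n : ℤ)
    (hw : w = a + 1 ∨ w = a + 2) (hwm : w ≤ m)
    (h00 : (a, n - 1) ∈ R0) (h01 : (a, n) ∈ R0)
    (h10 : (a + 1, n - 1) ∈ R0) (h11 : (a + 1, n) ∈ R0)
    (hnew : ∀ c, w < c → c ≤ m → (c, n - 1) ∉ R0 ∧ (c, n) ∉ R0)
    (s0 T : Set ((ℤ × ℤ) × (ℤ × ℤ)))
    (hG : Gd K x s0 (T ∪ St a (a + 1) w n)) (hd1 : Disjoint T (St a (a + 1) w n))
    (hd2 : Disjoint s0 (St a (a + 1) w n))
    (ht : ((a, a + 1), (n - 1, n)) ∈ s0)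
    (hR : ∀ q ∈ s0 ∪ (T ∪ St a (a + 1) w n), (q.1.1, q.2.2) ∈ R0 ∧ (q.1.2, q.2.1) ∈ R0 ∧
      (q.1.2, q.2.2) ∈ R0 ∧ (q.1.1, q.2.1) ∈ R0) :
    Gd K x (s0 ∪ St a (a + 1) m n) T := by
  classical
  obtain ⟨hQ, hI⟩ := hG
  set S0 := fm x '' s0 with hS0
  have hadj : ∀ q ∈ s0 ∪ (T ∪ St a (a + 1) w n), fm x q ∈ IntermediateField.adjoin K (x '' R0) :=
    fun q hq => fm_mem_adjoin (hR q hq).1 (hR q hq).2.1 (hR q hq).2.2.1 (hR q hq).2.2.2
  -- St a (a+1) w n = Sq a (a+1) w n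
  have hStSq : St a (a + 1) w n = Sq a (a + 1) w n := by
    ext ⟨⟨i, c⟩, jj⟩
    simp only [St, Sq, Set.mem_ofPred_eq]
    constructor
    · rintro ⟨h1, h2⟩
      exact ⟨h1, by omega⟩
    · rintro ⟨h1, h2⟩
      exact ⟨h1, by omega⟩
  have hsplit : Sq a (a + 1) m n = Sq a (a + 1) w n ∪ Sq a w m n := by
    ext ⟨⟨i, c⟩, jj⟩
    simp only [Sq, Set.mem_ofPred_eq, Set.mem_union]
    constructor
    · rintro ⟨h1, h2, h3⟩
      by_cases h4 : c ≤ w
      · left; exact ⟨h1, h2, by omega⟩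
      · right; exact ⟨h1, h2, by omega⟩
    · rintro (⟨h1, h2, h3⟩ | ⟨h1, h2, h3⟩)
      · exact ⟨h1, h2, by omega⟩
      · exact ⟨h1, h2, by omega⟩
  have hR0c : ∀ q ∈ Sq a w m n, (q.1.2, q.2.2) ∉ R0 := by
    rintro ⟨⟨i, c⟩, jj⟩ ⟨h1, h2, h3⟩
    simp only at h1 h2 h3
    subst h1
    exact (hnew c h3.1 h3.2).2
  have hd3 : Disjoint (T ∪ St a (a + 1) w n) (Sq a w m n) := by
    rw [Set.disjoint_left]
    intro q hq hq'
    exact hR0c q hq' (hR q (Or.inr hq)).2.2.1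
  -- independence
  have hN : IndOn K (x '' R0) (fm x) (Sq a w m n) :=
    strip_ind hx R0 a w m n h00 h01 h10 h11 hnew
  have hN' : IndOn K (S0 ∪ fm x '' (T ∪ St a (a + 1) w n)) (fm x) (Sq a w m n) := by
    refine hN.mono_base ?_
    rw [hS0, ← Set.image_union]
    rintro _ ⟨q, hq, rfl⟩
    exact hadj q hq
  have hall : IndOn K S0 (fm x) ((T ∪ St a (a + 1) w n) ∪ Sq a w m n) :=
    (IndOn.union_iff hd3).2 ⟨hI, hN'⟩
  have hset : (T ∪ St a (a + 1) w n) ∪ Sq a w m n = Sq a (a + 1) m n ∪ T := by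
    rw [hsplit, hStSq, Set.union_assoc, Set.union_comm]
  have hd4 : Disjoint (Sq a (a + 1) m n) T := by
    rw [hsplit, Set.disjoint_union_left, ← hStSq]
    exact ⟨hd1.symm, (Set.disjoint_union_left.1 hd3).1.symm⟩
  rw [hset, IndOn.union_iff hd4] at hall
  obtain ⟨hA, hB⟩ := hall
  -- the extension lemma
  let Z : ℤ → ℤ → F := fun i j => fm x ((i, j), (n - 1, n))
  let g0 : s0 → F := fun q => fm x q
  have hrange : Set.range g0 = S0 := by
    rw [hS0]; ext z; simp [g0]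
  have hind : AlgebraicIndependent (IntermediateField.adjoin K (Set.range g0))
      (fun p : PQ a m => Z p.1.1 p.1.2) := by
    rw [hrange]
    have h1 : Ind K S0 (fun q : Sq a (a + 1) m n => fm x q) := hA
    let e : PQ a m → Sq a (a + 1) m n := fun p => ⟨(p.1, (n - 1, n)), rfl, p.2.1, by
      have := p.2; simp only; omega⟩
    have he : Function.Injective e := by
      intro p p' h
      have h2 := congrArg (fun z => z.1.1) h
      exact Subtype.ext h2
    exact h1.comp e he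
  have ht0 : g0 ⟨_, ht⟩ ≠ 0 := fm_ne_zero hx _ (by simp) (by simp)
  have hE : Quad K (fam g0 Z a m) :=
    ext_quad g0 ⟨_, ht⟩ Z a m hQ rfl ht0 (fun i j k l _ _ _ _ _ => fm_plucker x n i j k l) hind
  have hd5 : Disjoint s0 (St a (a + 1) m n) := by
    rw [Set.disjoint_left]
    intro q hq hq'
    by_cases h : q.1.2 ≤ w
    · exact Set.disjoint_left.1 hd2 hq ⟨hq'.1, hq'.2.1, hq'.2.2.1, hq'.2.2.2.1, h⟩
    · have h1 := (hR q (Or.inl hq)).2.2.1
      rw [show q.2.2 = n by rw [hq'.1]] at h1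
      exact (hnew q.1.2 (by omega) hq'.2.2.2.2).2 h1
  constructor
  · let e : Ch a m ⊕ s0 → ↥(s0 ∪ St a (a + 1) m n) := fun z =>
      match z with
      | Sum.inl c => ⟨(c.1, (n - 1, n)), Or.inr ⟨rfl, c.2.1, c.2.2.1, by
          have := c.2; simp only; omega, c.2.2.2.2⟩⟩
      | Sum.inr q => ⟨q.1, Or.inl q.2⟩
    have he : Function.Bijective e := by
      constructor
      · rintro (c | q) (c' | q') h
        · have h2 := congrArg (fun z => z.1.1) h
          exact congrArg Sum.inl (Subtype.ext h2)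
        · exfalso
          have h2 : (c.1, (n - 1, n)) = q'.1 := congrArg (fun z => z.1) h
          refine Set.disjoint_left.1 hd5 q'.2 ?_
          rw [← h2]
          exact ⟨rfl, c.2.1, c.2.2.1, by have := c.2; simp; omega, c.2.2.2.2⟩
        · exfalso
          have h2 : q.1 = (c'.1, (n - 1, n)) := congrArg (fun z => z.1) h
          refine Set.disjoint_left.1 hd5 q.2 ?_
          rw [h2]
          exact ⟨rfl, c'.2.1, c'.2.2.1, by have := c'.2; simp; omega, c'.2.2.2.2⟩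
        · have h2 := congrArg (fun z => z.1) h
          exact congrArg Sum.inr (Subtype.ext h2)
      · rintro ⟨q, hq | hq⟩
        · exact ⟨Sum.inr ⟨q, hq⟩, rfl⟩
        · obtain ⟨⟨i, c⟩, jj⟩ := q
          obtain ⟨h1, h2, h3, h4, h5⟩ := hq
          simp only at h1 h2 h3 h4 h5
          subst h1
          exact ⟨Sum.inl ⟨(i, c), h2, h3, by simp; omega, h5⟩, rfl⟩
    apply Quad.of_equiv (Equiv.ofBijective e he)
    have h3 : (fun q : ↥(s0 ∪ St a (a + 1) m n) => fm x q) ∘ (Equiv.ofBijective e he) =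
        fam g0 Z a m := by
      funext z
      cases z with
      | inl c => rfl
      | inr q => rfl
    rw [h3]
    exact hE
  · refine hB.mono_base ?_
    rintro _ ⟨q, hq, rfl⟩
    rcases hq with hq | hq
    · exact IntermediateField.subset_adjoin _ _ (Or.inl ⟨q, hq, rfl⟩)
    · obtain ⟨⟨i, c⟩, jj⟩ := q
      obtain ⟨h1, h2, h3, h4, h5⟩ := hq
      simp only at h1 h2 h3 h4 h5
      subst h1
      set M := IntermediateField.adjoin K (S0 ∪ fm x '' Sq a (a + 1) m n) with hM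
      have hsq : ∀ i' c', (i' = a ∨ i' = a + 1) → a + 1 < c' → c' ≤ m →
          fm x ((i', c'), (n - 1, n)) ∈ M := fun i' c' k1 k2 k3 =>
        IntermediateField.subset_adjoin _ _ (Or.inr ⟨_, ⟨rfl, k1, k2, k3⟩, rfl⟩)
      by_cases h6 : i = a ∨ i = a + 1
      · exact hsq i c h6 h4 h5
      · have h7 := fm_plucker x n a (a + 1) i c
        have ht' : fm x ((a, a + 1), (n - 1, n)) ∈ M :=
          IntermediateField.subset_adjoin _ _ (Or.inl ⟨_, ht, rfl⟩)
        have ht0' : fm x ((a, a + 1), (n - 1, n)) ≠ 0 := ht0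
        have h8 : fm x ((i, c), (n - 1, n)) = (fm x ((a, i), (n - 1, n)) *
            fm x ((a + 1, c), (n - 1, n)) - fm x ((a, c), (n - 1, n)) *
            fm x ((a + 1, i), (n - 1, n))) / fm x ((a, a + 1), (n - 1, n)) := by
          rw [eq_div_iff ht0', h7]; ring
        change fm x ((i, c), (n - 1, n)) ∈ M
        rw [h8]
        exact div_mem (sub_mem (mul_mem (hsq a i (Or.inl rfl) (by omega) (by omega))
          (hsq (a + 1) c (Or.inr rfl) (by omega) (by omega)))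
          (mul_mem (hsq a c (Or.inl rfl) (by omega) (by omega))
          (hsq (a + 1) i (Or.inr rfl) (by omega) (by omega)))) ht'

end Step

end Pool.Agent.J4.H7.C39
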