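import Mathlib
import Pool.Agent.J4.H7.C39.Step

namespace Pool.Agent.J4.H7.C39

open MvPolynomial

/-- The complement of an index in `{0, 1, 2}`. -/
def cp : Fin 3 → Fin 3 × Fin 3 := ![(1, 2), (0, 2), (0, 1)]

/-- The nine 2-minors of a `3 × 3` matrix, up to sign. -/
def m3 {A : Type*} [CommRing A] (y : Fin 3 × Fin 3 → A) (p : Fin 3 × Fin 3) : A :=
  y ((cp p.1).1, (cp p.2).2) * y ((cp p.1).2, (cp p.2).1) -
    y ((cp p.1).2, (cp p.2).2) * y ((cp p.1).1, (cp p.2).1)

/-- The determinant. -/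
def d3 {A : Type*} [CommRing A] (y : Fin 3 × Fin 3 → A) : A :=
  y (0, 0) * (y (1, 1) * y (2, 2) - y (1, 2) * y (2, 1)) -
  y (0, 1) * (y (1, 0) * y (2, 2) - y (1, 2) * y (2, 0)) +
  y (0, 2) * (y (1, 0) * y (2, 1) - y (1, 1) * y (2, 0))

theorem m3_m3 {A : Type*} [CommRing A] (y : Fin 3 × Fin 3 → A) (p : Fin 3 × Fin 3) :
    m3 (m3 y) p = - d3 y * y p := by
  obtain ⟨i, j⟩ := p
  fin_cases i <;> fin_cases j <;> simp [m3, cp, d3] <;> ring

theorem d3_m3 {A : Type*} [CommRing A] (y : Fin 3 × Fin 3 → A) :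
    d3 (m3 y) = - d3 y ^ 2 := by
  simp [m3, cp, d3]
  ring

theorem aeval_scale_injective {ι K : Type*} [Field K] (D : MvPolynomial ι K) (d : ℕ)
    (hD : D.IsHomogeneous d) (hD0 : D ≠ 0) :
    Function.Injective (aeval (fun i => D * X i) : MvPolynomial ι K →ₐ[K] MvPolynomial ι K) := by
  classical
  rw [injective_iff_map_eq_zero]
  intro p hp
  have hmono : ∀ (e : ι →₀ ℕ) (c : K), aeval (fun i => D * X i) (monomial e c) =
      D ^ e.degree * monomial e c := by
    intro e c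
    rw [aeval_monomial]
    have h1 : (e.prod fun i k => (D * X i) ^ k) = D ^ e.degree * e.prod fun i k => X i ^ k := by
      rw [Finsupp.prod, Finsupp.prod, Finsupp.degree_apply, ← Finset.prod_pow_eq_pow_sum,
        ← Finset.prod_mul_distrib]
      exact Finset.prod_congr rfl fun i _ => mul_pow _ _ _
    rw [h1, monomial_eq, algebraMap_eq]
    ring
  have hcomp : ∀ k, D ^ k * homogeneousComponent k p = 0 := by
    intro k
    have h2 : homogeneousComponent ((d + 1) * k) (aeval (fun i => D * X i) p) = 0 := by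
      rw [hp, map_zero]
    have h3 : aeval (fun i => D * X i) p =
        ∑ e ∈ p.support, D ^ e.degree * monomial e (coeff e p) := by
      conv_lhs => rw [p.as_sum]
      rw [map_sum]
      exact Finset.sum_congr rfl fun e _ => hmono _ _
    rw [h3, map_sum] at h2
    have h4 : ∀ e ∈ p.support, homogeneousComponent ((d + 1) * k)
        (D ^ e.degree * monomial e (coeff e p)) =
        if e.degree = k then D ^ k * monomial e (coeff e p) else 0 := by
      intro e _
      have h5 : (D ^ e.degree * monomial e (coeff e p)).IsHomogeneous ((d + 1) * e.degree) := by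
        have h6 := (hD.pow e.degree).mul (isHomogeneous_monomial (coeff e p) (rfl : e.degree = _))
        have h7 : d * e.degree + e.degree = (d + 1) * e.degree := by ring
        rwa [h7] at h6
      rw [homogeneousComponent_of_mem h5]
      by_cases h8 : e.degree = k
      · rw [if_pos h8, if_pos (by rw [h8]), h8]
      · rw [if_neg h8, if_neg]
        intro h9
        apply h8
        exact (Nat.eq_of_mul_eq_mul_left (by omega) h9).symm
    rw [Finset.sum_congr rfl h4] at h2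
    rw [homogeneousComponent_apply, Finset.mul_sum, Finset.sum_filter]
    exact h2
  have h9 : ∀ k, homogeneousComponent k p = 0 := fun k =>
    (mul_eq_zero.1 (hcomp k)).resolve_left (pow_ne_zero _ hD0)
  rw [← sum_homogeneousComponent p]
  exact Finset.sum_eq_zero fun k _ => h9 k

theorem m3_map {A B : Type*} [CommRing A] [CommRing B] (f : A →+* B) (y : Fin 3 × Fin 3 → A)
    (p : Fin 3 × Fin 3) : f (m3 y p) = m3 (fun q => f (y q)) p := by
  simp [m3]

theorem d3_X_ne {K : Type*} [Field K] : (d3 (X : Fin 3 × Fin 3 → MvPolynomial _ K)) ≠ 0 := by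
  intro h
  have h1 := congrArg (eval (fun p : Fin 3 × Fin 3 => if p.1 = p.2 then (1 : K) else 0)) h
  simp [d3] at h1

theorem d3_X_hom {K : Type*} [Field K] :
    (d3 (X : Fin 3 × Fin 3 → MvPolynomial _ K)).IsHomogeneous 3 := by
  unfold d3
  have h := fun p => isHomogeneous_X K (p : Fin 3 × Fin 3)
  refine IsHomogeneous.add (IsHomogeneous.sub ?_ ?_) ?_ <;>
  exact (h _).mul (((h _).mul (h _)).sub ((h _).mul (h _)))

theorem m3_ind {K : Type*} [Field K] :
    AlgebraicIndependent K (m3 (X : Fin 3 × Fin 3 → MvPolynomial _ K)) := by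
  rw [algebraicIndependent_iff_injective_aeval]
  have h1 : Function.Injective ((aeval (m3 (X : Fin 3 × Fin 3 → MvPolynomial _ K)) :
      MvPolynomial (Fin 3 × Fin 3) K →ₐ[K] MvPolynomial (Fin 3 × Fin 3) K).comp
      (aeval (m3 (X : Fin 3 × Fin 3 → MvPolynomial _ K)))) := by
    have h2 : ((aeval (m3 (X : Fin 3 × Fin 3 → MvPolynomial _ K)) :
      MvPolynomial (Fin 3 × Fin 3) K →ₐ[K] MvPolynomial (Fin 3 × Fin 3) K).comp
      (aeval (m3 (X : Fin 3 × Fin 3 → MvPolynomial _ K)))) =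
      aeval (fun i => (- d3 (X : Fin 3 × Fin 3 → MvPolynomial _ K)) * X i) := by
      apply MvPolynomial.algHom_ext
      intro p
      rw [AlgHom.comp_apply, aeval_X, aeval_X, ← m3_m3]
      have := m3_map (aeval (m3 (X : Fin 3 × Fin 3 → MvPolynomial _ K)) :
        MvPolynomial (Fin 3 × Fin 3) K →ₐ[K] MvPolynomial (Fin 3 × Fin 3) K).toRingHom
        (X : Fin 3 × Fin 3 → MvPolynomial _ K) p
      simp only [AlgHom.toRingHom_eq_coe, RingHom.coe_coe, aeval_X] at this
      exact this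
    rw [h2]
    exact aeval_scale_injective _ 3 d3_X_hom.neg (neg_ne_zero.2 d3_X_ne)
  rw [AlgHom.coe_comp] at h1
  exact Function.Injective.of_comp h1

section Blk

variable {K F : Type*} [Field K] [Field F] [Algebra K F] {x : ℤ × ℤ → F}

/-- The entries of the block with centre `(c, c')`. -/
def yb (x : ℤ × ℤ → F) (c c' : ℤ) (p : Fin 3 × Fin 3) : F :=
  x (c - 1 + (p.1 : ℕ), c' - 1 + (p.2 : ℕ))

theorem yb_ind (hx : AlgebraicIndependent K x) (c c' : ℤ) :
    AlgebraicIndependent K (yb x c c') := by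
  apply hx.comp (fun p : Fin 3 × Fin 3 => ((c - 1 + (p.1 : ℕ), c' - 1 + (p.2 : ℕ)) : ℤ × ℤ))
  rintro ⟨i, j⟩ ⟨i', j'⟩ h
  simp only [Prod.mk.injEq] at h ⊢
  exact ⟨Fin.ext (by omega), Fin.ext (by omega)⟩

theorem m3_yb_ind (hx : AlgebraicIndependent K x) (c c' : ℤ) :
    AlgebraicIndependent K (m3 (yb x c c')) := by
  have h1 := AlgebraicIndependent.aeval_of_algebraicIndependent (yb_ind hx c c')
    (m3_ind (K := K))
  have h2 : (fun i => aeval (yb x c c') (m3 (X : Fin 3 × Fin 3 → MvPolynomial _ K) i)) =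
      m3 (yb x c c') := by
    funext p
    simp [m3]
  rwa [h2] at h1

/-- The nine minors of the block with centre `(c, c')`. -/
def N9 (c c' : ℤ) : Set ((ℤ × ℤ) × (ℤ × ℤ)) :=
  {q | c - 1 ≤ q.1.1 ∧ q.1.1 < q.1.2 ∧ q.1.2 ≤ c + 1 ∧
    c' - 1 ≤ q.2.1 ∧ q.2.1 < q.2.2 ∧ q.2.2 ≤ c' + 1}

/-- The complementary index. -/
def ci (c : ℤ) (p : ℤ × ℤ) : Fin 3 := if p.2 = c then 2 else if p.1 = c - 1 then 1 else 0

theorem ci_spec (c i i' : ℤ) (h1 : c - 1 ≤ i) (h2 : i < i') (h3 : i' ≤ c + 1) :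
    c - 1 + (((cp (ci c (i, i'))).1 : ℕ) : ℤ) = i ∧
      c - 1 + (((cp (ci c (i, i'))).2 : ℕ) : ℤ) = i' := by
  unfold ci
  by_cases h4 : i' = c
  · rw [if_pos h4]
    simp [cp]
    omega
  · rw [if_neg h4]
    by_cases h5 : i = c - 1
    · rw [if_pos h5]
      simp [cp]
      omega
    · rw [if_neg h5]
      simp [cp]
      omega

theorem N9_ind (hx : AlgebraicIndependent K x) (c c' : ℤ) :
    AlgebraicIndependent K (fun q : N9 c c' => fm x q) := by
  have h1 := (m3_yb_ind hx c c').comp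
    (fun q : N9 c c' => (ci c q.1.1, ci c' q.1.2)) (by
      rintro ⟨⟨⟨i, i'⟩, ⟨j, j'⟩⟩, h1, h2, h3, h4, h5, h6⟩
        ⟨⟨⟨k, k'⟩, ⟨l, l'⟩⟩, g1, g2, g3, g4, g5, g6⟩ h
      simp only at h1 h2 h3 h4 h5 h6 g1 g2 g3 g4 g5 g6
      simp only [Prod.mk.injEq] at h
      have s1 := ci_spec c i i' h1 h2 h3
      have s2 := ci_spec c k k' g1 g2 g3
      have s3 := ci_spec c' j j' h4 h5 h6
      have s4 := ci_spec c' l l' g4 g5 g6
      rw [h.1] at s1
      rw [h.2] at s3
      apply Subtype.ext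
      change ((i, i'), (j, j')) = ((k, k'), (l, l'))
      simp only [Prod.mk.injEq]
      omega)
  have h2 : (fun q : N9 c c' => fm x q) = m3 (yb x c c') ∘
      (fun q : N9 c c' => (ci c q.1.1, ci c' q.1.2)) := by
    funext q
    obtain ⟨⟨⟨i, i'⟩, ⟨j, j'⟩⟩, h1, h2, h3, h4, h5, h6⟩ := q
    simp only at h1 h2 h3 h4 h5 h6
    have s1 := ci_spec c i i' h1 h2 h3
    have s3 := ci_spec c' j j' h4 h5 h6
    simp only [Function.comp, m3, yb, fm]
    rw [s1.1, s1.2, s3.1, s3.2]
  rw [h2]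
  exact h1

theorem Quad.of_ind {σ : Type*} {g : σ → F} (h : AlgebraicIndependent K g) : Quad K g := by
  intro p hp
  rw [h.eq_zero_of_aeval_eq_zero p hp]
  exact Ideal.zero_mem _

theorem ind_empty {τ : Type*} {g : τ → F} (h : AlgebraicIndependent K g) : Ind K ∅ g := by
  unfold Ind
  refine AlgebraicIndependent.ringHom_of_comp_eq
    (algebraMap K (IntermediateField.adjoin K (∅ : Set F))) (RingHom.id F) h ?_
    Function.injective_id rfl
  rintro ⟨z, hz⟩
  rw [IntermediateField.adjoin_empty, IntermediateField.mem_bot] at hz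
  obtain ⟨k, hk⟩ := hz
  exact ⟨k, Subtype.ext hk⟩

theorem gd_of_ind {s T : Set ((ℤ × ℤ) × (ℤ × ℤ))} (h : AlgebraicIndependent K
    (fun q : ↥(s ∪ T) => fm x q)) (hd : Disjoint s T) : Gd K x s T := by
  have h1 : IndOn K ∅ (fm x) (s ∪ T) := ind_empty h
  rw [IndOn.union_iff hd] at h1
  refine ⟨Quad.of_ind ?_, ?_⟩
  · exact h.comp (Set.inclusion Set.subset_union_left) (Set.inclusion_injective _)
  · have h2 := h1.2
    rwa [Set.empty_union] at h2

theorem block_gd (hx : AlgebraicIndependent K x) (c c' : ℤ) (T : Set ((ℤ × ℤ) × (ℤ × ℤ)))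
    (hT : T ⊆ N9 c c') : Gd K x (N9 c c' \ T) T := by
  apply gd_of_ind _ Set.disjoint_sdiff_left
  rw [Set.sdiff_union_of_subset hT]
  exact N9_ind hx c c'

theorem Gd.transport {x x' : ℤ × ℤ → F} (e : ((ℤ × ℤ) × (ℤ × ℤ)) ≃ ((ℤ × ℤ) × (ℤ × ℤ)))
    (he : ∀ q, fm x (e q) = fm x' q) {s T : Set ((ℤ × ℤ) × (ℤ × ℤ))}
    (h : Gd K x' (e ⁻¹' s) (e ⁻¹' T)) : Gd K x s T := by
  obtain ⟨h1, h2⟩ := h
  constructor
  · let e' : ↥(e ⁻¹' s) ≃ s := e.subtypeEquiv (fun _ => Iff.rfl)
    apply Quad.of_equiv e'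
    have : (fun q : s => fm x q) ∘ e' = fun q : ↥(e ⁻¹' s) => fm x' q := by
      funext q
      exact he q.1
    rw [this]
    exact h1
  · have h3 : fm x' '' (e ⁻¹' s) = fm x '' s := by
      ext z
      constructor
      · rintro ⟨q, hq, rfl⟩
        exact ⟨e q, hq, he q⟩
      · rintro ⟨q, hq, rfl⟩
        refine ⟨e.symm q, by simpa using hq, ?_⟩
        rw [← he, Equiv.apply_symm_apply]
    rw [h3] at h2
    let e' : T ≃ ↥(e ⁻¹' T) := (e.subtypeEquiv (fun _ => Iff.rfl)).symm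
    have h4 : (fun q : T => fm x q) = (fun q : ↥(e ⁻¹' T) => fm x' q) ∘ e' := by
      funext q
      have h5 : (e (e' q).1) = q.1 := by
        have : (e.subtypeEquiv (fun _ => Iff.rfl) : ↥(e ⁻¹' T) ≃ T) (e' q) = q := by
          simp [e']
        exact congrArg Subtype.val this
      change fm x q.1 = fm x' (e' q).1
      rw [← he, h5]
    unfold IndOn
    rw [h4]
    exact Ind.comp h2 e' e'.injective

end Blk

end Pool.Agent.J4.H7.C39
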