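import Mathlib
import Pool.Agent.J4.H7.C39.Block

namespace Pool.Agent.J4.H7.C39

open MvPolynomial

section gen

variable {K : Type*} [Field K] {σ : Type*}

theorem deg_two (m : σ →₀ ℕ) (h : m.degree = 2) :
    ∃ u v, m = Finsupp.single u 1 + Finsupp.single v 1 := by
  classical
  have h0 : m ≠ 0 := by
    rintro rfl
    simp at h
  obtain ⟨u, hu⟩ := Finsupp.ne_iff.1 h0
  have e1 : m = (m - Finsupp.single u 1) + Finsupp.single u 1 :=
    (Finsupp.sub_add_single_one_cancel hu).symm
  have h1 : (m - Finsupp.single u 1).degree = 1 := by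
    have : m.degree = (m - Finsupp.single u 1).degree + 1 := by
      conv_lhs => rw [e1]
      rw [map_add, Finsupp.degree_single]
    omega
  have h2 : m - Finsupp.single u 1 ≠ 0 := by
    intro h3
    rw [h3] at h1
    simp at h1
  obtain ⟨v, hv⟩ := Finsupp.ne_iff.1 h2
  have e2 : m - Finsupp.single u 1 =
      (m - Finsupp.single u 1 - Finsupp.single v 1) + Finsupp.single v 1 :=
    (Finsupp.sub_add_single_one_cancel hv).symm
  have h3 : (m - Finsupp.single u 1 - Finsupp.single v 1).degree = 0 := by
    have : (m - Finsupp.single u 1).degree =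
        (m - Finsupp.single u 1 - Finsupp.single v 1).degree + 1 := by
      conv_lhs => rw [e2]
      rw [map_add, Finsupp.degree_single]
    omega
  rw [Finsupp.degree_eq_zero_iff] at h3
  refine ⟨v, u, ?_⟩
  rw [h3, zero_add] at e2
  rw [← e2]
  exact e1

/-- A product of two elements which is detected by a functional killing all other products does
not occur in a quadric relation. -/
theorem coeff_quadric {A : Type*} [CommRing A] [Algebra K A] (f : σ → A)
    (q : MvPolynomial σ K) (hq : q.IsHomogeneous 2) (h0 : aeval f q = 0) (a b : σ)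
    (l : A →ₗ[K] K) (hab : l (f a * f b) ≠ 0)
    (hne : ∀ u v, ¬ ((u = a ∧ v = b) ∨ (u = b ∧ v = a)) → l (f u * f v) = 0) :
    coeff (Finsupp.single a 1 + Finsupp.single b 1) q = 0 := by
  classical
  have h1 : aeval f q = ∑ m ∈ q.support, coeff m q • (m.prod fun i k => f i ^ k) := by
    conv_lhs => rw [q.as_sum]
    rw [map_sum]
    refine Finset.sum_congr rfl fun m _ => ?_
    rw [aeval_monomial, Algebra.smul_def]
  have h2 : ∑ m ∈ q.support, coeff m q * l (m.prod fun i k => f i ^ k) = 0 := by
    have := congrArg l (h1.symm.trans h0)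
    rw [map_sum, map_zero] at this
    rw [← this]
    exact Finset.sum_congr rfl fun m _ => by rw [map_smul, smul_eq_mul]
  have hprod : ∀ u v : σ, ((Finsupp.single u 1 + Finsupp.single v 1 : σ →₀ ℕ).prod
      fun i k => f i ^ k) = f u * f v := by
    intro u v
    rw [Finsupp.prod_add_index' (by simp) (by intros; exact pow_add _ _ _)]
    simp
  rw [Finset.sum_eq_single (Finsupp.single a 1 + Finsupp.single b 1)] at h2
  · rw [hprod] at h2
    exact (mul_eq_zero.1 h2).resolve_right hab
  · intro m hm hmne
    have hdeg : m.degree = 2 := by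
      have h4 : coeff m q ≠ 0 := by simpa using hm
      by_contra h3
      exact h4 (hq.coeff_eq_zero h3)
    obtain ⟨u, v, rfl⟩ := deg_two m hdeg
    rw [hprod, hne u v, mul_zero]
    rintro (⟨rfl, rfl⟩ | ⟨rfl, rfl⟩)
    · exact hmne rfl
    · exact hmne (add_comm _ _)
  · intro hm
    have h3 : coeff (Finsupp.single a 1 + Finsupp.single b 1) q = 0 := by simpa using hm
    rw [h3, zero_mul]

/-- The polynomials no monomial of which divides `m0`. -/
def avoid (K : Type*) [Field K] {σ : Type*} (m0 : σ →₀ ℕ) : Ideal (MvPolynomial σ K) where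
  carrier := {p | ∀ m ≤ m0, coeff m p = 0}
  add_mem' := fun {p q} hp hq m hm => by rw [coeff_add, hp m hm, hq m hm, add_zero]
  zero_mem' := fun m _ => by simp
  smul_mem' := fun c p hp m hm => by
    classical
    rw [smul_eq_mul, coeff_mul]
    refine Finset.sum_eq_zero fun z hz => ?_
    have h1 : z.1 + z.2 = m := by simpa using hz
    rw [hp z.2 ((le_add_self.trans h1.le).trans hm), mul_zero]

/-- A cubic relation with a monomial none of whose quadratic divisors occurs in a quadric
relation shows that the relation ideal is not generated by quadrics. -/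
theorem not_quad_of_cubic {A : Type*} [CommRing A] [Algebra K A] (f : σ → A)
    (p : MvPolynomial σ K) (hp : aeval f p = 0) (a b c : σ) (hab : a ≠ b) (hac : a ≠ c)
    (hbc : b ≠ c)
    (hco : coeff (Finsupp.single a 1 + Finsupp.single b 1 + Finsupp.single c 1) p ≠ 0)
    (h1 : ∀ q : MvPolynomial σ K, q.IsHomogeneous 2 → aeval f q = 0 →
      coeff (Finsupp.single a 1 + Finsupp.single b 1) q = 0 ∧
      coeff (Finsupp.single a 1 + Finsupp.single c 1) q = 0 ∧
      coeff (Finsupp.single b 1 + Finsupp.single c 1) q = 0) : ¬ Quad K f := by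
  classical
  intro hQ
  have h2 := hQ p hp
  set m0 := Finsupp.single a 1 + Finsupp.single b 1 + Finsupp.single c 1 with hm0
  have h3 : Ideal.span {q : MvPolynomial σ K | q.IsHomogeneous 2 ∧ aeval f q = 0} ≤
      avoid K m0 := by
    rw [Ideal.span_le]
    rintro q ⟨hq1, hq2⟩ m hm
    by_contra h4
    have hdeg : m.degree = 2 := by
      by_contra h3
      exact h4 (hq1.coeff_eq_zero h3)
    obtain ⟨u, v, rfl⟩ := deg_two m hdeg
    obtain ⟨g1, g2, g3⟩ := h1 q hq1 hq2
    have hu : u = a ∨ u = b ∨ u = c := by
      by_contra hcon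
      push Not at hcon
      have := hm u
      simp only [hm0, Finsupp.add_apply, Finsupp.single_eq_same,
        Finsupp.single_eq_of_ne hcon.1, Finsupp.single_eq_of_ne hcon.2.1,
        Finsupp.single_eq_of_ne hcon.2.2] at this
      omega
    have hv : v = a ∨ v = b ∨ v = c := by
      by_contra hcon
      push Not at hcon
      have := hm v
      simp only [hm0, Finsupp.add_apply, Finsupp.single_eq_same,
        Finsupp.single_eq_of_ne hcon.1, Finsupp.single_eq_of_ne hcon.2.1,
        Finsupp.single_eq_of_ne hcon.2.2] at this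
      omega
    have hma : m0 a = 1 := by
      simp [hm0, Finsupp.single_eq_of_ne hab, Finsupp.single_eq_of_ne hac]
    have hmb : m0 b = 1 := by
      simp [hm0, Finsupp.single_eq_of_ne hab.symm, Finsupp.single_eq_of_ne hbc]
    have hmc : m0 c = 1 := by
      simp [hm0, Finsupp.single_eq_of_ne hac.symm, Finsupp.single_eq_of_ne hbc.symm]
    have huv : u ≠ v := by
      rintro rfl
      have := hm u
      simp only [Finsupp.add_apply, Finsupp.single_eq_same] at this
      rcases hu with rfl | rfl | rfl <;> omega
    rcases hu with rfl | rfl | rfl <;> rcases hv with rfl | rfl | rfl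
    · exact huv rfl
    · exact h4 g1
    · exact h4 g2
    · rw [add_comm] at h4; exact h4 g1
    · exact huv rfl
    · exact h4 g3
    · rw [add_comm] at h4; exact h4 g2
    · rw [add_comm] at h4; exact h4 g3
    · exact huv rfl
  exact hco (h3 h2 m0 le_rfl)

end gen

end Pool.Agent.J4.H7.C39
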