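import Mathlib
import Pool.Agent.J4.H7.C39.Step

namespace Pool.Agent.J4.H7.C39

/-- Finite sublattices of `ℤ × ℤ` in which one moves up by unit steps. -/
structure Reg (R : Set (ℤ × ℤ)) : Prop where
  fin : R.Finite
  sup : ∀ i j k l, (i, j) ∈ R → (k, l) ∈ R → (max i k, max j l) ∈ R
  inf : ∀ i j k l, (i, j) ∈ R → (k, l) ∈ R → (min i k, min j l) ∈ R
  stp : ∀ i j k l, (i, j) ∈ R → (k, l) ∈ R → i ≤ k → j ≤ l → (i < k ∨ j < l) →
    ((i + 1, j) ∈ R ∧ i + 1 ≤ k) ∨ ((i, j + 1) ∈ R ∧ j + 1 ≤ l)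

/-- Every point other than bottom and top has an antidiagonal neighbour. -/
def Smp (R : Set (ℤ × ℤ)) : Prop :=
  ∀ i j, (i, j) ∈ R → (∃ k l, (k, l) ∈ R ∧ ¬ (i ≤ k ∧ j ≤ l)) →
    (∃ k l, (k, l) ∈ R ∧ ¬ (k ≤ i ∧ l ≤ j)) → (i - 1, j + 1) ∈ R ∨ (i + 1, j - 1) ∈ R

/-- `(i, j)` is the centre of a `3 × 3` block. -/
def Blk (R : Set (ℤ × ℤ)) (i j : ℤ) : Prop := (i - 1, j + 1) ∈ R ∧ (i + 1, j - 1) ∈ R

/-- `(m, n)` is the top. -/
def Tp (R : Set (ℤ × ℤ)) (m n : ℤ) : Prop := (m, n) ∈ R ∧ ∀ i j, (i, j) ∈ R → i ≤ m ∧ j ≤ n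

/-- `(m, n)` is the bottom. -/
def Bt (R : Set (ℤ × ℤ)) (m n : ℤ) : Prop := (m, n) ∈ R ∧ ∀ i j, (i, j) ∈ R → m ≤ i ∧ n ≤ j

/-- The minors of the region. -/
def Ys (R : Set (ℤ × ℤ)) : Set ((ℤ × ℤ) × (ℤ × ℤ)) :=
  {q | q.1.1 < q.1.2 ∧ q.2.1 < q.2.2 ∧ (q.1.1, q.2.2) ∈ R ∧ (q.1.2, q.2.1) ∈ R}

variable {R : Set (ℤ × ℤ)}

theorem Reg.rect (hR : Reg R) {i j k l p q : ℤ} (h1 : (i, l) ∈ R) (h2 : (k, j) ∈ R)
    (hp : i ≤ p) (hp' : p ≤ k) (hq : j ≤ q) (hq' : q ≤ l) : (p, q) ∈ R := by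
  have h3 : (i, j) ∈ R := by
    have := hR.inf i l k j h1 h2
    rwa [min_eq_left (by omega), min_eq_right (by omega)] at this
  have hv : ∀ s : ℕ, j + s ≤ l → (i, j + s) ∈ R := by
    intro s
    induction s with
    | zero => intro _; simpa using h3
    | succ s ih =>
      intro hs
      push_cast at hs ⊢
      have h4 := ih (by omega)
      rcases hR.stp i (j + s) i l h4 h1 le_rfl (by omega) (Or.inr (by omega)) with h5 | h5
      · omega
      · rw [← add_assoc]; exact h5.1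
  have hh : ∀ s : ℕ, i + s ≤ k → (i + s, j) ∈ R := by
    intro s
    induction s with
    | zero => intro _; simpa using h3
    | succ s ih =>
      intro hs
      push_cast at hs ⊢
      have h4 := ih (by omega)
      rcases hR.stp (i + s) j k j h4 h2 (by omega) le_rfl (Or.inl (by omega)) with h5 | h5
      · rw [← add_assoc]; exact h5.1
      · omega
  have h5 := hv (q - j).toNat (by omega)
  have h6 := hh (p - i).toNat (by omega)
  have h7 := hR.sup _ _ _ _ h5 h6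
  have e1 : max i (i + ((p - i).toNat : ℤ)) = p := by omega
  have e2 : max (j + ((q - j).toNat : ℤ)) j = q := by omega
  rwa [e1, e2] at h7

theorem Reg.corners (hR : Reg R) {q : (ℤ × ℤ) × (ℤ × ℤ)} (hq : q ∈ Ys R) :
    (q.1.1, q.2.2) ∈ R ∧ (q.1.2, q.2.1) ∈ R ∧ (q.1.2, q.2.2) ∈ R ∧ (q.1.1, q.2.1) ∈ R := by
  obtain ⟨h1, h2, h3, h4⟩ := hq
  exact ⟨h3, h4, hR.rect h3 h4 (by omega) le_rfl (by omega) le_rfl,
    hR.rect h3 h4 le_rfl (by omega) le_rfl (by omega)⟩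

theorem Reg.exists_top (hR : Reg R) (hne : R.Nonempty) : ∃ m n, Tp R m n := by
  classical
  obtain ⟨⟨i0, j0⟩, h0⟩ := hne
  obtain ⟨v, hv, hmax⟩ := hR.fin.exists_maximalFor (fun v : ℤ × ℤ => v.1 + v.2) R ⟨_, h0⟩
  refine ⟨v.1, v.2, hv, fun i j hij => ?_⟩
  have h1 := hR.sup _ _ _ _ hv hij
  have h2 := hmax h1 (by simp only; omega)
  simp only at h2
  omega

theorem Reg.step_down (hR : Reg R) {i j k l : ℤ} (h1 : (i, j) ∈ R) (h2 : (k, l) ∈ R)
    (hik : i ≤ k) (hjl : j ≤ l) (hlt : i < k ∨ j < l) :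
    ((k - 1, l) ∈ R ∧ i ≤ k - 1) ∨ ((k, l - 1) ∈ R ∧ j ≤ l - 1) := by
  have key : ∀ (s : ℕ) (i j : ℤ), (k - i + (l - j)).toNat = s → (i, j) ∈ R → i ≤ k → j ≤ l →
      (i < k ∨ j < l) → ((k - 1, l) ∈ R ∧ i ≤ k - 1) ∨ ((k, l - 1) ∈ R ∧ j ≤ l - 1) := by
    intro s
    induction s with
    | zero => intro i j hs _ _ _ _; omega
    | succ s ih =>
      intro i j hs hij hik hjl hlt
      rcases hR.stp i j k l hij h2 hik hjl hlt with h | h
      · by_cases h3 : i + 1 < k ∨ j < l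
        · rcases ih (i + 1) j (by omega) h.1 h.2 hjl h3 with h4 | h4
          · left; exact ⟨h4.1, by omega⟩
          · right; exact h4
        · left
          have : i = k - 1 := by omega
          have : j = l := by omega
          subst this
          rw [← ‹i = k - 1›]
          exact ⟨hij, le_rfl⟩
      · by_cases h3 : i < k ∨ j + 1 < l
        · rcases ih i (j + 1) (by omega) h.1 hik h.2 h3 with h4 | h4
          · left; exact h4
          · right; exact ⟨h4.1, by omega⟩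
        · right
          have h5 : j = l - 1 := by omega
          have h6 : i = k := by omega
          rw [h5, h6] at hij
          exact ⟨hij, by omega⟩
  exact key _ i j rfl h1 hik hjl hlt

/-- The two coatoms. -/
theorem coatoms (hR : Reg R) (hs : Smp R) {m n : ℤ} (ht : Tp R m n) {i j k l : ℤ}
    (h1 : (i, j) ∈ R) (h2 : (k, l) ∈ R) (hi : (i, j) ≠ (m, n)) (hk : (k, l) ≠ (m, n))
    (hik : (i, j) ≠ (k, l)) : (m - 1, n) ∈ R ∧ (m, n - 1) ∈ R := by
  have hi' := ht.2 i j h1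
  have hk' := ht.2 k l h2
  simp only [ne_eq, Prod.mk.injEq] at hi hk hik
  rcases hR.step_down h1 ht.1 hi'.1 hi'.2 (by omega) with h | h
  · refine ⟨h.1, ?_⟩
    have hnb : ∃ k l, (k, l) ∈ R ∧ ¬ (m - 1 ≤ k ∧ n ≤ l) := by
      by_contra hcon
      push Not at hcon
      have := hcon i j h1
      have := hcon k l h2
      omega
    rcases hs _ _ h.1 hnb ⟨m, n, ht.1, by omega⟩ with h3 | h3
    · have := ht.2 _ _ h3; omega
    · rwa [sub_add_cancel] at h3
  · refine ⟨?_, h.1⟩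
    have hnb : ∃ k l, (k, l) ∈ R ∧ ¬ (m ≤ k ∧ n - 1 ≤ l) := by
      by_contra hcon
      push Not at hcon
      have := hcon i j h1
      have := hcon k l h2
      omega
    rcases hs _ _ h.1 hnb ⟨m, n, ht.1, by omega⟩ with h3 | h3
    · rwa [sub_add_cancel] at h3
    · have := ht.2 _ _ h3; omega

/-- Data for removing the top horizontal strip. -/
structure Peel (R : Set (ℤ × ℤ)) (m n a w : ℤ) : Prop where
  hw : w = a + 1 ∨ (w = a + 2 ∧ Blk R (a + 1) (n - 1))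
  hwm : w < m
  grid : ∀ p q, a ≤ p → p ≤ m → n - 1 ≤ q → q ≤ n → (p, q) ∈ R
  short : ∀ i j, (i, j) ∈ R → w < i → n - 1 ≤ j
  least : ∀ i, (i, n) ∈ R → a ≤ i

theorem exists_peel (hR : Reg R) (hs : Smp R)
    (hb : ∀ i j k l, Blk R i j → Blk R k l → i = k ∧ j = l) {m n : ℤ} (ht : Tp R m n)
    (h1 : (m - 2, n) ∈ R) (h2 : (m, n - 2) ∉ R) : ∃ a w, Peel R m n a w := by
  classical
  have h3 : (m - 1, n) ∈ R := hR.rect h1 ht.1 (by omega) (by omega) le_rfl le_rfl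
  have h4 : (m, n - 1) ∈ R := by
    rcases hs _ _ h3 ⟨m - 2, n, h1, by omega⟩ ⟨m, n, ht.1, by omega⟩ with h | h
    · have := ht.2 _ _ h; omega
    · rwa [sub_add_cancel] at h
  -- the least column of row n
  obtain ⟨a, ha, hmin⟩ : ∃ a, (a, n) ∈ R ∧ ∀ i, (i, n) ∈ R → a ≤ i := by
    have hfin : {v ∈ R | v.2 = n}.Finite := hR.fin.subset (fun v hv => hv.1)
    obtain ⟨v, hv, hvmin⟩ := hfin.exists_minimalFor (fun v : ℤ × ℤ => v.1) _
      ⟨(m, n), ht.1, rfl⟩
    obtain ⟨hv1, hv2⟩ := hv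
    refine ⟨v.1, ?_, fun i hi => ?_⟩
    · rw [← hv2]; exact hv1
    · by_contra hlt
      have := hvmin (j := (i, n)) ⟨hi, rfl⟩ (by simp only; omega)
      simp only at this
      omega
  have ham := hmin _ h1
  have hgrid : ∀ p q, a ≤ p → p ≤ m → n - 1 ≤ q → q ≤ n → (p, q) ∈ R :=
    fun p q hp hp' hq hq' => hR.rect ha h4 hp hp' hq hq'
  have hlow : ∀ i j, (i, j) ∈ R → a + 2 ≤ i → j < n - 1 → i = a + 2 ∧ Blk R (a + 1) (n - 1) ∧
      (a + 2, n - 2) ∈ R := by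
    intro i j hij hai hj
    have hrect : ∀ p q, a ≤ p → p ≤ i → j ≤ q → q ≤ n → (p, q) ∈ R :=
      fun p q hp hp' hq hq' => hR.rect ha hij hp hp' hq hq'
    have hB : Blk R (a + 1) (n - 1) :=
      ⟨hrect _ _ (by omega) (by omega) (by omega) (by omega),
        hrect _ _ (by omega) (by omega) (by omega) (by omega)⟩
    have hi : i = a + 2 := by
      by_contra hne
      have hB' : Blk R (a + 2) (n - 1) :=
        ⟨hrect _ _ (by omega) (by omega) (by omega) (by omega),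
          hrect _ _ (by omega) (by omega) (by omega) (by omega)⟩
      have := hb _ _ _ _ hB hB'
      omega
    exact ⟨hi, hB, hrect _ _ (by omega) (by omega) (by omega) (by omega)⟩
  by_cases hc : (a + 2, n - 2) ∈ R
  · have hB : Blk R (a + 1) (n - 1) := (hlow _ _ hc le_rfl (by omega)).2.1
    refine ⟨a, a + 2, ⟨Or.inr ⟨rfl, hB⟩, ?_, hgrid, ?_, hmin⟩⟩
    · have : m ≠ a + 2 := by
        rintro rfl
        exact h2 hc
      omega
    · intro i j hij hi
      by_contra hj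
      have := (hlow i j hij (by omega) (by omega)).1
      omega
  · refine ⟨a, a + 1, ⟨Or.inl rfl, by omega, hgrid, ?_, hmin⟩⟩
    intro i j hij hi
    by_contra hj
    exact hc (hlow i j hij (by omega) (by omega)).2.2

/-- The region below the strip. -/
def cut (R : Set (ℤ × ℤ)) (w : ℤ) : Set (ℤ × ℤ) := {v | v ∈ R ∧ v.1 ≤ w}

theorem cut_reg (hR : Reg R) (w : ℤ) : Reg (cut R w) where
  fin := hR.fin.subset fun _ hv => hv.1
  sup := fun i j k l h1 h2 => ⟨hR.sup _ _ _ _ h1.1 h2.1, by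
    have := h1.2
    have := h2.2
    simp only at *
    omega⟩
  inf := fun i j k l h1 h2 => ⟨hR.inf _ _ _ _ h1.1 h2.1, by
    have := h1.2
    have := h2.2
    simp only at *
    omega⟩
  stp := fun i j k l h1 h2 h3 h4 h5 => by
    have h1' := h1.2
    have h2' := h2.2
    simp only at h1' h2'
    rcases hR.stp i j k l h1.1 h2.1 h3 h4 h5 with h | h
    · left; exact ⟨⟨h.1, by simp only; omega⟩, h.2⟩
    · right; exact ⟨⟨h.1, by simp only; omega⟩, h.2⟩

theorem Peel.wa {m n a w : ℤ} (hp : Peel R m n a w) : a + 1 ≤ w ∧ w ≤ a + 2 := by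
  rcases hp.hw with h | h
  · omega
  · omega

theorem cut_smp (hs : Smp R) {m n a w : ℤ} (ht : Tp R m n) (hp : Peel R m n a w) :
    Smp (cut R w) := by
  intro i j hij hnb hnt
  obtain ⟨k, l, hkl, h1⟩ := hnb
  obtain ⟨k', l', hkl', h2⟩ := hnt
  have hi := hij.2
  have hk' := hkl'.2
  simp only at hi hk'
  rcases hs i j hij.1 ⟨k, l, hkl.1, h1⟩ ⟨k', l', hkl'.1, h2⟩ with h | h
  · left; exact ⟨h, by simp only; omega⟩
  · by_cases h3 : i + 1 ≤ w
    · right; exact ⟨h, h3⟩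
    · have h4 := hp.short _ _ h (by omega)
      have h5 := (ht.2 _ _ hij.1).2
      have h6 := (ht.2 _ _ hkl'.1).2
      exfalso
      apply h2
      omega

theorem cut_top {m n a w : ℤ} (ht : Tp R m n) (hp : Peel R m n a w) : Tp (cut R w) w n := by
  have := hp.wa
  have := hp.hwm
  refine ⟨⟨hp.grid _ _ (by omega) (by omega) (by omega) le_rfl, le_rfl⟩, fun i j hij => ?_⟩
  exact ⟨hij.2, (ht.2 _ _ hij.1).2⟩

theorem cut_blk {m n a w : ℤ} (ht : Tp R m n) (hp : Peel R m n a w) (i j : ℤ) :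
    Blk (cut R w) i j ↔ Blk R i j := by
  constructor
  · rintro ⟨h1, h2⟩
    exact ⟨h1.1, h2.1⟩
  · rintro ⟨h1, h2⟩
    have h3 : i + 1 ≤ w := by
      by_contra h
      have h4 := hp.short _ _ h2 (by omega)
      have h5 := (ht.2 _ _ h1).2
      omega
    exact ⟨⟨h1, by simp only; omega⟩, ⟨h2, h3⟩⟩

theorem cut_card (hR : Reg R) {m n a w : ℤ} (ht : Tp R m n) (hp : Peel R m n a w) :
    (cut R w).ncard < R.ncard := by
  apply Set.ncard_lt_ncard _ hR.fin
  refine ⟨fun v hv => hv.1, fun h => ?_⟩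
  have := (h ht.1).2
  have := hp.hwm
  simp only at *
  omega

theorem cut_bot {m n a w : ℤ} (hp : Peel R m n a w) {i j : ℤ} :
    Bt R i j → Bt (cut R w) i j := by
  have h1 := hp.wa
  have h2 := hp.hwm
  rintro ⟨h3, h4⟩
  have h5 := h4 _ _ (hp.grid a n le_rfl (by omega) (by omega) le_rfl)
  exact ⟨⟨h3, by simp only; omega⟩, fun k l hkl => h4 k l hkl.1⟩

theorem Ys_cut (hR : Reg R) {m n a w : ℤ} (ht : Tp R m n) (hp : Peel R m n a w) :
    Ys R = Ys (cut R w) ∪ St a w m n := by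
  have hwa := hp.wa
  have hwm := hp.hwm
  ext ⟨⟨i, i'⟩, ⟨j, j'⟩⟩
  constructor
  · rintro ⟨h1, h2, h3, h4⟩
    simp only at h1 h2 h3 h4
    by_cases h5 : i' ≤ w
    · left
      exact ⟨h1, h2, ⟨h3, by simp only; omega⟩, ⟨h4, h5⟩⟩
    · right
      have h6 := hp.short _ _ h4 (by omega)
      have h7 := (ht.2 _ _ h3)
      have h8 := (ht.2 _ _ h4)
      have h9 : j = n - 1 := by omega
      have h10 : j' = n := by omega
      refine ⟨by simp [h9, h10], ?_, h1, by simp only; omega, h8.1⟩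
      rw [h10] at h3
      exact hp.least _ h3
  · rintro (⟨h1, h2, h3, h4⟩ | ⟨h1, h2, h3, h4, h5⟩)
    · exact ⟨h1, h2, h3.1, h4.1⟩
    · simp only [Prod.mk.injEq] at h1 h2 h3 h4 h5
      obtain ⟨h6, h7⟩ := h1
      subst h6 h7
      exact ⟨h3, by simp, hp.grid i j' h2 (by omega) (by omega) le_rfl,
        hp.grid i' (j' - 1) (by omega) h5 le_rfl (by omega)⟩

end Pool.Agent.J4.H7.C39
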