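import Mathlib

namespace Pool.Agent.J4.H7.C39

section width

variable {P : Type*} [PartialOrder P]

/-- `c` splits `s` into two chains. -/
def Split (s : Finset P) (c : P → Bool) : Prop :=
  ∀ p ∈ s, ∀ q ∈ s, c p = c q → p ≤ q ∨ q ≤ p

theorem split_insert [DecidableEq P] (s : Finset P) (c : P → Bool) (hc : Split s c) (a : P)
    (x : P) (hxa : x ≤ a)
    (h : ∀ z ∈ s, c z = true → ¬ z ≤ x → ∀ w ∈ s, c w = false → z ≤ w ∨ w ≤ z) :
    ∃ c', Split (insert a s) c' := by
  classical
  refine ⟨fun z => decide (z = a ∨ (c z = true ∧ z ≤ x)), ?_⟩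
  have hax : ∀ z, (z = a ∨ (c z = true ∧ z ≤ x)) → z ≤ a := by
    rintro z (rfl | ⟨_, h1⟩)
    · exact le_rfl
    · exact h1.trans hxa
  intro p hp q hq hpq
  rw [decide_eq_decide] at hpq
  by_cases h1 : p = a ∨ (c p = true ∧ p ≤ x)
  · have h2 := hpq.1 h1
    rcases h1 with rfl | ⟨h1, h1'⟩
    · right; exact hax q h2
    · rcases h2 with rfl | ⟨h2, h2'⟩
      · left; exact h1'.trans hxa
      · by_cases hpa : p = a
        · right; rw [hpa]; exact h2'.trans hxa
        · by_cases hqa : q = a
          · left; rw [hqa]; exact h1'.trans hxa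
          · exact hc p (Finset.mem_of_mem_insert_of_ne hp hpa) q
              (Finset.mem_of_mem_insert_of_ne hq hqa) (h1.trans h2.symm)
  · have h2 : ¬ (q = a ∨ (c q = true ∧ q ≤ x)) := fun h2 => h1 (hpq.2 h2)
    push Not at h1 h2
    have hp' := Finset.mem_of_mem_insert_of_ne hp h1.1
    have hq' := Finset.mem_of_mem_insert_of_ne hq h2.1
    rcases hcp : c p with _ | _
    · rcases hcq : c q with _ | _
      · exact hc p hp' q hq' (hcp.trans hcq.symm)
      · exact (h q hq' hcq (h2.2 hcq) p hp' hcp).symm
    · rcases hcq : c q with _ | _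
      · exact h p hp' hcp (h1.2 hcp) q hq' hcq
      · exact hc p hp' q hq' (hcp.trans hcq.symm)

/-- Dilworth's theorem for width two. -/
theorem exists_split (hP : ∀ a b c : P, (a ≤ b ∨ b ≤ a) ∨ (a ≤ c ∨ c ≤ a) ∨ (b ≤ c ∨ c ≤ b)) :
    ∀ (n : ℕ) (s : Finset P), s.card = n → ∃ c, Split s c := by
  classical
  intro n
  induction n with
  | zero =>
    intro s hs
    rw [Finset.card_eq_zero] at hs
    subst hs
    exact ⟨fun _ => true, fun p hp => absurd hp (Finset.notMem_empty p)⟩
  | succ n ih =>
    intro s hs
    have hne : s.Nonempty := by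
      rw [← Finset.card_pos]; omega
    obtain ⟨a, ha, hmax⟩ := s.exists_maximal hne
    have hcard : (s.erase a).card = n := by
      rw [Finset.card_erase_of_mem ha]; omega
    obtain ⟨c, hc⟩ := ih (s.erase a) hcard
    have hins : insert a (s.erase a) = s := Finset.insert_erase ha
    by_cases hA : ∀ p ∈ s.erase a, ∀ q ∈ s.erase a, c p = true → c q = false → p ≤ q ∨ q ≤ p
    · refine ⟨fun z => decide (z = a), ?_⟩
      have hch : ∀ p ∈ s.erase a, ∀ q ∈ s.erase a, p ≤ q ∨ q ≤ p := by
        intro p hp q hq
        rcases hcp : c p with _ | _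
        · rcases hcq : c q with _ | _
          · exact hc p hp q hq (hcp.trans hcq.symm)
          · exact (hA q hq p hp hcq hcp).symm
        · rcases hcq : c q with _ | _
          · exact hA p hp q hq hcp hcq
          · exact hc p hp q hq (hcp.trans hcq.symm)
      intro p hp q hq hpq
      rw [decide_eq_decide] at hpq
      by_cases h1 : p = a
      · have h2 := hpq.1 h1
        left; rw [h1, h2]
      · have h2 : q ≠ a := fun h2 => h1 (hpq.2 h2)
        exact hch p (Finset.mem_erase.2 ⟨h1, hp⟩) q (Finset.mem_erase.2 ⟨h2, hq⟩)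
    · push Not at hA
      obtain ⟨p0, hp0, q0, hq0, hcp0, hcq0, hinc1, hinc2⟩ := hA
      -- the largest elements of both chains incomparable to something in the other chain
      obtain ⟨x, hx, hxmax⟩ := (((s.erase a).filter (fun p => c p = true ∧
        ∃ q ∈ s.erase a, c q = false ∧ ¬ p ≤ q ∧ ¬ q ≤ p))).exists_maximal
        ⟨p0, by simp only [Finset.mem_filter]; exact ⟨hp0, hcp0, q0, hq0, hcq0, hinc1, hinc2⟩⟩
      obtain ⟨y, hy, hymax⟩ := (((s.erase a).filter (fun q => c q = false ∧
        ∃ p ∈ s.erase a, c p = true ∧ ¬ p ≤ q ∧ ¬ q ≤ p))).exists_maximal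
        ⟨q0, by simp only [Finset.mem_filter]; exact ⟨hq0, hcq0, p0, hp0, hcp0, hinc1, hinc2⟩⟩
      rw [Finset.mem_filter] at hx hy
      obtain ⟨hxs, hcx, qx, hqx, hcqx, hx1, hx2⟩ := hx
      obtain ⟨hys, hcy, py, hpy, hcpy, hy1, hy2⟩ := hy
      have hqy : qx ≤ y := by
        rcases hc qx hqx y hys (hcqx.trans hcy.symm) with h | h
        · exact h
        · exact hymax (Finset.mem_filter.2 ⟨hqx, hcqx, x, hxs, hcx, hx1, hx2⟩) h
      have hpx : py ≤ x := by
        rcases hc py hpy x hxs (hcpy.trans hcx.symm) with h | h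
        · exact h
        · exact hxmax (Finset.mem_filter.2 ⟨hpy, hcpy, y, hys, hcy, hy1, hy2⟩) h
      have hxy1 : ¬ x ≤ y := fun h => hy1 (hpx.trans h)
      have hxy2 : ¬ y ≤ x := fun h => hx2 (hqy.trans h)
      have hamax : ∀ z ∈ s, a ≤ z → z ≤ a := fun z hz h => hmax hz h
      have hxs' := Finset.mem_of_mem_erase hxs
      have hys' := Finset.mem_of_mem_erase hys
      have hor : x ≤ a ∨ y ≤ a := by
        rcases hP x y a with h | h | h
        · rcases h with h | h
          · exact absurd h hxy1
          · exact absurd h hxy2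
        · left
          rcases h with h | h
          · exact h
          · exact hamax x hxs' h
        · right
          rcases h with h | h
          · exact h
          · exact hamax y hys' h
      rcases hor with h | h
      · obtain ⟨c', hc'⟩ := split_insert (s.erase a) c hc a x h (by
          intro z hz hcz hzx w hw hcw
          by_contra hcon
          push Not at hcon
          apply hzx
          rcases hc z hz x hxs (hcz.trans hcx.symm) with h1 | h1
          · exact h1
          · exact hxmax (Finset.mem_filter.2 ⟨hz, hcz, w, hw, hcw, hcon.1, hcon.2⟩) h1)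
        rw [hins] at hc'
        exact ⟨c', hc'⟩
      · obtain ⟨c', hc'⟩ := split_insert (s.erase a) (fun z => !c z) (by
            intro p hp q hq hpq
            exact hc p hp q hq (by simpa using hpq)) a y h (by
          intro z hz hcz hzx w hw hcw
          have hcz' : c z = false := by simpa using hcz
          have hcw' : c w = true := by simpa using hcw
          by_contra hcon
          push Not at hcon
          apply hzx
          rcases hc z hz y hys (hcz'.trans hcy.symm) with h1 | h1
          · exact h1
          · exact hymax (Finset.mem_filter.2 ⟨hz, hcz', w, hw, hcw', hcon.2, hcon.1⟩) h1)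
        rw [hins] at hc'
        exact ⟨c', hc'⟩

end width

end Pool.Agent.J4.H7.C39
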