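import Mathlib
import Pool.Agent.J4.H7.C39.Width
import Pool.Agent.J4.H7.C39.Region

namespace Pool.Agent.J4.H7.C39

section coord

variable {L : Type*} [DistribLattice L] [BoundedOrder L] [Finite L]

/-- The join-irreducible elements of colour `b` below `a`. -/
def Sb (c : {p : L // SupIrred p} → Bool) (b : Bool) (a : L) : Set {p : L // SupIrred p} :=
  {p | c p = b ∧ p.1 ≤ a}

variable {c : {p : L // SupIrred p} → Bool}

theorem sb_nested (hc : ∀ p q, c p = c q → p ≤ q ∨ q ≤ p) (b : Bool) (a a' : L) :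
    Sb c b a ⊆ Sb c b a' ∨ Sb c b a' ⊆ Sb c b a := by
  by_contra hcon
  push Not at hcon
  obtain ⟨h1, h2⟩ := hcon
  rw [Set.not_subset] at h1 h2
  obtain ⟨p, hp, hp'⟩ := h1
  obtain ⟨q, hq, hq'⟩ := h2
  rcases hc p q (hp.1.trans hq.1.symm) with h | h
  · exact hp' ⟨hp.1, (show p.1 ≤ q.1 from h).trans hq.2⟩
  · exact hq' ⟨hq.1, (show q.1 ≤ p.1 from h).trans hp.2⟩

theorem sb_ncard_le (hc : ∀ p q, c p = c q → p ≤ q ∨ q ≤ p) (b : Bool) (a a' : L) :
    (Sb c b a).ncard ≤ (Sb c b a').ncard ↔ Sb c b a ⊆ Sb c b a' := by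
  constructor
  · intro h
    rcases sb_nested hc b a a' with h1 | h1
    · exact h1
    · by_contra h2
      have := Set.ncard_lt_ncard (Set.ssubset_iff_subset_ne.2 ⟨h1, fun h3 => h2 h3.ge⟩)
        (Set.toFinite _)
      omega
  · intro h
    exact Set.ncard_le_ncard h (Set.toFinite _)

theorem sb_sup (b : Bool) (a a' : L) : Sb c b (a ⊔ a') = Sb c b a ∪ Sb c b a' := by
  ext p
  constructor
  · rintro ⟨h1, h2⟩
    rcases p.2.supPrime.2 h2 with h | h
    · left; exact ⟨h1, h⟩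
    · right; exact ⟨h1, h⟩
  · rintro (⟨h1, h2⟩ | ⟨h1, h2⟩)
    · exact ⟨h1, h2.trans le_sup_left⟩
    · exact ⟨h1, h2.trans le_sup_right⟩

theorem sb_inf (b : Bool) (a a' : L) : Sb c b (a ⊓ a') = Sb c b a ∩ Sb c b a' := by
  ext p
  constructor
  · rintro ⟨h1, h2⟩
    exact ⟨⟨h1, h2.trans inf_le_left⟩, ⟨h1, h2.trans inf_le_right⟩⟩
  · rintro ⟨⟨h1, h2⟩, ⟨_, h3⟩⟩
    exact ⟨h1, le_inf h2 h3⟩

theorem sb_ncard_sup (hc : ∀ p q, c p = c q → p ≤ q ∨ q ≤ p) (b : Bool) (a a' : L) :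
    (Sb c b (a ⊔ a')).ncard = max (Sb c b a).ncard (Sb c b a').ncard := by
  rw [sb_sup]
  rcases sb_nested hc b a a' with h | h
  · rw [Set.union_eq_right.2 h, max_eq_right ((sb_ncard_le hc b a a').2 h)]
  · rw [Set.union_eq_left.2 h, max_eq_left ((sb_ncard_le hc b a' a).2 h)]

theorem sb_ncard_inf (hc : ∀ p q, c p = c q → p ≤ q ∨ q ≤ p) (b : Bool) (a a' : L) :
    (Sb c b (a ⊓ a')).ncard = min (Sb c b a).ncard (Sb c b a').ncard := by
  rw [sb_inf]
  rcases sb_nested hc b a a' with h | h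
  · rw [Set.inter_eq_left.2 h, min_eq_left ((sb_ncard_le hc b a a').2 h)]
  · rw [Set.inter_eq_right.2 h, min_eq_right ((sb_ncard_le hc b a' a).2 h)]

theorem exists_irr {a a' : L} (h : ¬ a ≤ a') : ∃ p : L, SupIrred p ∧ p ≤ a ∧ ¬ p ≤ a' := by
  by_contra hcon
  push Not at hcon
  apply h
  obtain ⟨s, hs, hirr⟩ := exists_supIrred_decomposition a
  rw [← hs]
  refine Finset.sup_le fun p hp => ?_
  refine hcon p (hirr hp) ?_
  rw [← hs]
  exact Finset.le_sup (f := id) hp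

/-- The coordinates of an element. -/
noncomputable def phi (c : {p : L // SupIrred p} → Bool) (a : L) : ℤ × ℤ :=
  (((Sb c true a).ncard : ℤ), ((Sb c false a).ncard : ℤ))

theorem phi_le (hc : ∀ p q, c p = c q → p ≤ q ∨ q ≤ p) (a a' : L) :
    ((phi c a).1 ≤ (phi c a').1 ∧ (phi c a).2 ≤ (phi c a').2) ↔ a ≤ a' := by
  simp only [phi, Nat.cast_le, sb_ncard_le hc]
  constructor
  · rintro ⟨h1, h2⟩
    by_contra h
    obtain ⟨p, hp, hpa, hpa'⟩ := exists_irr h
    rcases hcp : c ⟨p, hp⟩ with _ | _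
    · exact hpa' (h2 (show (⟨p, hp⟩ : {p : L // SupIrred p}) ∈ Sb c false a from
        ⟨hcp, hpa⟩)).2
    · exact hpa' (h1 (show (⟨p, hp⟩ : {p : L // SupIrred p}) ∈ Sb c true a from
        ⟨hcp, hpa⟩)).2
  · intro h
    exact ⟨fun p hp => ⟨hp.1, hp.2.trans h⟩, fun p hp => ⟨hp.1, hp.2.trans h⟩⟩

theorem phi_inj (hc : ∀ p q, c p = c q → p ≤ q ∨ q ≤ p) : Function.Injective (phi c) := by
  intro a a' h
  apply le_antisymm
  · rw [← phi_le hc, h]; exact ⟨le_rfl, le_rfl⟩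
  · rw [← phi_le hc, h]; exact ⟨le_rfl, le_rfl⟩

theorem phi_sup (hc : ∀ p q, c p = c q → p ≤ q ∨ q ≤ p) (a a' : L) :
    phi c (a ⊔ a') = (max (phi c a).1 (phi c a').1, max (phi c a).2 (phi c a').2) := by
  simp only [phi, sb_ncard_sup hc, Nat.cast_max]

theorem phi_inf (hc : ∀ p q, c p = c q → p ≤ q ∨ q ≤ p) (a a' : L) :
    phi c (a ⊓ a') = (min (phi c a).1 (phi c a').1, min (phi c a).2 (phi c a').2) := by
  simp only [phi, sb_ncard_inf hc, Nat.cast_min]

/-- One can move up by a unit step. -/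
theorem phi_step (hc : ∀ p q, c p = c q → p ≤ q ∨ q ≤ p) {a a' : L} (h : a < a') :
    ∃ a'', a'' ≤ a' ∧ (phi c a'' = ((phi c a).1 + 1, (phi c a).2) ∨
      phi c a'' = ((phi c a).1, (phi c a).2 + 1)) := by
  classical
  obtain ⟨p0, hp0, h01, h02⟩ := exists_irr h.not_ge
  obtain ⟨p, hp, hmin⟩ := (Set.toFinite {p : {p : L // SupIrred p} |
    p.1 ≤ a' ∧ ¬ p.1 ≤ a}).exists_minimal ⟨⟨p0, hp0⟩, h01, h02⟩
  have hpa' := hp.1
  have hpa := hp.2
  refine ⟨a ⊔ p.1, sup_le h.le hpa', ?_⟩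
  have hS1 : Sb c (c p) (a ⊔ p.1) = insert p (Sb c (c p) a) := by
    rw [sb_sup]
    ext q
    constructor
    · rintro (hq | hq)
      · right; exact hq
      · by_cases hqa : q.1 ≤ a
        · right; exact ⟨hq.1, hqa⟩
        · left
          have h1 : p ≤ q := hmin ⟨hq.2.trans hpa', hqa⟩ hq.2
          exact le_antisymm hq.2 h1
    · rintro (rfl | hq)
      · right; exact ⟨rfl, le_rfl⟩
      · left; exact hq
  have hS2 : Sb c (!c p) (a ⊔ p.1) = Sb c (!c p) a := by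
    rw [sb_sup]
    ext q
    constructor
    · rintro (hq | hq)
      · exact hq
      · by_cases hqa : q.1 ≤ a
        · exact ⟨hq.1, hqa⟩
        · exfalso
          have h1 : p ≤ q := hmin ⟨hq.2.trans hpa', hqa⟩ hq.2
          have h2 : q = p := le_antisymm hq.2 h1
          have h3 := hq.1
          rw [h2] at h3
          cases hcp : c p <;> rw [hcp] at h3 <;> simp at h3
    · intro hq; left; exact hq
  have hN1 : (Sb c (c p) (a ⊔ p.1)).ncard = (Sb c (c p) a).ncard + 1 := by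
    rw [hS1, Set.ncard_insert_of_notMem (fun hq => hpa hq.2) (Set.toFinite _)]
  cases hcp : c p
  · rw [hcp] at hN1 hS2
    right
    simp only [phi, hN1]
    rw [Bool.not_false] at hS2
    rw [hS2]
    push_cast
    rfl
  · rw [hcp] at hN1 hS2
    left
    simp only [phi, hN1]
    rw [Bool.not_true] at hS2
    rw [hS2]
    push_cast
    rfl

theorem phi_reg (hc : ∀ p q, c p = c q → p ≤ q ∨ q ≤ p) : Reg (Set.range (phi c)) where
  fin := Set.finite_range _
  sup := by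
    rintro i j k l ⟨a, ha⟩ ⟨a', ha'⟩
    refine ⟨a ⊔ a', ?_⟩
    rw [phi_sup hc, ha, ha']
  inf := by
    rintro i j k l ⟨a, ha⟩ ⟨a', ha'⟩
    refine ⟨a ⊓ a', ?_⟩
    rw [phi_inf hc, ha, ha']
  stp := by
    rintro i j k l ⟨a, ha⟩ ⟨a', ha'⟩ h1 h2 h3
    have hlt : a < a' := by
      rw [lt_iff_le_not_ge, ← phi_le hc, ← phi_le hc, ha, ha']
      simp only
      omega
    obtain ⟨b, hb, hb'⟩ := phi_step hc hlt
    have hle := (phi_le hc b a').2 hb
    rw [ha] at hb'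
    rw [ha'] at hle
    rcases hb' with h | h
    · left
      rw [h] at hle
      exact ⟨⟨b, h⟩, hle.1⟩
    · right
      rw [h] at hle
      exact ⟨⟨b, h⟩, hle.2⟩

theorem phi_smp (hc : ∀ p q, c p = c q → p ≤ q ∨ q ≤ p)
    (hs : ∀ a : L, (∀ b, a ≤ b ∨ b ≤ a) → a = ⊥ ∨ a = ⊤) : Smp (Set.range (phi c)) := by
  rintro i j ⟨a, ha⟩ ⟨k, l, ⟨b, hb⟩, h1⟩ ⟨k', l', ⟨b', hb'⟩, h2⟩
  have hbot : ¬ a = ⊥ := by
    rintro rfl
    apply h1
    have := (phi_le hc ⊥ b).2 bot_le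
    rw [ha, hb] at this
    exact this
  have htop : ¬ a = ⊤ := by
    rintro rfl
    apply h2
    have := (phi_le hc b' ⊤).2 le_top
    rw [ha, hb'] at this
    exact this
  have h3 : ¬ ∀ b, a ≤ b ∨ b ≤ a := fun h => (hs a h).elim hbot htop
  push Not at h3
  obtain ⟨d, hd1, hd2⟩ := h3
  rw [← phi_le hc, ha] at hd1
  rw [← phi_le hc, ha] at hd2
  have hR := phi_reg hc
  have hdR : ((phi c d).1, (phi c d).2) ∈ Set.range (phi c) := ⟨d, rfl⟩
  have haR : (i, j) ∈ Set.range (phi c) := ⟨a, ha⟩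
  simp only at hd1 hd2
  by_cases h4 : (phi c d).1 < i
  · left
    exact hR.rect hdR haR (by omega) (by omega) (by omega) (by omega)
  · right
    exact hR.rect haR hdR (by omega) (by omega) (by omega) (by omega)

end coord

end Pool.Agent.J4.H7.C39
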