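import Mathlib
import Pool.Agent.J4.H7.C39.Region
import Pool.Agent.J4.H7.C39.Block

namespace Pool.Agent.J4.H7.C39

/-- Exchange of rows and columns. -/
def sw (R : Set (ℤ × ℤ)) : Set (ℤ × ℤ) := {v | (v.2, v.1) ∈ R}

/-- Order reversal. -/
def ng (R : Set (ℤ × ℤ)) : Set (ℤ × ℤ) := {v | (-v.1, -v.2) ∈ R}

section comb

variable {R : Set (ℤ × ℤ)}

theorem Reg.sw (hR : Reg R) : Reg (sw R) where
  fin := by
    have : C39.sw R = Prod.swap ⁻¹' R := rfl
    rw [this]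
    exact hR.fin.preimage Prod.swap_injective.injOn
  sup := fun i j k l h1 h2 => hR.sup _ _ _ _ h1 h2
  inf := fun i j k l h1 h2 => hR.inf _ _ _ _ h1 h2
  stp := fun i j k l h1 h2 h3 h4 h5 => (hR.stp j i l k h1 h2 h4 h3 h5.symm).symm

theorem Smp.sw (hs : Smp R) : Smp (sw R) := by
  intro i j hij ⟨k, l, h1, h2⟩ ⟨k', l', h1', h2'⟩
  exact (hs j i hij ⟨l, k, h1, fun h => h2 h.symm⟩ ⟨l', k', h1', fun h => h2' h.symm⟩).symm

theorem blk_sw {i j : ℤ} : Blk (sw R) i j ↔ Blk R j i :=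
  ⟨fun h => ⟨h.2, h.1⟩, fun h => ⟨h.2, h.1⟩⟩

theorem tp_sw {i j : ℤ} : Tp (sw R) i j ↔ Tp R j i :=
  ⟨fun h => ⟨h.1, fun k l hkl => (h.2 l k hkl).symm⟩,
    fun h => ⟨h.1, fun k l hkl => (h.2 l k hkl).symm⟩⟩

theorem bt_sw {i j : ℤ} : Bt (sw R) i j ↔ Bt R j i :=
  ⟨fun h => ⟨h.1, fun k l hkl => (h.2 l k hkl).symm⟩,
    fun h => ⟨h.1, fun k l hkl => (h.2 l k hkl).symm⟩⟩

theorem ng_injective : Function.Injective (fun v : ℤ × ℤ => ((-v.1, -v.2) : ℤ × ℤ)) := by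
  rintro ⟨a, b⟩ ⟨c, d⟩ h
  simp only [Prod.mk.injEq, neg_inj] at h
  rw [h.1, h.2]

theorem Reg.ng (hR : Reg R) : Reg (ng R) where
  fin := by
    have : C39.ng R = (fun v : ℤ × ℤ => ((-v.1, -v.2) : ℤ × ℤ)) ⁻¹' R := rfl
    rw [this]
    exact hR.fin.preimage ng_injective.injOn
  sup := fun i j k l h1 h2 => by
    have h := hR.inf _ _ _ _ h1 h2
    simp only at h
    change (-(max i k), -(max j l)) ∈ R
    have e1 : -(max i k) = min (-i) (-k) := by omega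
    have e2 : -(max j l) = min (-j) (-l) := by omega
    rw [e1, e2]; exact h
  inf := fun i j k l h1 h2 => by
    have h := hR.sup _ _ _ _ h1 h2
    simp only at h
    change (-(min i k), -(min j l)) ∈ R
    have e1 : -(min i k) = max (-i) (-k) := by omega
    have e2 : -(min j l) = max (-j) (-l) := by omega
    rw [e1, e2]; exact h
  stp := fun i j k l h1 h2 h3 h4 h5 => by
    rcases hR.step_down (i := -k) (j := -l) (k := -i) (l := -j) h2 h1 (by omega) (by omega)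
      (by omega) with h | h
    · left
      refine ⟨?_, by omega⟩
      change (-(i + 1), -j) ∈ R
      rw [show -(i + 1) = -i - 1 by ring]
      exact h.1
    · right
      refine ⟨?_, by omega⟩
      change (-i, -(j + 1)) ∈ R
      rw [show -(j + 1) = -j - 1 by ring]
      exact h.1

theorem Smp.ng (hs : Smp R) : Smp (ng R) := by
  intro i j hij ⟨k, l, h1, h2⟩ ⟨k', l', h1', h2'⟩
  have h3 := hs (-i) (-j) hij ⟨-k', -l', h1', fun h => h2' (by omega)⟩
    ⟨-k, -l, h1, fun h => h2 (by omega)⟩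
  rcases h3 with h | h
  · right
    change (-(i + 1), -(j - 1)) ∈ R
    rw [show -(i + 1) = -i - 1 by ring, show -(j - 1) = -j + 1 by ring]
    exact h
  · left
    change (-(i - 1), -(j + 1)) ∈ R
    rw [show -(i - 1) = -i + 1 by ring, show -(j + 1) = -j - 1 by ring]
    exact h

theorem blk_ng {i j : ℤ} : Blk (ng R) i j ↔ Blk R (-i) (-j) := by
  unfold Blk ng
  simp only [Set.mem_ofPred_eq]
  rw [show -(i + 1) = -i - 1 by ring, show -(j - 1) = -j + 1 by ring,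
    show -(i - 1) = -i + 1 by ring, show -(j + 1) = -j - 1 by ring]
  exact and_comm

theorem tp_ng {i j : ℤ} : Tp (ng R) i j ↔ Bt R (-i) (-j) := by
  constructor
  · rintro ⟨h1, h2⟩
    refine ⟨h1, fun k l hkl => ?_⟩
    have := h2 (-k) (-l) (by change (- -k, - -l) ∈ R; rwa [neg_neg, neg_neg])
    omega
  · rintro ⟨h1, h2⟩
    refine ⟨h1, fun k l hkl => ?_⟩
    have := h2 (-k) (-l) hkl
    omega

theorem bt_ng {i j : ℤ} : Bt (ng R) i j ↔ Tp R (-i) (-j) := by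
  constructor
  · rintro ⟨h1, h2⟩
    refine ⟨h1, fun k l hkl => ?_⟩
    have := h2 (-k) (-l) (by change (- -k, - -l) ∈ R; rwa [neg_neg, neg_neg])
    omega
  · rintro ⟨h1, h2⟩
    refine ⟨h1, fun k l hkl => ?_⟩
    have := h2 (-k) (-l) hkl
    omega

theorem ng_ng : ng (ng R) = R := by
  ext ⟨i, j⟩
  simp [ng]

theorem ncard_ng : (ng R).ncard = R.ncard := by
  have : R = (fun v : ℤ × ℤ => ((-v.1, -v.2) : ℤ × ℤ)) '' ng R := by
    ext ⟨i, j⟩
    constructor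
    · intro h
      exact ⟨(-i, -j), by simpa [ng] using h, by simp⟩
    · rintro ⟨⟨k, l⟩, h, h'⟩
      simp only [Prod.mk.injEq] at h'
      rw [← h'.1, ← h'.2]
      exact h
  conv_rhs => rw [this]
  rw [Set.ncard_image_of_injective _ ng_injective]

theorem ncard_sw : (sw R).ncard = R.ncard := by
  have : R = Prod.swap '' sw R := by
    ext ⟨i, j⟩
    constructor
    · intro h
      exact ⟨(j, i), h, rfl⟩
    · rintro ⟨⟨k, l⟩, h, h'⟩
      simp only [Prod.swap_prod_mk, Prod.mk.injEq] at h'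
      rw [← h'.1, ← h'.2]
      exact h
  conv_rhs => rw [this]
  rw [Set.ncard_image_of_injective _ Prod.swap_injective]

/-- Reversal on minors. -/
def ne : ((ℤ × ℤ) × (ℤ × ℤ)) ≃ ((ℤ × ℤ) × (ℤ × ℤ)) where
  toFun q := ((-q.1.2, -q.1.1), (-q.2.2, -q.2.1))
  invFun q := ((-q.1.2, -q.1.1), (-q.2.2, -q.2.1))
  left_inv q := by simp
  right_inv q := by simp

theorem Ys_sw : Ys (sw R) = (Equiv.prodComm (ℤ × ℤ) (ℤ × ℤ)) ⁻¹' (Ys R) := by
  ext ⟨⟨i, i'⟩, ⟨j, j'⟩⟩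
  constructor
  · rintro ⟨h1, h2, h3, h4⟩
    exact ⟨h2, h1, h4, h3⟩
  · rintro ⟨h1, h2, h3, h4⟩
    exact ⟨h2, h1, h4, h3⟩

theorem Ys_ng : Ys (ng R) = ne ⁻¹' (Ys R) := by
  ext ⟨⟨i, i'⟩, ⟨j, j'⟩⟩
  constructor
  · rintro ⟨h1, h2, h3, h4⟩
    exact ⟨neg_lt_neg h1, neg_lt_neg h2, h4, h3⟩
  · rintro ⟨h1, h2, h3, h4⟩
    exact ⟨neg_lt_neg_iff.1 h1, neg_lt_neg_iff.1 h2, h4, h3⟩

/-- Minors of the block containing its top. -/
def U4 (c c' : ℤ) : Set ((ℤ × ℤ) × (ℤ × ℤ)) :=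
  {q | q.1.2 = c + 1 ∧ q.2.2 = c' + 1 ∧ (q.1.1 = c - 1 ∨ q.1.1 = c) ∧
    (q.2.1 = c' - 1 ∨ q.2.1 = c')}

/-- Minors of the block containing its bottom. -/
def D4 (c c' : ℤ) : Set ((ℤ × ℤ) × (ℤ × ℤ)) :=
  {q | q.1.1 = c - 1 ∧ q.2.1 = c' - 1 ∧ (q.1.2 = c ∨ q.1.2 = c + 1) ∧
    (q.2.2 = c' ∨ q.2.2 = c' + 1)}

theorem N9_sub (hR : Reg R) {c c' : ℤ} (hB : Blk R c c') : N9 c c' ⊆ Ys R := by
  rintro ⟨⟨i, i'⟩, ⟨j, j'⟩⟩ ⟨h1, h2, h3, h4, h5, h6⟩
  simp only at h1 h2 h3 h4 h5 h6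
  exact ⟨h2, h5, hR.rect hB.1 hB.2 (p := i) (q := j') (by omega) (by omega) (by omega)
    (by omega), hR.rect hB.1 hB.2 (p := i') (q := j) (by omega) (by omega) (by omega) (by omega)⟩

theorem U4_sub {c c' : ℤ} : U4 c c' ⊆ N9 c c' := by
  rintro ⟨⟨i, i'⟩, ⟨j, j'⟩⟩ ⟨h1, h2, h3, h4⟩
  simp only at h1 h2 h3 h4
  simp only [N9, Set.mem_ofPred_eq]
  omega

theorem D4_sub {c c' : ℤ} : D4 c c' ⊆ N9 c c' := by
  rintro ⟨⟨i, i'⟩, ⟨j, j'⟩⟩ ⟨h1, h2, h3, h4⟩
  simp only at h1 h2 h3 h4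
  simp only [N9, Set.mem_ofPred_eq]
  omega

end comb

section Main

variable {K F : Type*} [Field K] [Field F] [Algebra K F]

theorem hpeel {x : ℤ × ℤ → F} (hx : AlgebraicIndependent K x) {R : Set (ℤ × ℤ)} (hR : Reg R)
    {m n a w : ℤ} (ht : Tp R m n) (hp : Peel R m n a w)
    (Sb : Set ((ℤ × ℤ) × (ℤ × ℤ))) (hSb : Sb ⊆ Ys (cut R w)) (hSb' : ∀ q ∈ Sb, q.2.1 ≠ n - 1)
    (hG : Gd K x (Ys (cut R w) \ (Sb ∪ St a (a + 1) w n)) (Sb ∪ St a (a + 1) w n)) :
    Gd K x (Ys R \ Sb) Sb := by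
  have hwa := hp.wa
  have hwm := hp.hwm
  have hcR := cut_reg hR w
  have hSt0 : St a (a + 1) w n ⊆ Ys (cut R w) := by
    rintro ⟨⟨i, i'⟩, jj⟩ ⟨h1, h2, h3, h4, h5⟩
    simp only at h1 h2 h3 h4 h5
    subst h1
    refine ⟨h3, by simp, ⟨hp.grid i n h2 (by omega) (by omega) le_rfl, ?_⟩,
      ⟨hp.grid i' (n - 1) (by omega) (by omega) (by omega) (by omega), ?_⟩⟩
    · simp only; omega
    · simp only; omega
  have hd1 : Disjoint Sb (St a (a + 1) w n) := by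
    rw [Set.disjoint_left]
    intro q hq hq'
    apply hSb' q hq
    rw [hq'.1]
  have ht0 : ((a, a + 1), (n - 1, n)) ∈ Ys (cut R w) \ (Sb ∪ St a (a + 1) w n) := by
    refine ⟨⟨by simp, by simp, ⟨hp.grid a n (by omega) (by omega) (by omega) le_rfl, ?_⟩,
      ⟨hp.grid (a + 1) (n - 1) (by omega) (by omega) (by omega) (by omega), ?_⟩⟩, ?_⟩
    · simp only; omega
    · simp only; omega
    · rintro (h | h)
      · exact hSb' _ h rfl
      · have := h.2.2.2.1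
        simp at this
  have h := step hx (cut R w) a w m n (by omega) hwm.le
    ⟨hp.grid a (n - 1) (by omega) (by omega) (by omega) (by omega), by simp only; omega⟩
    ⟨hp.grid a n (by omega) (by omega) (by omega) (by omega), by simp only; omega⟩
    ⟨hp.grid (a + 1) (n - 1) (by omega) (by omega) (by omega) (by omega), by simp only; omega⟩
    ⟨hp.grid (a + 1) n (by omega) (by omega) (by omega) (by omega), by simp only; omega⟩
    (fun c hc _ => ⟨fun h => by have := h.2; simp only at this; omega,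
      fun h => by have := h.2; simp only at this; omega⟩)
    (Ys (cut R w) \ (Sb ∪ St a (a + 1) w n)) Sb hG hd1
    (by
      rw [Set.disjoint_left]
      intro q hq hq'
      exact hq.2 (Or.inr hq'))
    ht0
    (by
      intro q hq
      have hq' : q ∈ Ys (cut R w) := by
        rcases hq with hq | hq | hq
        · exact hq.1
        · exact hSb hq
        · exact hSt0 hq
      exact hcR.corners hq')
  have hset : (Ys (cut R w) \ (Sb ∪ St a (a + 1) w n)) ∪ St a (a + 1) m n = Ys R \ Sb := by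
    rw [Ys_cut hR ht hp]
    ext q
    constructor
    · rintro (⟨h1, h2⟩ | h1)
      · exact ⟨Or.inl h1, fun h => h2 (Or.inl h)⟩
      · refine ⟨?_, fun h => hSb' q h (by rw [h1.1])⟩
        by_cases h3 : q.1.2 ≤ w
        · left; exact hSt0 ⟨h1.1, h1.2.1, h1.2.2.1, h1.2.2.2.1, h3⟩
        · right; exact ⟨h1.1, h1.2.1, h1.2.2.1, by omega, h1.2.2.2.2⟩
    · rintro ⟨h1 | h1, h2⟩
      · by_cases h3 : q ∈ St a (a + 1) w n
        · right
          exact ⟨h3.1, h3.2.1, h3.2.2.1, h3.2.2.2.1, by have := h3.2.2.2.2; omega⟩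
        · left
          exact ⟨h1, fun h => h.elim h2 h3⟩
      · right
        exact ⟨h1.1, h1.2.1, h1.2.2.1, by have := h1.2.2.2.1; omega, h1.2.2.2.2⟩
  rw [hset] at h
  exact h

theorem fm_sw (x : ℤ × ℤ → F) (q : (ℤ × ℤ) × (ℤ × ℤ)) :
    fm x (Equiv.prodComm _ _ q) = fm (fun v => x (v.2, v.1)) q := by
  simp only [fm, Equiv.prodComm_apply, Prod.fst_swap, Prod.snd_swap]
  ring

theorem fm_ne (x : ℤ × ℤ → F) (q : (ℤ × ℤ) × (ℤ × ℤ)) :
    fm x (ne q) = fm (fun v => x (-v.1, -v.2)) q := by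
  simp only [fm, ne, Equiv.coe_fn_mk]
  ring

theorem ind_sw {x : ℤ × ℤ → F} (hx : AlgebraicIndependent K x) :
    AlgebraicIndependent K (fun v : ℤ × ℤ => x (v.2, v.1)) :=
  hx.comp Prod.swap Prod.swap_injective

theorem ind_ng {x : ℤ × ℤ → F} (hx : AlgebraicIndependent K x) :
    AlgebraicIndependent K (fun v : ℤ × ℤ => x (-v.1, -v.2)) :=
  hx.comp _ ng_injective

/-- The statement proved by induction for regions with a block. -/
def Claim (K F : Type*) [Field K] [Field F] [Algebra K F] (N : ℕ) : Prop :=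
  ∀ (x : ℤ × ℤ → F), AlgebraicIndependent K x → ∀ (R : Set (ℤ × ℤ)) (c c' : ℤ),
    R.ncard = N → Reg R → Smp R →
    (∀ i j k l, Blk R i j → Blk R k l → i = k ∧ j = l) → Blk R c c' →
    ∀ St Sb : Set ((ℤ × ℤ) × (ℤ × ℤ)), St ⊆ U4 c c' → Sb ⊆ D4 c c' →
    (St = ∅ ∨ Tp R (c + 1) (c' + 1)) → (Sb = ∅ ∨ Bt R (c - 1) (c' - 1)) →
    Gd K x (Ys R \ (St ∪ Sb)) (St ∪ Sb)

/-- Horizontal peeling above a block. -/
theorem case_h (N : ℕ) (ih : ∀ N' < N, Claim K F N') (x : ℤ × ℤ → F)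
    (hx : AlgebraicIndependent K x) (R : Set (ℤ × ℤ)) (c c' : ℤ)
    (hN : R.ncard = N) (hR : Reg R) (hs : Smp R)
    (hb : ∀ i j k l, Blk R i j → Blk R k l → i = k ∧ j = l) (hB : Blk R c c')
    (Sb : Set ((ℤ × ℤ) × (ℤ × ℤ))) (hSb : Sb ⊆ D4 c c')
    (hSb' : Sb = ∅ ∨ Bt R (c - 1) (c' - 1)) {m n : ℤ} (ht : Tp R m n)
    (h1 : (m - 2, n) ∈ R) (h2 : (m, n - 2) ∉ R) : Gd K x (Ys R \ Sb) Sb := by
  obtain ⟨a, w, hp⟩ := exists_peel hR hs hb ht h1 h2
  have hlt := cut_card hR ht hp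
  have hcn : c' + 1 ≤ n := (ht.2 _ _ hB.1).2
  have hBc : Blk (cut R w) c c' := (cut_blk ht hp c c').2 hB
  have hSbY : Sb ⊆ Ys (cut R w) :=
    (hSb.trans D4_sub).trans (N9_sub (cut_reg hR w) hBc)
  refine hpeel hx hR ht hp Sb hSbY (fun q hq => ?_) ?_
  · have := (hSb hq).2.1
    omega
  · rw [Set.union_comm Sb]
    refine ih _ (by rw [← hN]; exact hlt) x hx (cut R w) c c' rfl (cut_reg hR w)
      (cut_smp hs ht hp) (fun i j k l h3 h4 => hb i j k l ((cut_blk ht hp i j).1 h3)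
        ((cut_blk ht hp k l).1 h4)) hBc _ _ ?_ hSb ?_ (hSb'.imp_right (cut_bot hp))
    · rintro ⟨⟨i, i'⟩, jj⟩ ⟨g1, g2, g3, g4, g5⟩
      simp only at g1 g2 g3 g4 g5
      subst g1
      rcases hp.hw with h | ⟨h, h'⟩
      · omega
      · have h3 := hb _ _ _ _ hB h'
        simp only [U4, Set.mem_ofPred_eq]
        omega
    · rcases hp.hw with h | ⟨h, h'⟩
      · left
        ext q
        simp only [St, Set.mem_ofPred_eq, Set.mem_empty_iff_false, iff_false]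
        omega
      · right
        have h3 := hb _ _ _ _ hB h'
        have h4 := cut_top ht hp
        rw [h3.1, h3.2]
        have e1 : a + 1 + 1 = w := by omega
        have e2 : n - 1 + 1 = n := by omega
        rw [e1, e2]
        exact h4

/-- Peeling above a block. -/
theorem case_top (N : ℕ) (ih : ∀ N' < N, Claim K F N') (x : ℤ × ℤ → F)
    (hx : AlgebraicIndependent K x) (R : Set (ℤ × ℤ)) (c c' : ℤ)
    (hN : R.ncard = N) (hR : Reg R) (hs : Smp R)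
    (hb : ∀ i j k l, Blk R i j → Blk R k l → i = k ∧ j = l) (hB : Blk R c c')
    (Sb : Set ((ℤ × ℤ) × (ℤ × ℤ))) (hSb : Sb ⊆ D4 c c')
    (hSb' : Sb = ∅ ∨ Bt R (c - 1) (c' - 1)) (hnt : ¬ Tp R (c + 1) (c' + 1)) :
    Gd K x (Ys R \ Sb) Sb := by
  obtain ⟨m, n, ht⟩ := hR.exists_top ⟨_, hB.1⟩
  have hc0 : (c, c') ∈ R := hR.rect hB.1 hB.2 (by omega) (by omega) (by omega) (by omega)
  have hcm : (c - 1, c' - 1) ∈ R :=
    hR.rect hB.1 hB.2 (by omega) (by omega) (by omega) (by omega)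
  have g1 := ht.2 _ _ hB.1
  have g2 := ht.2 _ _ hB.2
  have hco := coatoms hR hs ht hcm hc0 (by simp only [ne_eq, Prod.mk.injEq]; omega)
    (by simp only [ne_eq, Prod.mk.injEq]; omega) (by simp only [ne_eq, Prod.mk.injEq]; omega)
  have hd : (m - 1, n - 1) ∈ R := hR.rect hco.1 hco.2 le_rfl (by omega) le_rfl (by omega)
  have hd2 := hs _ _ hd ⟨c - 1, c' - 1, hcm, by omega⟩ ⟨m, n, ht.1, by omega⟩
  rw [sub_add_cancel, sub_add_cancel] at hd2
  have hnot : ¬ ((m - 1 - 1, n) ∈ R ∧ (m, n - 1 - 1) ∈ R) := by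
    rintro ⟨h1, h2⟩
    have h3 : Blk R (m - 1) (n - 1) := by
      refine ⟨?_, ?_⟩
      · rw [sub_add_cancel]; exact h1
      · rw [sub_add_cancel]; exact h2
    have h4 := hb _ _ _ _ hB h3
    apply hnt
    rw [h4.1, h4.2, sub_add_cancel, sub_add_cancel]
    exact ht
  have e1 : m - 1 - 1 = m - 2 := by ring
  have e2 : n - 1 - 1 = n - 2 := by ring
  rw [e1, e2] at hnot hd2
  rcases hd2 with hd3 | hd3
  · exact case_h N ih x hx R c c' hN hR hs hb hB Sb hSb hSb' ht hd3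
      (fun h => hnot ⟨hd3, h⟩)
  · have h5 : (m - 2, n) ∉ R := fun h => hnot ⟨h, hd3⟩
    apply Gd.transport (Equiv.prodComm _ _) (fm_sw x)
    rw [Set.preimage_sdiff, ← Ys_sw]
    refine case_h N ih _ (ind_sw hx) (sw R) c' c (by rw [ncard_sw, hN]) hR.sw hs.sw
      (fun i j k l h6 h7 => (hb j i l k (blk_sw.1 h6) (blk_sw.1 h7)).symm) (blk_sw.2 hB) _ ?_ ?_
      (tp_sw.2 ht) hd3 h5
    · rintro ⟨⟨i, i'⟩, ⟨j, j'⟩⟩ hq
      have h6 := hSb hq
      exact ⟨h6.2.1, h6.1, h6.2.2.2, h6.2.2.1⟩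
    · rcases hSb' with h6 | h6
      · left; rw [h6]; rfl
      · right; exact bt_sw.2 h6

theorem claim (N : ℕ) : Claim K F N := by
  induction N using Nat.strong_induction_on with
  | _ N ih =>
  intro x hx R c c' hN hR hs hb hB St Sb hSt hSb hSt' hSb'
  by_cases hT : Tp R (c + 1) (c' + 1)
  · by_cases hBt : Bt R (c - 1) (c' - 1)
    · -- the region is the block
      have hY : Ys R = N9 c c' := by
        apply Set.Subset.antisymm _ (N9_sub hR hB)
        rintro ⟨⟨i, i'⟩, ⟨j, j'⟩⟩ ⟨h1, h2, h3, h4⟩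
        simp only at h1 h2 h3 h4
        have g1 := hT.2 _ _ h3
        have g2 := hT.2 _ _ h4
        have g3 := hBt.2 _ _ h3
        have g4 := hBt.2 _ _ h4
        simp only [N9, Set.mem_ofPred_eq]
        omega
      rw [hY]
      exact block_gd hx c c' _ (Set.union_subset (hSt.trans U4_sub) (hSb.trans D4_sub))
    · have hSb0 : Sb = ∅ := hSb'.resolve_right hBt
      subst hSb0
      rw [Set.union_empty]
      apply Gd.transport ne (fm_ne x)
      rw [Set.preimage_sdiff, ← Ys_ng]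
      refine case_top N ih _ (ind_ng hx) (ng R) (-c) (-c') (by rw [ncard_ng, hN]) hR.ng hs.ng
        ?_ ?_ _ ?_ ?_ ?_
      · intro i j k l h6 h7
        have := hb _ _ _ _ (blk_ng.1 h6) (blk_ng.1 h7)
        omega
      · rw [blk_ng, neg_neg, neg_neg]; exact hB
      · rintro ⟨⟨i, i'⟩, ⟨j, j'⟩⟩ hq
        have h6 := hSt hq
        simp only [U4, ne, Equiv.coe_fn_mk, Set.mem_ofPred_eq] at h6
        simp only [D4, Set.mem_ofPred_eq]
        omega
      · rcases hSt' with h6 | h6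
        · left; rw [h6]; rfl
        · right
          rw [bt_ng]
          have e1 : -(-c - 1) = c + 1 := by ring
          have e2 : -(-c' - 1) = c' + 1 := by ring
          rw [e1, e2]
          exact h6
      · rw [tp_ng]
        have e1 : -(-c + 1) = c - 1 := by ring
        have e2 : -(-c' + 1) = c' - 1 := by ring
        rw [e1, e2]
        exact hBt
  · have hSt0 : St = ∅ := hSt'.resolve_right hT
    subst hSt0
    rw [Set.empty_union]
    exact case_top N ih x hx R c c' hN hR hs hb hB Sb hSb hSb' hT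

end Main

end Pool.Agent.J4.H7.C39
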