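import Mathlib
import Pool.Agent.J4.H7.C39.Forward

namespace Pool.Agent.J4.H7.C39

section Main

variable {K F : Type*} [Field K] [Field F] [Algebra K F]

theorem gd_sub_N9 {x : ℤ × ℤ → F} (hx : AlgebraicIndependent K x) (c c' : ℤ)
    (s : Set ((ℤ × ℤ) × (ℤ × ℤ))) (hs : s ⊆ N9 c c') : Gd K x s ∅ := by
  apply gd_of_ind _ (Set.disjoint_empty _)
  rw [Set.union_empty]
  exact (N9_ind hx c c').comp (Set.inclusion hs) (Set.inclusion_injective hs)

/-- The statement proved by induction for regions without a block. -/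
def Claim0 (K F : Type*) [Field K] [Field F] [Algebra K F] (N : ℕ) : Prop :=
  ∀ (x : ℤ × ℤ → F), AlgebraicIndependent K x → ∀ (R : Set (ℤ × ℤ)),
    R.ncard = N → Reg R → Smp R → (∀ i j, ¬ Blk R i j) → Gd K x (Ys R) ∅

theorem case_h0 (N : ℕ) (ih : ∀ N' < N, Claim0 K F N') (x : ℤ × ℤ → F)
    (hx : AlgebraicIndependent K x) (R : Set (ℤ × ℤ))
    (hN : R.ncard = N) (hR : Reg R) (hs : Smp R)
    (hb : ∀ i j, ¬ Blk R i j) {m n : ℤ} (ht : Tp R m n)
    (h1 : (m - 2, n) ∈ R) (h2 : (m, n - 2) ∉ R) : Gd K x (Ys R) ∅ := by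
  obtain ⟨a, w, hp⟩ := exists_peel hR hs (fun i j k l h _ => absurd h (hb i j)) ht h1 h2
  have hlt := cut_card hR ht hp
  have hw : w = a + 1 := by
    rcases hp.hw with h | ⟨_, h⟩
    · exact h
    · exact absurd h (hb _ _)
  have hSt : St a (a + 1) w n = ∅ := by
    ext q
    simp only [St, Set.mem_ofPred_eq, Set.mem_empty_iff_false, iff_false]
    omega
  have h := hpeel hx hR ht hp ∅ (Set.empty_subset _) (fun q hq => absurd hq (Set.notMem_empty q))
    (by
      rw [hSt, Set.union_empty, Set.sdiff_empty]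
      exact ih _ (by rw [← hN]; exact hlt) x hx (cut R w) rfl (cut_reg hR w)
        (cut_smp hs ht hp) (fun i j h => hb i j ((cut_blk ht hp i j).1 h)))
  rwa [Set.sdiff_empty] at h

theorem claim0 (N : ℕ) : Claim0 K F N := by
  induction N using Nat.strong_induction_on with
  | _ N ih =>
  intro x hx R hN hR hs hb
  by_cases hY : Ys R = ∅
  · rw [hY]
    exact gd_sub_N9 hx 0 0 ∅ (Set.empty_subset _)
  · obtain ⟨⟨⟨i, i'⟩, ⟨j, j'⟩⟩, hi, hj, hq1, hq2⟩ := Set.nonempty_iff_ne_empty.2 hY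
    simp only at hi hj hq1 hq2
    obtain ⟨m, n, ht⟩ := hR.exists_top ⟨_, hq1⟩
    have g1 := ht.2 _ _ hq1
    have g2 := ht.2 _ _ hq2
    have hco := coatoms hR hs ht hq1 hq2 (by simp only [ne_eq, Prod.mk.injEq]; omega)
      (by simp only [ne_eq, Prod.mk.injEq]; omega) (by simp only [ne_eq, Prod.mk.injEq]; omega)
    have hd : (m - 1, n - 1) ∈ R := hR.rect hco.1 hco.2 le_rfl (by omega) le_rfl (by omega)
    by_cases hbot : ∀ k l, (k, l) ∈ R → m - 1 ≤ k ∧ n - 1 ≤ l
    · refine gd_sub_N9 hx m n _ ?_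
      rintro ⟨⟨k, k'⟩, ⟨l, l'⟩⟩ ⟨h1, h2, h3, h4⟩
      simp only at h1 h2 h3 h4
      have := hbot _ _ h3
      have := hbot _ _ h4
      have := ht.2 _ _ h3
      have := ht.2 _ _ h4
      simp only [N9, Set.mem_ofPred_eq]
      omega
    · push Not at hbot
      obtain ⟨k, l, hkl, hkl2⟩ := hbot
      have hd2 := hs _ _ hd ⟨k, l, hkl, by omega⟩ ⟨m, n, ht.1, by omega⟩
      rw [sub_add_cancel, sub_add_cancel] at hd2
      have hnot : ¬ ((m - 1 - 1, n) ∈ R ∧ (m, n - 1 - 1) ∈ R) := by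
        rintro ⟨h1, h2⟩
        apply hb (m - 1) (n - 1)
        refine ⟨?_, ?_⟩
        · rw [sub_add_cancel]; exact h1
        · rw [sub_add_cancel]; exact h2
      have e1 : m - 1 - 1 = m - 2 := by ring
      have e2 : n - 1 - 1 = n - 2 := by ring
      rw [e1, e2] at hnot hd2
      rcases hd2 with hd3 | hd3
      · exact case_h0 N ih x hx R hN hR hs hb ht hd3 (fun h => hnot ⟨hd3, h⟩)
      · have h5 : (m - 2, n) ∉ R := fun h => hnot ⟨h, hd3⟩
        apply Gd.transport (Equiv.prodComm _ _) (fm_sw x)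
        rw [← Ys_sw]
        exact case_h0 N ih _ (ind_sw hx) (sw R) (by rw [ncard_sw, hN]) hR.sw hs.sw
          (fun i j h => hb _ _ (blk_sw.1 h)) (tp_sw.2 ht) hd3 h5

/-- Regions with at most one block have relation ideal generated by quadrics. -/
theorem forward {x : ℤ × ℤ → F} (hx : AlgebraicIndependent K x) (R : Set (ℤ × ℤ))
    (hR : Reg R) (hs : Smp R)
    (hb : ∀ i j k l, Blk R i j → Blk R k l → i = k ∧ j = l) :
    Quad K (fun q : Ys R => fm x q) := by
  by_cases h : ∃ i j, Blk R i j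
  · obtain ⟨c, c', hB⟩ := h
    have h1 := claim (K := K) (F := F) R.ncard x hx R c c' rfl hR hs hb hB ∅ ∅
      (Set.empty_subset _) (Set.empty_subset _) (Or.inl rfl) (Or.inl rfl)
    rw [Set.union_empty, Set.sdiff_empty] at h1
    exact h1.1
  · push Not at h
    exact (claim0 (K := K) (F := F) R.ncard x hx R rfl hR hs h).1

end Main

end Pool.Agent.J4.H7.C39
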