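import Mathlib
import Pool.Agent.J4.H7.C39.Alg

namespace Pool.Agent.J4.H7.C39

open MvPolynomial

/-- The bounding box of two points, as a minor. -/
def box (P Q : ℤ × ℤ) : (ℤ × ℤ) × (ℤ × ℤ) :=
  ((min P.1 Q.1, max P.1 Q.1), (min P.2 Q.2, max P.2 Q.2))

theorem box_comm (P Q : ℤ × ℤ) : box P Q = box Q P := by
  unfold box
  rw [min_comm P.1, max_comm P.1, min_comm P.2, max_comm P.2]

/-- The polynomial of a minor. -/
noncomputable def Fp (K : Type*) [Field K] (q : (ℤ × ℤ) × (ℤ × ℤ)) : MvPolynomial (ℤ × ℤ) K :=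
  X (q.1.1, q.2.2) * X (q.1.2, q.2.1) - X (q.1.2, q.2.2) * X (q.1.1, q.2.1)

/-- Sum of two point masses. -/
noncomputable def m2 (P Q : ℤ × ℤ) : (ℤ × ℤ) →₀ ℕ := Finsupp.single P 1 + Finsupp.single Q 1

theorem c2 {P1 P2 z1 z2 : ℤ × ℤ} (h : m2 P1 P2 = m2 z1 z2) :
    (P1 = z1 ∧ P2 = z2) ∨ (P1 = z2 ∧ P2 = z1) := by
  classical
  unfold m2 at h
  have h1 : P1 = z1 ∨ P1 = z2 := by
    by_contra hcon
    push Not at hcon
    have := DFunLike.congr_fun h P1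
    simp only [Finsupp.add_apply, Finsupp.single_eq_same, Finsupp.single_eq_of_ne hcon.1,
      Finsupp.single_eq_of_ne hcon.2] at this
    omega
  rcases h1 with rfl | rfl
  · left
    have h2 := add_left_cancel h
    exact ⟨rfl, Finsupp.single_left_injective one_ne_zero h2⟩
  · right
    rw [add_comm (Finsupp.single z1 1)] at h
    have h2 := add_left_cancel h
    exact ⟨rfl, Finsupp.single_left_injective one_ne_zero h2⟩

theorem c3 {P1 P2 P3 z1 z2 z3 : ℤ × ℤ}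
    (h : Finsupp.single P1 1 + m2 P2 P3 = Finsupp.single z1 1 + m2 z2 z3) :
    (P1 = z1 ∧ m2 P2 P3 = m2 z2 z3) ∨ (P1 = z2 ∧ m2 P2 P3 = m2 z1 z3) ∨
      (P1 = z3 ∧ m2 P2 P3 = m2 z1 z2) := by
  classical
  have h1 : P1 = z1 ∨ P1 = z2 ∨ P1 = z3 := by
    by_contra hcon
    push Not at hcon
    have := DFunLike.congr_fun h P1
    simp only [m2, Finsupp.add_apply, Finsupp.single_eq_same, Finsupp.single_eq_of_ne hcon.1,
      Finsupp.single_eq_of_ne hcon.2.1, Finsupp.single_eq_of_ne hcon.2.2] at this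
    omega
  rcases h1 with rfl | rfl | rfl
  · left; exact ⟨rfl, add_left_cancel h⟩
  · right; left
    refine ⟨rfl, ?_⟩
    have : Finsupp.single z1 1 + m2 P1 z3 = Finsupp.single P1 1 + m2 z1 z3 := by
      unfold m2; abel
    rw [this] at h
    exact add_left_cancel h
  · right; right
    refine ⟨rfl, ?_⟩
    have : Finsupp.single z1 1 + m2 z2 P1 = Finsupp.single P1 1 + m2 z1 z2 := by
      unfold m2; abel
    rw [this] at h
    exact add_left_cancel h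

theorem c4 {P1 P2 P3 P4 z1 z2 z3 z4 : ℤ × ℤ} (h : m2 P1 P2 + m2 P3 P4 = m2 z1 z2 + m2 z3 z4) :
    (P1 = z1 ∧ Finsupp.single P2 1 + m2 P3 P4 = Finsupp.single z2 1 + m2 z3 z4) ∨
    (P1 = z2 ∧ Finsupp.single P2 1 + m2 P3 P4 = Finsupp.single z1 1 + m2 z3 z4) ∨
    (P1 = z3 ∧ Finsupp.single P2 1 + m2 P3 P4 = Finsupp.single z4 1 + m2 z1 z2) ∨
    (P1 = z4 ∧ Finsupp.single P2 1 + m2 P3 P4 = Finsupp.single z3 1 + m2 z1 z2) := by
  classical
  have h1 : P1 = z1 ∨ P1 = z2 ∨ P1 = z3 ∨ P1 = z4 := by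
    by_contra hcon
    push Not at hcon
    have := DFunLike.congr_fun h P1
    simp only [m2, Finsupp.add_apply, Finsupp.single_eq_same, Finsupp.single_eq_of_ne hcon.1,
      Finsupp.single_eq_of_ne hcon.2.1, Finsupp.single_eq_of_ne hcon.2.2.1,
      Finsupp.single_eq_of_ne hcon.2.2.2] at this
    omega
  have e0 : m2 P1 P2 + m2 P3 P4 =
      Finsupp.single P1 1 + (Finsupp.single P2 1 + m2 P3 P4) := by
    unfold m2; abel
  rw [e0] at h
  rcases h1 with rfl | rfl | rfl | rfl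
  · left
    refine ⟨rfl, ?_⟩
    have : m2 P1 z2 + m2 z3 z4 = Finsupp.single P1 1 + (Finsupp.single z2 1 + m2 z3 z4) := by
      unfold m2; abel
    rw [this] at h
    exact add_left_cancel h
  · right; left
    refine ⟨rfl, ?_⟩
    have : m2 z1 P1 + m2 z3 z4 = Finsupp.single P1 1 + (Finsupp.single z1 1 + m2 z3 z4) := by
      unfold m2; abel
    rw [this] at h
    exact add_left_cancel h
  · right; right; left
    refine ⟨rfl, ?_⟩
    have : m2 z1 z2 + m2 P1 z4 = Finsupp.single P1 1 + (Finsupp.single z4 1 + m2 z1 z2) := by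
      unfold m2; abel
    rw [this] at h
    exact add_left_cancel h
  · right; right; right
    refine ⟨rfl, ?_⟩
    have : m2 z1 z2 + m2 z3 P1 = Finsupp.single P1 1 + (Finsupp.single z3 1 + m2 z1 z2) := by
      unfold m2; abel
    rw [this] at h
    exact add_left_cancel h

theorem m2_box {P1 P2 z1 z2 : ℤ × ℤ} (h : m2 P1 P2 = m2 z1 z2) : box P1 P2 = box z1 z2 := by
  rcases c2 h with ⟨rfl, rfl⟩ | ⟨rfl, rfl⟩
  · rfl
  · exact box_comm _ _

/-- The ways of splitting a multiset of four points into two pairs. -/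
theorem sp {P1 P2 P3 P4 z1 z2 z3 z4 : ℤ × ℤ} (h : m2 P1 P2 + m2 P3 P4 = m2 z1 z2 + m2 z3 z4) :
    (box P1 P2 = box z1 z2 ∧ box P3 P4 = box z3 z4) ∨
    (box P1 P2 = box z3 z4 ∧ box P3 P4 = box z1 z2) ∨
    (box P1 P2 = box z1 z3 ∧ box P3 P4 = box z2 z4) ∨
    (box P1 P2 = box z2 z4 ∧ box P3 P4 = box z1 z3) ∨
    (box P1 P2 = box z1 z4 ∧ box P3 P4 = box z2 z3) ∨
    (box P1 P2 = box z2 z3 ∧ box P3 P4 = box z1 z4) := by
  rcases c4 h with ⟨rfl, h1⟩ | ⟨rfl, h1⟩ | ⟨rfl, h1⟩ | ⟨rfl, h1⟩ <;>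
  rcases c3 h1 with ⟨rfl, h2⟩ | ⟨rfl, h2⟩ | ⟨rfl, h2⟩ <;>
  have h3 := m2_box h2
  · exact Or.inl ⟨rfl, h3⟩
  · exact Or.inr (Or.inr (Or.inl ⟨rfl, h3⟩))
  · exact Or.inr (Or.inr (Or.inr (Or.inr (Or.inl ⟨rfl, h3⟩))))
  · exact Or.inl ⟨box_comm _ _, h3⟩
  · exact Or.inr (Or.inr (Or.inr (Or.inr (Or.inr ⟨rfl, h3⟩))))
  · exact Or.inr (Or.inr (Or.inr (Or.inl ⟨rfl, h3⟩)))
  · exact Or.inr (Or.inl ⟨rfl, h3⟩)
  · refine Or.inr (Or.inr (Or.inl ⟨box_comm _ _, ?_⟩))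
    rw [h3, box_comm]
  · refine Or.inr (Or.inr (Or.inr (Or.inr (Or.inr ⟨box_comm _ _, ?_⟩))))
    rw [h3, box_comm]
  · exact Or.inr (Or.inl ⟨box_comm _ _, h3⟩)
  · refine Or.inr (Or.inr (Or.inr (Or.inr (Or.inl ⟨box_comm _ _, ?_⟩))))
    rw [h3, box_comm]
  · refine Or.inr (Or.inr (Or.inr (Or.inl ⟨box_comm _ _, ?_⟩)))
    rw [h3, box_comm]

theorem XX {K : Type*} [Field K] (P Q : ℤ × ℤ) :
    (X P * X Q : MvPolynomial (ℤ × ℤ) K) = monomial (m2 P Q) 1 := by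
  simp [X, monomial_mul, m2]

theorem Fp_box {K : Type*} [Field K] (P Q : ℤ × ℤ) (h1 : P.1 ≠ Q.1) (h2 : P.2 ≠ Q.2) :
    ∃ e : K, e ≠ 0 ∧ Fp K (box P Q) =
      C e * (monomial (m2 P Q) 1 - monomial (m2 (P.1, Q.2) (Q.1, P.2)) 1) := by
  rcases lt_or_gt_of_ne h1 with h3 | h3 <;> rcases lt_or_gt_of_ne h2 with h4 | h4
  · refine ⟨-1, by simp, ?_⟩
    simp only [Fp, box, min_eq_left h3.le, max_eq_right h3.le, min_eq_left h4.le,
      max_eq_right h4.le, ← XX, C_neg, C_1]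
    ring
  · refine ⟨1, by simp, ?_⟩
    simp only [Fp, box, min_eq_left h3.le, max_eq_right h3.le, min_eq_right h4.le,
      max_eq_left h4.le, ← XX, C_1]
    ring
  · refine ⟨1, by simp, ?_⟩
    simp only [Fp, box, min_eq_right h3.le, max_eq_left h3.le, min_eq_left h4.le,
      max_eq_right h4.le, ← XX, C_1]
    ring
  · refine ⟨-1, by simp, ?_⟩
    simp only [Fp, box, min_eq_right h3.le, max_eq_left h3.le, min_eq_right h4.le,
      max_eq_left h4.le, ← XX, C_neg, C_1]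
    ring

theorem box_corners {u : (ℤ × ℤ) × (ℤ × ℤ)} (h1 : u.1.1 < u.1.2) (h2 : u.2.1 < u.2.2) :
    box (u.1.1, u.2.2) (u.1.2, u.2.1) = u ∧ box (u.1.2, u.2.2) (u.1.1, u.2.1) = u := by
  simp only [box, min_eq_left h1.le, max_eq_right h1.le, min_eq_right h1.le, max_eq_left h1.le,
    min_eq_right h2.le, max_eq_left h2.le, and_self]

/-- If the monomial `z1 z2 z3 z4` occurs in a product of two minors, the minors are boxes of a
splitting. -/
theorem split_of_coeff {K : Type*} [Field K] {u v : (ℤ × ℤ) × (ℤ × ℤ)}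
    (hu1 : u.1.1 < u.1.2) (hu2 : u.2.1 < u.2.2) (hv1 : v.1.1 < v.1.2) (hv2 : v.2.1 < v.2.2)
    {z1 z2 z3 z4 : ℤ × ℤ} (h : coeff (m2 z1 z2 + m2 z3 z4) (Fp K u * Fp K v) ≠ 0) :
    (u = box z1 z2 ∧ v = box z3 z4) ∨ (u = box z3 z4 ∧ v = box z1 z2) ∨
    (u = box z1 z3 ∧ v = box z2 z4) ∨ (u = box z2 z4 ∧ v = box z1 z3) ∨
    (u = box z1 z4 ∧ v = box z2 z3) ∨ (u = box z2 z3 ∧ v = box z1 z4) := by
  classical
  have hbu := box_corners hu1 hu2
  have hbv := box_corners hv1 hv2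
  by_contra hcon
  have key : ∀ P1 P2 P3 P4 : ℤ × ℤ, box P1 P2 = u → box P3 P4 = v →
      ¬ (m2 P1 P2 + m2 P3 P4 = m2 z1 z2 + m2 z3 z4) := by
    intro P1 P2 P3 P4 h1 h2 h3
    apply hcon
    have h4 := sp h3
    rw [h1, h2] at h4
    exact h4
  apply h
  have e : Fp K u * Fp K v =
      monomial (m2 (u.1.1, u.2.2) (u.1.2, u.2.1) + m2 (v.1.1, v.2.2) (v.1.2, v.2.1)) 1 -
      monomial (m2 (u.1.1, u.2.2) (u.1.2, u.2.1) + m2 (v.1.2, v.2.2) (v.1.1, v.2.1)) 1 -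
      monomial (m2 (u.1.2, u.2.2) (u.1.1, u.2.1) + m2 (v.1.1, v.2.2) (v.1.2, v.2.1)) 1 +
      monomial (m2 (u.1.2, u.2.2) (u.1.1, u.2.1) + m2 (v.1.2, v.2.2) (v.1.1, v.2.1)) 1 := by
    have hm : ∀ a b : (ℤ × ℤ) →₀ ℕ, (monomial (a + b) 1 : MvPolynomial (ℤ × ℤ) K) =
        monomial a 1 * monomial b 1 := by
      intro a b; simp [monomial_mul]
    rw [hm, hm, hm, hm, ← XX, ← XX, ← XX, ← XX]
    unfold Fp
    ring
  rw [e, coeff_add, coeff_sub, coeff_sub, coeff_monomial, coeff_monomial, coeff_monomial,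
    coeff_monomial, if_neg (key _ _ _ _ hbu.1 hbv.1), if_neg (key _ _ _ _ hbu.1 hbv.2),
    if_neg (key _ _ _ _ hbu.2 hbv.1), if_neg (key _ _ _ _ hbu.2 hbv.2)]
  ring

theorem coeff_ne {K : Type*} [Field K] {z1 z2 z3 z4 : ℤ × ℤ} (h1 : z1.1 ≠ z2.1)
    (h2 : z1.2 ≠ z2.2) (h3 : z3.1 ≠ z4.1) (h4 : z3.2 ≠ z4.2) (h5 : z1 ≠ (z3.1, z4.2))
    (h6 : z1 ≠ (z4.1, z3.2)) :
    coeff (m2 z1 z2 + m2 z3 z4) (Fp K (box z1 z2) * Fp K (box z3 z4)) ≠ 0 := by
  classical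
  obtain ⟨e, he, hE⟩ := Fp_box (K := K) z1 z2 h1 h2
  obtain ⟨e', he', hE'⟩ := Fp_box (K := K) z3 z4 h3 h4
  have hne : ∀ P Q : ℤ × ℤ, P.1 ≠ Q.1 → P.2 ≠ Q.2 → m2 (P.1, Q.2) (Q.1, P.2) ≠ m2 P Q := by
    intro P Q g1 g2 h
    rcases c2 h with ⟨g3, g4⟩ | ⟨g3, g4⟩
    · have := congrArg (fun z : ℤ × ℤ => z.2) g3
      exact g2 this.symm
    · have := congrArg (fun z : ℤ × ℤ => z.1) g3
      exact g1 this
  have hex : Fp K (box z1 z2) * Fp K (box z3 z4) = C (e * e') *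
      (monomial (m2 z1 z2 + m2 z3 z4) 1 -
      monomial (m2 z1 z2 + m2 (z3.1, z4.2) (z4.1, z3.2)) 1 -
      monomial (m2 (z1.1, z2.2) (z2.1, z1.2) + m2 z3 z4) 1 +
      monomial (m2 (z1.1, z2.2) (z2.1, z1.2) + m2 (z3.1, z4.2) (z4.1, z3.2)) 1) := by
    have hm : ∀ a b : (ℤ × ℤ) →₀ ℕ, (monomial (a + b) 1 : MvPolynomial (ℤ × ℤ) K) =
        monomial a 1 * monomial b 1 := by
      intro a b; simp [monomial_mul]
    rw [hE, hE', hm, hm, hm, hm, C_mul]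
    ring
  rw [hex, coeff_C_mul, coeff_add, coeff_sub, coeff_sub, coeff_monomial, coeff_monomial,
    coeff_monomial, coeff_monomial, if_pos rfl, if_neg, if_neg, if_neg]
  · simp [he, he']
  · intro h
    have g := DFunLike.congr_fun h z1
    have g1 : z1 ≠ (z1.1, z2.2) := by
      intro h
      have := congrArg (fun z : ℤ × ℤ => z.2) h
      exact h2 this
    have g2 : z1 ≠ (z2.1, z1.2) := by
      intro h
      have := congrArg (fun z : ℤ × ℤ => z.1) h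
      exact h1 this
    simp only [m2, Finsupp.add_apply, Finsupp.single_eq_same, Finsupp.single_eq_of_ne g1,
      Finsupp.single_eq_of_ne g2, Finsupp.single_eq_of_ne h5, Finsupp.single_eq_of_ne h6] at g
    omega
  · intro h
    exact hne _ _ h1 h2 (add_right_cancel h)
  · intro h
    exact hne _ _ h3 h4 (add_left_cancel h)

theorem aeval_Fp {K F : Type*} [Field K] [Field F] [Algebra K F] (x : ℤ × ℤ → F)
    (u : (ℤ × ℤ) × (ℤ × ℤ)) : aeval x (Fp K u) = fm x u := by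
  simp [Fp, fm]

theorem rel_iff {K F : Type*} [Field K] [Field F] [Algebra K F] {x : ℤ × ℤ → F}
    (hx : AlgebraicIndependent K x) {σ : Type*} (g : σ → (ℤ × ℤ) × (ℤ × ℤ))
    (q : MvPolynomial σ K) : aeval (fun u => fm x (g u)) q = 0 ↔
      aeval (fun u => Fp K (g u)) q = 0 := by
  have h1 : aeval (fun u => fm x (g u)) q = aeval x (aeval (fun u => Fp K (g u)) q) := by
    have h2 : (aeval (fun u => fm x (g u)) : MvPolynomial σ K →ₐ[K] F) =
        (aeval x).comp (aeval (fun u => Fp K (g u))) := by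
      apply MvPolynomial.algHom_ext
      intro u
      rw [aeval_X, AlgHom.comp_apply, aeval_X, aeval_Fp]
    rw [h2]
    rfl
  rw [h1]
  constructor
  · exact hx.eq_zero_of_aeval_eq_zero _
  · intro h; rw [h, map_zero]

/-- Products of two minors with a monomial occurring in no other product do not occur in a
quadric relation. -/
theorem key {K F : Type*} [Field K] [Field F] [Algebra K F] {x : ℤ × ℤ → F}
    (hx : AlgebraicIndependent K x) {Y : Set ((ℤ × ℤ) × (ℤ × ℤ))}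
    (hY : ∀ u ∈ Y, u.1.1 < u.1.2 ∧ u.2.1 < u.2.2) (z1 z2 z3 z4 : ℤ × ℤ)
    (ha : box z1 z2 ∈ Y) (hb : box z3 z4 ∈ Y)
    (H1a : box z1 z3 ∈ Y → box z2 z4 ∈ Y → (box z1 z3 = box z1 z2 ∧ box z2 z4 = box z3 z4) ∨
      (box z1 z3 = box z3 z4 ∧ box z2 z4 = box z1 z2))
    (H1b : box z1 z4 ∈ Y → box z2 z3 ∈ Y → (box z1 z4 = box z1 z2 ∧ box z2 z3 = box z3 z4) ∨
      (box z1 z4 = box z3 z4 ∧ box z2 z3 = box z1 z2))
    (H2a : z1 ≠ (z3.1, z4.2)) (H2b : z1 ≠ (z4.1, z3.2))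
    (q : MvPolynomial Y K) (hq : q.IsHomogeneous 2) (h0 : aeval (fun u : Y => fm x u) q = 0) :
    coeff (Finsupp.single ⟨box z1 z2, ha⟩ 1 + Finsupp.single ⟨box z3 z4, hb⟩ 1) q = 0 := by
  rw [rel_iff hx (fun u : Y => (u : (ℤ × ℤ) × (ℤ × ℤ)))] at h0
  have h1 := hY _ ha
  have h2 := hY _ hb
  simp only [box] at h1 h2
  refine coeff_quadric (fun u : Y => Fp K (u : (ℤ × ℤ) × (ℤ × ℤ))) q hq h0 _ _
    (lcoeff K (m2 z1 z2 + m2 z3 z4)) ?_ ?_
  · rw [lcoeff_apply]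
    exact coeff_ne (by omega) (by omega) (by omega) (by omega) H2a H2b
  · rintro ⟨u, hu⟩ ⟨v, hv⟩ hne
    rw [lcoeff_apply]
    by_contra hcon
    apply hne
    simp only [Subtype.mk.injEq]
    rcases split_of_coeff (hY u hu).1 (hY u hu).2 (hY v hv).1 (hY v hv).2 hcon with
      ⟨rfl, rfl⟩ | ⟨rfl, rfl⟩ | ⟨rfl, rfl⟩ | ⟨rfl, rfl⟩ | ⟨rfl, rfl⟩ | ⟨rfl, rfl⟩
    · left; exact ⟨rfl, rfl⟩
    · right; exact ⟨rfl, rfl⟩
    · rcases H1a hu hv with h | h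
      · left; exact h
      · right; exact h
    · rcases H1a hv hu with h | h
      · right; exact ⟨h.2, h.1⟩
      · left; exact ⟨h.2, h.1⟩
    · rcases H1b hu hv with h | h
      · left; exact h
      · right; exact h
    · rcases H1b hv hu with h | h
      · right; exact ⟨h.2, h.1⟩
      · left; exact ⟨h.2, h.1⟩

end Pool.Agent.J4.H7.C39
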