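import Mathlib
import Pool.Agent.J4.H7.C39.Key
import Pool.Agent.J4.H7.C39.Forward

namespace Pool.Agent.J4.H7.C39

open MvPolynomial

theorem coeff_m3 {K σ : Type*} [Field K] (m : σ →₀ ℕ) (z a b c : σ) (hz : m z ≠ 0) (ha : z ≠ a)
    (hb : z ≠ b) (hc : z ≠ c) : coeff m (X a * (X b * X c) : MvPolynomial σ K) = 0 := by
  classical
  have h1 : (X a * (X b * X c) : MvPolynomial σ K) =
      monomial (Finsupp.single a 1 + (Finsupp.single b 1 + Finsupp.single c 1)) 1 := by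
    simp [X, monomial_mul]
  rw [h1, coeff_monomial, if_neg]
  intro h
  apply hz
  rw [← h]
  simp [Finsupp.single_eq_of_ne ha, Finsupp.single_eq_of_ne hb, Finsupp.single_eq_of_ne hc]

/-- A region containing a grid with four columns and three rows is not quadratic. -/
theorem grid_not_quad {K F : Type*} [Field K] [Field F] [Algebra K F] {x : ℤ × ℤ → F}
    (hx : AlgebraicIndependent K x) {R : Set (ℤ × ℤ)} (hR : Reg R) (i j : ℤ)
    (h1 : (i, j + 2) ∈ R) (h2 : (i + 3, j) ∈ R) : ¬ Quad K (fun q : Ys R => fm x q) := by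
  classical
  have hrect : ∀ p q, i ≤ p → p ≤ i + 3 → j ≤ q → q ≤ j + 2 → (p, q) ∈ R :=
    fun p q a b c d => hR.rect h1 h2 a b c d
  have hmem : ∀ a b c d : ℤ, i ≤ a → a < b → b ≤ i + 3 → j ≤ c → c < d → d ≤ j + 2 →
      ((a, b), (c, d)) ∈ Ys R := fun a b c d g1 g2 g3 g4 g5 g6 =>
    ⟨g2, g5, hrect _ _ g1 (by simp only; omega) (by simp only; omega) g6,
      hrect _ _ (by simp only; omega) g3 g4 (by simp only; omega)⟩
  have hY : ∀ u ∈ Ys R, u.1.1 < u.1.2 ∧ u.2.1 < u.2.2 := fun u hu => ⟨hu.1, hu.2.1⟩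
  let v0 : ∀ k : ℤ, 1 ≤ k → k ≤ 3 → Ys R := fun k g1 g2 =>
    ⟨((i, i + k), (j + 1, j + 2)), hmem _ _ _ _ (by omega) (by omega) (by omega) (by omega)
      (by omega) (by omega)⟩
  let v1 : ∀ k : ℤ, 1 ≤ k → k ≤ 3 → Ys R := fun k g1 g2 =>
    ⟨((i, i + k), (j, j + 2)), hmem _ _ _ _ (by omega) (by omega) (by omega) (by omega)
      (by omega) (by omega)⟩
  let v2 : ∀ k : ℤ, 1 ≤ k → k ≤ 3 → Ys R := fun k g1 g2 =>
    ⟨((i, i + k), (j, j + 1)), hmem _ _ _ _ (by omega) (by omega) (by omega) (by omega)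
      (by omega) (by omega)⟩
  let a1 := v0 1 (by norm_num) (by norm_num)
  let a2 := v0 2 (by norm_num) (by norm_num)
  let a3 := v0 3 (by norm_num) (by norm_num)
  let b1 := v1 1 (by norm_num) (by norm_num)
  let b2 := v1 2 (by norm_num) (by norm_num)
  let b3 := v1 3 (by norm_num) (by norm_num)
  let c1 := v2 1 (by norm_num) (by norm_num)
  let c2 := v2 2 (by norm_num) (by norm_num)
  let c3 := v2 3 (by norm_num) (by norm_num)
  have hne : ∀ u w : Ys R, ¬ (u.1.1.2 = w.1.1.2 ∧ u.1.2.1 = w.1.2.1 ∧ u.1.2.2 = w.1.2.2) →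
      u ≠ w := by
    rintro u w h rfl
    exact h ⟨rfl, rfl, rfl⟩
  let p : MvPolynomial (Ys R) K := X a1 * (X b2 * X c3) - X a1 * (X b3 * X c2) -
    (X a2 * (X b1 * X c3) - X a2 * (X b3 * X c1)) +
    (X a3 * (X b1 * X c2) - X a3 * (X b2 * X c1))
  have ab : a1 ≠ b2 := hne _ _ (by simp [a1, b2, v0, v1])
  have ac : a1 ≠ c3 := hne _ _ (by simp [a1, c3, v0, v2])
  have bc : b2 ≠ c3 := hne _ _ (by simp [b2, c3, v1, v2])
  refine not_quad_of_cubic (fun q : Ys R => fm x q) p ?_ a1 b2 c3 ab ac bc ?_ ?_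
  · simp only [p, map_add, map_sub, map_mul, aeval_X, a1, a2, a3, b1, b2, b3, c1, c2, c3, v0, v1,
      v2, fm]
    ring
  · set m := Finsupp.single a1 1 + Finsupp.single b2 1 + Finsupp.single c3 1 with hm
    have hma : m a1 ≠ 0 := by simp [hm]
    have hmb : m b2 ≠ 0 := by simp [hm]
    have e1 : coeff m (X a1 * (X b2 * X c3) : MvPolynomial (Ys R) K) = 1 := by
      have h1 : (X a1 * (X b2 * X c3) : MvPolynomial (Ys R) K) = monomial m 1 := by
        rw [hm, add_assoc]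
        simp [X, monomial_mul]
      rw [h1, coeff_monomial, if_pos rfl]
    have e2 : coeff m (X a1 * (X b3 * X c2) : MvPolynomial (Ys R) K) = 0 :=
      coeff_m3 m b2 _ _ _ hmb ab.symm (hne _ _ (by simp [b3, b2, v1]))
        (hne _ _ (by simp [b2, c2, v1, v2]))
    have e3 : coeff m (X a2 * (X b1 * X c3) : MvPolynomial (Ys R) K) = 0 :=
      coeff_m3 m a1 _ _ _ hma (hne _ _ (by simp [a1, a2, v0])) (hne _ _ (by simp [a1, b1, v0, v1]))
        (hne _ _ (by simp [a1, c3, v0, v2]))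
    have e4 : coeff m (X a2 * (X b3 * X c1) : MvPolynomial (Ys R) K) = 0 :=
      coeff_m3 m a1 _ _ _ hma (hne _ _ (by simp [a1, a2, v0])) (hne _ _ (by simp [a1, b3, v0, v1]))
        (hne _ _ (by simp [a1, c1, v0, v2]))
    have e5 : coeff m (X a3 * (X b1 * X c2) : MvPolynomial (Ys R) K) = 0 :=
      coeff_m3 m a1 _ _ _ hma (hne _ _ (by simp [a1, a3, v0])) (hne _ _ (by simp [a1, b1, v0, v1]))
        (hne _ _ (by simp [a1, c2, v0, v2]))
    have e6 : coeff m (X a3 * (X b2 * X c1) : MvPolynomial (Ys R) K) = 0 :=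
      coeff_m3 m a1 _ _ _ hma (hne _ _ (by simp [a1, a3, v0])) (hne _ _ (by simp [a1, b2, v0, v1]))
        (hne _ _ (by simp [a1, c1, v0, v2]))
    simp only [p, coeff_add, coeff_sub, e1, e2, e3, e4, e5, e6]
    simp
  · intro q hq h0
    have kk : ∀ (z r s : ℤ × ℤ) (ha : box z r ∈ Ys R) (hb : box z s ∈ Ys R),
        coeff (Finsupp.single ⟨box z r, ha⟩ 1 + Finsupp.single ⟨box z s, hb⟩ 1) q = 0 := by
      intro z r s ha hb
      have ha' := hY _ ha
      have hb' := hY _ hb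
      simp only [box] at ha' hb'
      refine key hx hY z r z s ha hb (fun h _ => ?_) (fun _ _ => Or.inr ⟨rfl, box_comm _ _⟩)
        (fun h => ?_) (fun h => ?_) q hq h0
      · exfalso
        have := (hY _ h).1
        simp [box] at this
      · have := congrArg (fun z : ℤ × ℤ => z.2) h
        simp only at this
        omega
      · have := congrArg (fun z : ℤ × ℤ => z.1) h
        simp only at this
        omega
    have k2 : ∀ (z r s : ℤ × ℤ) (u w : Ys R), box z r = u → box z s = w →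
        coeff (Finsupp.single u 1 + Finsupp.single w 1) q = 0 := by
      rintro z r s ⟨u, hu⟩ ⟨w, hw⟩ h3 h4
      simp only at h3 h4
      subst h3 h4
      exact kk z r s hu hw
    refine ⟨k2 (i, j + 2) (i + 1, j + 1) (i + 2, j) _ _ ?_ ?_,
      k2 (i, j + 1) (i + 1, j + 2) (i + 3, j) _ _ ?_ ?_,
      k2 (i, j) (i + 2, j + 2) (i + 3, j + 1) _ _ ?_ ?_⟩
    all_goals
      simp only [a1, b2, c3, v0, v1, v2, box, Prod.mk.injEq]
      omega

theorem quad_sw {K F : Type*} [Field K] [Field F] [Algebra K F] (x : ℤ × ℤ → F)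
    (R : Set (ℤ × ℤ)) (h : Quad K (fun q : Ys R => fm x q)) :
    Quad K (fun q : Ys (sw R) => fm (fun v => x (v.2, v.1)) q) := by
  let e' : Ys R ≃ Ys (sw R) := (Equiv.prodComm (ℤ × ℤ) (ℤ × ℤ)).subtypeEquiv (fun u => by
    rw [Ys_sw]
    simp)
  apply Quad.of_equiv e'
  have : (fun q : Ys (sw R) => fm (fun v => x (v.2, v.1)) q) ∘ e' = fun q : Ys R => fm x q := by
    funext q
    have h1 := fm_sw x (Equiv.prodComm (ℤ × ℤ) (ℤ × ℤ) q)
    simp only [Equiv.prodComm_apply, Prod.swap_swap] at h1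
    exact h1.symm
  rw [this]
  exact h

end Pool.Agent.J4.H7.C39
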