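import Mathlib
import Pool.Agent.J4.H7.C39.Coord

namespace Pool.Agent.J4.H7.C39

section gridiff

variable {L : Type*} [DistribLattice L] [BoundedOrder L] [Finite L]
variable {c : {p : L // SupIrred p} → Bool}

/-- A block gives an interval isomorphic to the `3 × 3` grid. -/
theorem blk_to_grid (hc : ∀ p q, c p = c q → p ≤ q ∨ q ≤ p) {i j : ℤ}
    (hB : Blk (Set.range (phi c)) i j) : ∃ u v : L, phi c u = (i - 1, j - 1) ∧
      phi c v = (i + 1, j + 1) ∧ Nonempty (Set.Icc u v ≃o Fin 3 × Fin 3) := by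
  classical
  have hR := phi_reg hc
  have hpt : ∀ z : Fin 3 × Fin 3, ∃ a : L,
      phi c a = (i - 1 + (z.1 : ℕ), j - 1 + (z.2 : ℕ)) := by
    rintro ⟨k, l⟩
    have hk := k.2
    have hl := l.2
    exact hR.rect hB.1 hB.2 (by simp only; omega) (by simp only; omega) (by simp only; omega)
      (by simp only; omega)
  choose w hw using hpt
  have hle : ∀ z z', w z ≤ w z' ↔ z ≤ z' := by
    intro z z'
    rw [← phi_le hc, hw, hw, Prod.le_def, Fin.le_def, Fin.le_def]
    simp only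
    omega
  have hmem : ∀ z, w z ∈ Set.Icc (w (0, 0)) (w (2, 2)) := by
    intro z
    constructor
    · rw [hle, Prod.le_def]
      exact ⟨Fin.zero_le _, Fin.zero_le _⟩
    · rw [hle, Prod.le_def]
      exact ⟨Fin.le_last _, Fin.le_last _⟩
  refine ⟨w (0, 0), w (2, 2), ?_, ?_, ⟨?_⟩⟩
  · rw [hw]; simp
  · rw [hw]
    simp only [Prod.mk.injEq]
    constructor
    · change i - 1 + ((2 : ℕ) : ℤ) = i + 1
      push_cast; ring
    · change j - 1 + ((2 : ℕ) : ℤ) = j + 1
      push_cast; ring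
  · let f : Fin 3 × Fin 3 → Set.Icc (w (0, 0)) (w (2, 2)) := fun z => ⟨w z, hmem z⟩
    have hf : ∀ z z', f z ≤ f z' ↔ z ≤ z' := fun z z' => hle z z'
    have hsurj : Function.Surjective f := by
      rintro ⟨a, ha1, ha2⟩
      rw [← phi_le hc, hw] at ha1
      rw [← phi_le hc, hw] at ha2
      simp only at ha1 ha2
      have e1 : ((2 : Fin 3) : ℕ) = 2 := rfl
      have e0 : ((0 : Fin 3) : ℕ) = 0 := rfl
      rw [e0] at ha1
      rw [e1] at ha2
      push_cast at ha1 ha2
      refine ⟨(⟨((phi c a).1 - (i - 1)).toNat, by omega⟩,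
        ⟨((phi c a).2 - (j - 1)).toNat, by omega⟩), ?_⟩
      apply Subtype.ext
      apply phi_inj hc
      simp only [f]
      rw [hw]
      apply Prod.ext
      · simp only; omega
      · simp only; omega
    exact (RelIso.ofSurjective (OrderEmbedding.ofMapLEIff f hf) hsurj).symm

/-- An interval isomorphic to the `3 × 3` grid comes from a block. -/
theorem grid_to_blk (hc : ∀ p q, c p = c q → p ≤ q ∨ q ≤ p) {u v : L}
    (e : Set.Icc u v ≃o Fin 3 × Fin 3) :
    phi c v = ((phi c u).1 + 2, (phi c u).2 + 2) ∧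
      Blk (Set.range (phi c)) ((phi c u).1 + 1) ((phi c u).2 + 1) := by
  classical
  have huv : u ≤ v := (e.symm (0, 0)).2.1.trans (e.symm (0, 0)).2.2
  have hv : v ∈ Set.Icc u v := ⟨huv, le_rfl⟩
  have hu : u ∈ Set.Icc u v := ⟨le_rfl, huv⟩
  -- the length bound
  have hlen : ∀ (n : ℕ) (a : L) (ha : a ∈ Set.Icc u v),
      (phi c v).1 + (phi c v).2 - ((phi c a).1 + (phi c a).2) = n →
      n + (((e ⟨a, ha⟩).1 : ℕ) + ((e ⟨a, ha⟩).2 : ℕ)) ≤ 4 := by
    intro n
    induction n with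
    | zero =>
      intro a ha _
      have := (e ⟨a, ha⟩).1.2
      have := (e ⟨a, ha⟩).2.2
      omega
    | succ n ih =>
      intro a ha hn
      have hav : a < v := by
        refine lt_of_le_of_ne ha.2 ?_
        rintro rfl
        push_cast at hn
        omega
      obtain ⟨b, hb, hb'⟩ := phi_step hc hav
      have hab : a < b := by
        rw [lt_iff_le_not_ge, ← phi_le hc, ← phi_le hc]
        rcases hb' with h | h <;> rw [h] <;> simp only <;> omega
      have hbm : b ∈ Set.Icc u v := ⟨ha.1.trans hab.le, hb⟩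
      have h1 := ih b hbm (by
        push_cast at hn
        rcases hb' with h | h <;> rw [h] <;> simp only <;> omega)
      have h2 : e ⟨a, ha⟩ < e ⟨b, hbm⟩ := e.strictMono hab
      have h3 : ((e ⟨a, ha⟩).1 : ℕ) + ((e ⟨a, ha⟩).2 : ℕ) <
          ((e ⟨b, hbm⟩).1 : ℕ) + ((e ⟨b, hbm⟩).2 : ℕ) := by
        rw [Prod.lt_iff] at h2
        rcases h2 with ⟨h4, h5⟩ | ⟨h4, h5⟩
        · rw [Fin.lt_def] at h4
          rw [Fin.le_def] at h5
          omega
        · rw [Fin.le_def] at h4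
          rw [Fin.lt_def] at h5
          omega
      omega
  have hle := (phi_le hc u v).2 huv
  have h4 := hlen ((phi c v).1 + (phi c v).2 - ((phi c u).1 + (phi c u).2)).toNat u hu (by omega)
  -- the antichain
  have hanti : ∀ z z' : Fin 3 × Fin 3, ¬ z ≤ z' →
      ¬ ((phi c (e.symm z).1).1 ≤ (phi c (e.symm z').1).1 ∧
        (phi c (e.symm z).1).2 ≤ (phi c (e.symm z').1).2) := by
    intro z z' hzz h
    rw [phi_le hc] at h
    exact hzz (e.symm.le_iff_le.1 h)
  have hran : ∀ z : Fin 3 × Fin 3, ((phi c u).1 ≤ (phi c (e.symm z).1).1 ∧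
      (phi c u).2 ≤ (phi c (e.symm z).1).2) ∧ ((phi c (e.symm z).1).1 ≤ (phi c v).1 ∧
      (phi c (e.symm z).1).2 ≤ (phi c v).2) := by
    intro z
    exact ⟨(phi_le hc _ _).2 (e.symm z).2.1, (phi_le hc _ _).2 (e.symm z).2.2⟩
  have a12 := hanti (0, 2) (1, 1) (by decide)
  have a21 := hanti (1, 1) (0, 2) (by decide)
  have a13 := hanti (0, 2) (2, 0) (by decide)
  have a31 := hanti (2, 0) (0, 2) (by decide)
  have a23 := hanti (1, 1) (2, 0) (by decide)
  have a32 := hanti (2, 0) (1, 1) (by decide)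
  have r1 := hran (0, 2)
  have r2 := hran (1, 1)
  have r3 := hran (2, 0)
  have m1 : phi c (e.symm (0, 2)).1 ∈ Set.range (phi c) := ⟨_, rfl⟩
  have m2 : phi c (e.symm (1, 1)).1 ∈ Set.range (phi c) := ⟨_, rfl⟩
  have m3 : phi c (e.symm (2, 0)).1 ∈ Set.range (phi c) := ⟨_, rfl⟩
  generalize phi c (e.symm (0, 2)).1 = w1 at *
  generalize phi c (e.symm (1, 1)).1 = w2 at *
  generalize phi c (e.symm (2, 0)).1 = w3 at *
  clear hlen hanti hran
  have hsum : (phi c v).1 + (phi c v).2 - ((phi c u).1 + (phi c u).2) ≤ 4 := by omega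
  obtain ⟨w11, w12⟩ := w1
  obtain ⟨w21, w22⟩ := w2
  obtain ⟨w31, w32⟩ := w3
  simp only at a12 a21 a13 a31 a23 a32 r1 r2 r3
  have hv1 : (phi c v).1 = (phi c u).1 + 2 := by omega
  have hv2 : (phi c v).2 = (phi c u).2 + 2 := by omega
  refine ⟨Prod.ext hv1 hv2, ?_, ?_⟩
  · have e1 : (phi c u).1 + 1 - 1 = (phi c u).1 := by ring
    have e2 : (phi c u).2 + 1 + 1 = (phi c u).2 + 2 := by ring
    rw [e1, e2]
    have h5 : (w11 = (phi c u).1 ∧ w12 = (phi c u).2 + 2) ∨
      (w21 = (phi c u).1 ∧ w22 = (phi c u).2 + 2) ∨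
      (w31 = (phi c u).1 ∧ w32 = (phi c u).2 + 2) := by omega
    rcases h5 with ⟨h6, h7⟩ | ⟨h6, h7⟩ | ⟨h6, h7⟩
    · rw [← h6, ← h7]; exact m1
    · rw [← h6, ← h7]; exact m2
    · rw [← h6, ← h7]; exact m3
  · have e1 : (phi c u).1 + 1 + 1 = (phi c u).1 + 2 := by ring
    have e2 : (phi c u).2 + 1 - 1 = (phi c u).2 := by ring
    rw [e1, e2]
    have h5 : (w11 = (phi c u).1 + 2 ∧ w12 = (phi c u).2) ∨
      (w21 = (phi c u).1 + 2 ∧ w22 = (phi c u).2) ∨
      (w31 = (phi c u).1 + 2 ∧ w32 = (phi c u).2) := by omega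
    rcases h5 with ⟨h6, h7⟩ | ⟨h6, h7⟩ | ⟨h6, h7⟩
    · rw [← h6, ← h7]; exact m1
    · rw [← h6, ← h7]; exact m2
    · rw [← h6, ← h7]; exact m3

/-- At most one block iff at most one interval isomorphic to the `3 × 3` grid. -/
theorem blk_iff_grid (hc : ∀ p q, c p = c q → p ≤ q ∨ q ≤ p) :
    (∀ i j k l, Blk (Set.range (phi c)) i j → Blk (Set.range (phi c)) k l → i = k ∧ j = l) ↔
    (∀ u v u' v' : L, Nonempty (Set.Icc u v ≃o Fin 3 × Fin 3) →
      Nonempty (Set.Icc u' v' ≃o Fin 3 × Fin 3) → Set.Icc u v = Set.Icc u' v') := by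
  constructor
  · rintro h u v u' v' ⟨e⟩ ⟨e'⟩
    have h1 := grid_to_blk hc e
    have h2 := grid_to_blk hc e'
    have h3 := h _ _ _ _ h1.2 h2.2
    have h4 : u = u' := by
      apply phi_inj hc
      apply Prod.ext <;> omega
    have h5 : v = v' := by
      apply phi_inj hc
      rw [h1.1, h2.1, h4]
    rw [h4, h5]
  · intro h i j k l h1 h2
    obtain ⟨u, v, hu, hv, hne⟩ := blk_to_grid hc h1
    obtain ⟨u', v', hu', hv', hne'⟩ := blk_to_grid hc h2
    have h3 := h u v u' v' hne hne'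
    have huv : u ≤ v := by
      rw [← phi_le hc, hu, hv]; simp only; omega
    have huv' : u' ≤ v' := by
      rw [← phi_le hc, hu', hv']; simp only; omega
    have h4 : u = u' := by
      apply le_antisymm
      · have : u' ∈ Set.Icc u v := by rw [h3]; exact ⟨le_rfl, huv'⟩
        exact this.1
      · have : u ∈ Set.Icc u' v' := by rw [← h3]; exact ⟨le_rfl, huv⟩
        exact this.1
    rw [h4, hu'] at hu
    simp only [Prod.mk.injEq] at hu
    omega

end gridiff

end Pool.Agent.J4.H7.C39
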