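import Mathlib
import Pool.Agent.J4.H7.C39.Grid

namespace Pool.Agent.J4.H7.C39

open MvPolynomial

section up

variable {K F : Type*} [Field K] [Field F] [Algebra K F] {x : ℤ × ℤ → F}

/-- The part of the region above `(s, t)`. -/
def up (R : Set (ℤ × ℤ)) (s t : ℤ) : Set (ℤ × ℤ) := {v | v ∈ R ∧ s ≤ v.1 ∧ t ≤ v.2}

theorem mem_up {R : Set (ℤ × ℤ)} {s t : ℤ} {u : (ℤ × ℤ) × (ℤ × ℤ)} :
    u ∈ Ys (up R s t) ↔ u ∈ Ys R ∧ s ≤ u.1.1 ∧ t ≤ u.2.1 := by
  constructor
  · rintro ⟨h1, h2, h3, h4⟩
    exact ⟨⟨h1, h2, h3.1, h4.1⟩, h3.2.1, h4.2.2⟩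
  · rintro ⟨⟨h1, h2, h3, h4⟩, h5, h6⟩
    exact ⟨h1, h2, ⟨h3, h5, by simp only; omega⟩, ⟨h4, by simp only; omega, h6⟩⟩

/-- Generation by quadrics passes to upper parts of the region. -/
theorem quad_up (hx : AlgebraicIndependent K x) (R : Set (ℤ × ℤ)) (s t : ℤ)
    (h : Quad K (fun q : Ys R => fm x q)) : Quad K (fun q : Ys (up R s t) => fm x q) := by
  classical
  intro p hp
  let incl : Ys (up R s t) → Ys R := fun u => ⟨u.1, (mem_up.1 u.2).1⟩
  let rho : MvPolynomial (Ys R) K →ₐ[K] MvPolynomial (Ys (up R s t)) K :=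
    aeval (fun u => if hu : u.1 ∈ Ys (up R s t) then X ⟨u.1, hu⟩ else 0)
  have h1 : rho (rename incl p) = p := by
    have h2 : (rho.comp (rename incl)) = AlgHom.id K _ := by
      apply MvPolynomial.algHom_ext
      rintro ⟨u, hu⟩
      rw [AlgHom.comp_apply, rename_X]
      simp only [rho, aeval_X, incl, AlgHom.id_apply]
      rw [dif_pos hu]
    exact DFunLike.congr_fun h2 p
  have h3 : aeval (fun q : Ys R => fm x q) (rename incl p) = 0 := by
    rw [aeval_rename]
    exact hp
  have h4 := h _ h3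
  have h5 : Ideal.span {q : MvPolynomial (Ys R) K | q.IsHomogeneous 2 ∧
      aeval (fun q : Ys R => fm x q) q = 0} ≤
      (Ideal.span {q : MvPolynomial (Ys (up R s t)) K | q.IsHomogeneous 2 ∧
      aeval (fun q : Ys (up R s t) => fm x q) q = 0}).comap rho := by
    rw [Ideal.span_le]
    rintro q ⟨hq1, hq2⟩
    rw [SetLike.mem_coe, Ideal.mem_comap]
    refine Ideal.subset_span ⟨?_, ?_⟩
    · have h6 := hq1.aeval (fun u : Ys R => if hu : u.1 ∈ Ys (up R s t) then
        (X ⟨u.1, hu⟩ : MvPolynomial (Ys (up R s t)) K) else 0) (n := 1) (by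
          intro u
          split_ifs
          · exact isHomogeneous_X _ _
          · exact isHomogeneous_zero _ _ _)
      exact h6
    · rw [rel_iff hx (fun u : Ys (up R s t) => (u : (ℤ × ℤ) × (ℤ × ℤ)))]
      rw [rel_iff hx (fun u : Ys R => (u : (ℤ × ℤ) × (ℤ × ℤ)))] at hq2
      let kap : MvPolynomial (ℤ × ℤ) K →ₐ[K] MvPolynomial (ℤ × ℤ) K :=
        aeval (fun v => if s ≤ v.1 ∧ t ≤ v.2 then X v else 0)
      have h7 : ((aeval (fun u : Ys (up R s t) => Fp K u)) : _ →ₐ[K] _).comp rho =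
          kap.comp (aeval (fun u : Ys R => Fp K u)) := by
        apply MvPolynomial.algHom_ext
        rintro ⟨u, hu⟩
        have hu1 := hu.1
        have hu2 := hu.2.1
        rw [AlgHom.comp_apply, AlgHom.comp_apply, aeval_X]
        simp only [aeval_X, kap, Fp, map_sub, map_mul]
        by_cases hu' : u ∈ Ys (up R s t)
        · have hm := (mem_up.1 hu').2
          rw [dif_pos hu', aeval_X, if_pos (by omega), if_pos (by omega), if_pos (by omega),
            if_pos (by omega)]
        · have hm : ¬ (s ≤ u.1.1 ∧ t ≤ u.2.1) := fun hm => hu' (mem_up.2 ⟨hu, hm⟩)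
          rw [dif_neg hu', map_zero, if_neg hm, mul_zero, sub_zero]
          by_cases h8 : s ≤ u.1.1
          · rw [if_neg (show ¬ (s ≤ u.1.2 ∧ t ≤ u.2.1) by omega), mul_zero]
          · rw [if_neg (show ¬ (s ≤ u.1.1 ∧ t ≤ u.2.2) by omega), zero_mul]
      have h8 := DFunLike.congr_fun h7 q
      rw [AlgHom.comp_apply, AlgHom.comp_apply, hq2, map_zero] at h8
      exact h8
  have h6 := h5 h4
  rw [Ideal.mem_comap] at h6
  rwa [h1] at h6

end up

section qi

variable {K F : Type*} [Field K] [Field F] [Algebra K F]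

/-- If no quadric relation involves the variables `τ`, these are free. -/
theorem quad_free {τ σ : Type*} (g : τ ⊕ σ → F) (hQ : Quad K g)
    (H : ∀ q : MvPolynomial (τ ⊕ σ) K, q.IsHomogeneous 2 → aeval g q = 0 →
      ∀ m, coeff m q ≠ 0 → ∀ t, m (Sum.inl t) = 0) :
    Ind K (Set.range (g ∘ Sum.inr)) (g ∘ Sum.inl) := by
  classical
  unfold Ind
  rw [IntermediateField.algebraicIndependent_adjoin_iff, algebraicIndependent_iff]
  set B := Algebra.adjoin K (Set.range (g ∘ Sum.inr)) with hB
  intro p hp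
  let pi : MvPolynomial σ K →ₐ[K] B :=
    aeval (fun s => (⟨g (Sum.inr s), Algebra.subset_adjoin ⟨s, rfl⟩⟩ : B))
  have hpi : ∀ r, (pi r : F) = aeval (g ∘ Sum.inr) r := by
    intro r
    exact (MvPolynomial.aeval_algebraMap_apply (A := B) F
      (fun s => (⟨g (Sum.inr s), Algebra.subset_adjoin ⟨s, rfl⟩⟩ : B)) r).symm
  have hsurj : Function.Surjective pi := by
    rintro ⟨b, hb⟩
    rw [hB, Algebra.adjoin_range_eq_range_aeval] at hb
    obtain ⟨r, hr⟩ := hb
    exact ⟨r, Subtype.ext ((hpi r).trans hr)⟩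
  obtain ⟨P, rfl⟩ := MvPolynomial.map_surjective (pi : MvPolynomial σ K →+* B) hsurj p
  set q := (sumAlgEquiv K τ σ).symm P with hq
  have hqP : sumAlgEquiv K τ σ q = P := by rw [hq]; simp
  have hev : ∀ r : MvPolynomial (τ ⊕ σ) K,
      aeval (g ∘ Sum.inl) (map (pi : MvPolynomial σ K →+* B) (sumAlgEquiv K τ σ r)) =
      aeval g r := by
    intro r
    induction r using MvPolynomial.induction_on with
    | C r => simp [← IsScalarTower.algebraMap_apply]
    | add p q hp hq => simp only [map_add, hp, hq]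
    | mul_X p i hp =>
      simp only [map_mul, hp, aeval_X]
      congr 1
      cases i with
      | inl c => simp
      | inr c =>
        simp only [sumAlgEquiv_X_inr, map_C, aeval_C]
        exact (hpi (X c)).trans (aeval_X _ _)
  have hq0 : aeval g q = 0 := by rw [← hev, hqP]; exact hp
  have h1 := hQ q hq0
  let Phi : MvPolynomial (τ ⊕ σ) K →+* MvPolynomial τ B :=
    (map (pi : MvPolynomial σ K →+* B)).comp ((sumAlgEquiv K τ σ : _ ≃ₐ[K] _) : _ →+* _)
  have h2 : Ideal.span {q : MvPolynomial (τ ⊕ σ) K | q.IsHomogeneous 2 ∧ aeval g q = 0} ≤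
      RingHom.ker Phi := by
    rw [Ideal.span_le]
    rintro r ⟨hr1, hr2⟩
    rw [SetLike.mem_coe, RingHom.mem_ker]
    obtain ⟨r', hr'⟩ := exists_rename_eq_of_vars_subset_range r (Sum.inr : σ → τ ⊕ σ)
      Sum.inr_injective (by
        intro i hi
        rw [Finset.mem_coe, mem_vars_iff_mem_support] at hi
        obtain ⟨m, hm, him⟩ := hi
        cases i with
        | inl t =>
          exfalso
          have h3 := H r hr1 hr2 m (by simpa using hm) t
          simp [h3] at him
        | inr s => exact ⟨s, rfl⟩)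
    rw [← hr']
    have h4 : ∀ r' : MvPolynomial σ K, sumAlgEquiv K τ σ (rename Sum.inr r') = C r' := by
      intro q
      induction q using MvPolynomial.induction_on with
      | C r => simp
      | add p q hp hq => simp only [map_add, hp, hq]
      | mul_X p i hp => simp only [map_mul, hp, rename_X, sumAlgEquiv_X_inr]
    have h5 : Phi (rename Sum.inr r') = C (pi r') := by
      have h6 : Phi (rename Sum.inr r') =
          map (pi : MvPolynomial σ K →+* B) (sumAlgEquiv K τ σ (rename Sum.inr r')) := rfl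
      rw [h6, h4, map_C]
      rfl
    rw [h5]
    have h7 : pi r' = 0 := by
      apply Subtype.ext
      rw [hpi]
      rw [← hr', aeval_rename] at hr2
      exact hr2
    rw [h7, C_0]
  have h3 := h2 h1
  rw [RingHom.mem_ker] at h3
  have h4 : Phi q = map (pi : MvPolynomial σ K →+* B) (sumAlgEquiv K τ σ q) := rfl
  rw [h4, hqP] at h3
  exact h3

end qi

end Pool.Agent.J4.H7.C39
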