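import Mathlib
import Pool.Agent.J4.H7.C39.Two

namespace Pool.Agent.J4.H7.C39

open MvPolynomial

section nT

variable {K F : Type*} [Field K] [Field F] [Algebra K F] {x : ℤ × ℤ → F}

/-- Arithmetic constraints on the minors of a region whose bottom is the bottom of a block and
which contains no larger grid there. -/
structure Ar (Y : Set ((ℤ × ℤ) × (ℤ × ℤ))) (s t : ℤ) : Prop where
  h1 : ∀ u ∈ Y, s ≤ u.1.1 ∧ u.1.1 < u.1.2 ∧ t ≤ u.2.1 ∧ u.2.1 < u.2.2
  h2 : ∀ u ∈ Y, u.1.1 = s → u.2.2 ≤ t + 2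
  h3 : ∀ u ∈ Y, u.2.1 = t → u.1.2 ≤ s + 2

/-- Choice of a good pair of corners. -/
theorem choose_pair {Y : Set ((ℤ × ℤ) × (ℤ × ℤ))} {s t : ℤ} (hY : Ar Y s t)
    (V : ℤ × ℤ) (hV : s + 1 ≤ V.1 ∧ V.1 ≤ s + 2 ∧ t + 1 ≤ V.2 ∧ V.2 ≤ t + 2)
    (u : (ℤ × ℤ) × (ℤ × ℤ)) (hu : u ∈ Y) (hu' : ¬ (u.1.1 = s ∧ u.2.1 = t)) :
    ∃ z3 z4 : ℤ × ℤ, box z3 z4 = u ∧
      (s + 1 ≤ z3.1 → z3.1 ≤ s + 2 → t + 1 ≤ z3.2 → z3.2 ≤ t + 2 → V.1 ≠ z4.1 → V.2 ≠ z4.2 →
        z3 = V) ∧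
      (s + 1 ≤ z4.1 → z4.1 ≤ s + 2 → t + 1 ≤ z4.2 → z4.2 ≤ t + 2 → V.1 ≠ z3.1 → V.2 ≠ z3.2 →
        z4 = V) ∧ (s, t) ≠ (z3.1, z4.2) ∧ (s, t) ≠ (z4.1, z3.2) := by
  have h1 := hY.h1 u hu
  have hb := box_corners h1.2.1 h1.2.2.2
  by_cases hc : (s + 1 ≤ u.1.1 → u.1.1 ≤ s + 2 → t + 1 ≤ u.2.2 → u.2.2 ≤ t + 2 →
      V.1 ≠ u.1.2 → V.2 ≠ u.2.1 → (u.1.1 = V.1 ∧ u.2.2 = V.2)) ∧
      (s + 1 ≤ u.1.2 → u.1.2 ≤ s + 2 → t + 1 ≤ u.2.1 → u.2.1 ≤ t + 2 →
      V.1 ≠ u.1.1 → V.2 ≠ u.2.2 → (u.1.2 = V.1 ∧ u.2.1 = V.2))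
  · refine ⟨(u.1.1, u.2.2), (u.1.2, u.2.1), hb.1, ?_, ?_, ?_, ?_⟩
    · intro g1 g2 g3 g4 g5 g6
      have := hc.1 g1 g2 g3 g4 g5 g6
      exact Prod.ext this.1 this.2
    · intro g1 g2 g3 g4 g5 g6
      have := hc.2 g1 g2 g3 g4 g5 g6
      exact Prod.ext this.1 this.2
    · intro h
      simp only [Prod.mk.injEq] at h
      omega
    · intro h
      simp only [Prod.mk.injEq] at h
      omega
  · refine ⟨(u.1.2, u.2.2), (u.1.1, u.2.1), hb.2, ?_, ?_, ?_, ?_⟩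
    · intro g1 g2 g3 g4 g5 g6
      simp only at g1 g2 g3 g4 g5 g6
      exfalso
      apply hc
      refine ⟨?_, ?_⟩
      · intros; omega
      · intros; omega
    · intro g1 g2 g3 g4 g5 g6
      simp only at g1 g2 g3 g4 g5 g6
      exfalso
      apply hc
      refine ⟨?_, ?_⟩
      · intros; omega
      · intros; omega
    · intro h
      simp only [Prod.mk.injEq] at h
      omega
    · intro h
      simp only [Prod.mk.injEq] at h
      omega

/-- No quadric relation involves a minor through the bottom. -/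
theorem no_bottom (hx : AlgebraicIndependent K x) {Y : Set ((ℤ × ℤ) × (ℤ × ℤ))} {s t : ℤ}
    (hY : Ar Y s t) (u v : Y) (hu : u.1.1.1 = s ∧ u.1.2.1 = t)
    (q : MvPolynomial Y K) (hq : q.IsHomogeneous 2) (h0 : aeval (fun u : Y => fm x u) q = 0) :
    coeff (Finsupp.single u 1 + Finsupp.single v 1) q = 0 := by
  have hY' : ∀ u ∈ Y, u.1.1 < u.1.2 ∧ u.2.1 < u.2.2 := fun u hu =>
    ⟨(hY.h1 u hu).2.1, (hY.h1 u hu).2.2.2⟩
  obtain ⟨u, huY⟩ := u
  obtain ⟨v, hvY⟩ := v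
  simp only at hu
  have g1 := hY.h1 u huY
  have g2 := hY.h2 u huY hu.1
  have g3 := hY.h3 u huY hu.2
  set V : ℤ × ℤ := (u.1.2, u.2.2) with hV
  have hbu : box (s, t) V = u := by
    have := (box_corners g1.2.1 g1.2.2.2).2
    rw [box_comm, hu.1, hu.2] at this
    exact this
  by_cases hv : v.1.1 = s ∧ v.2.1 = t
  · have k1 := hY.h1 v hvY
    set W : ℤ × ℤ := (v.1.2, v.2.2) with hW
    have hbv : box (s, t) W = v := by
      have := (box_corners k1.2.1 k1.2.2.2).2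
      rw [box_comm, hv.1, hv.2] at this
      exact this
    have h := key hx hY' (s, t) V (s, t) W (by rw [hbu]; exact huY) (by rw [hbv]; exact hvY)
      (fun h _ => by
        exfalso
        have := (hY' _ h).1
        simp [box] at this) (fun _ _ => Or.inr ⟨rfl, box_comm _ _⟩)
      (fun h => by
        have := congrArg (fun z : ℤ × ℤ => z.2) h
        simp only [hW] at this
        omega)
      (fun h => by
        have := congrArg (fun z : ℤ × ℤ => z.1) h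
        simp only [hW] at this
        omega) q hq h0
    convert h using 4 <;> exact Subtype.ext (by simp only; exact (by assumption : box _ _ = _).symm)
  · obtain ⟨z3, z4, hz, c1, c2, c3, c4⟩ := choose_pair hY V
      ⟨by simp only [hV]; omega, by simp only [hV]; omega, by simp only [hV]; omega,
        by simp only [hV]; omega⟩ v hvY hv
    have k1 := hY.h1 v hvY
    have kz : s ≤ z3.1 ∧ s ≤ z4.1 ∧ t ≤ z3.2 ∧ t ≤ z4.2 := by
      rw [← hz] at k1
      simp only [box] at k1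
      omega
    have hQ : ∀ z : ℤ × ℤ, s ≤ z.1 → t ≤ z.2 → box (s, t) z ∈ Y →
        s + 1 ≤ z.1 ∧ z.1 ≤ s + 2 ∧ t + 1 ≤ z.2 ∧ z.2 ≤ t + 2 := by
      intro z h5 h6 h7
      have a1 := hY.h1 _ h7
      have a2 := hY.h2 _ h7
      have a3 := hY.h3 _ h7
      simp only [box] at a1 a2 a3
      omega
    have h := key hx hY' (s, t) V z3 z4 (by rw [hbu]; exact huY) (by rw [hz]; exact hvY)
      (fun h h' => by
        left
        have b1 := hQ z3 kz.1 kz.2.2.1 h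
        have b2 := hY' _ h'
        simp only [box] at b2
        have b3 := c1 b1.1 b1.2.1 b1.2.2.1 b1.2.2.2 (by omega) (by omega)
        rw [b3]
        exact ⟨rfl, rfl⟩)
      (fun h h' => by
        left
        have b1 := hQ z4 kz.2.1 kz.2.2.2 h
        have b2 := hY' _ h'
        simp only [box] at b2
        have b3 := c2 b1.1 b1.2.1 b1.2.2.1 b1.2.2.2 (by omega) (by omega)
        rw [b3]
        exact ⟨rfl, box_comm _ _⟩) c3 c4 q hq h0
    convert h using 4 <;> exact Subtype.ext (by simp only; exact (by assumption : box _ _ = _).symm)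

theorem no_bottom' (hx : AlgebraicIndependent K x) {Y : Set ((ℤ × ℤ) × (ℤ × ℤ))} {s t : ℤ}
    (hY : Ar Y s t) (q : MvPolynomial Y K) (hq : q.IsHomogeneous 2)
    (h0 : aeval (fun u : Y => fm x u) q = 0) (m : Y →₀ ℕ) (hm : coeff m q ≠ 0) (u : Y)
    (hu : u.1.1.1 = s ∧ u.1.2.1 = t) : m u = 0 := by
  classical
  have hdeg : m.degree = 2 := by
    by_contra h3
    exact hm (hq.coeff_eq_zero h3)
  obtain ⟨a, b, rfl⟩ := deg_two m hdeg
  by_contra hne
  have hab : u = a ∨ u = b := by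
    by_contra hcon
    push Not at hcon
    apply hne
    simp [Finsupp.single_eq_of_ne hcon.1, Finsupp.single_eq_of_ne hcon.2]
  rcases hab with rfl | rfl
  · exact hm (no_bottom hx hY _ _ hu q hq h0)
  · rw [add_comm] at hm
    exact hm (no_bottom hx hY _ _ hu q hq h0)

end nT

section prop

variable {K F : Type*} [Field K] [Field F] [Algebra K F] {x : ℤ × ℤ → F}

theorem prop_h {E : Type*} [Field E] [Algebra E F] (L : IntermediateField E F) (p q : ℤ)
    (hne : fm x ((p, p + 1), (q, q + 1)) ≠ 0) (h1 : x (p, q) ∈ L) (h2 : x (p + 1, q) ∈ L)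
    (h3 : x (p, q + 1) ∈ L) (h4 : x (p + 1, q + 1) ∈ L)
    (hf1 : fm x ((p - 1, p), (q, q + 1)) ∈ L) (hf2 : fm x ((p - 1, p + 1), (q, q + 1)) ∈ L) :
    x (p - 1, q) ∈ L ∧ x (p - 1, q + 1) ∈ L := by
  have hD : fm x ((p, p + 1), (q, q + 1)) ∈ L := sub_mem (mul_mem h3 h2) (mul_mem h4 h1)
  constructor
  · have : x (p - 1, q) = (fm x ((p - 1, p + 1), (q, q + 1)) * x (p, q) -
        fm x ((p - 1, p), (q, q + 1)) * x (p + 1, q)) / fm x ((p, p + 1), (q, q + 1)) := by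
      rw [eq_div_iff hne]
      simp only [fm]
      ring
    rw [this]
    exact div_mem (sub_mem (mul_mem hf2 h1) (mul_mem hf1 h2)) hD
  · have : x (p - 1, q + 1) = (fm x ((p - 1, p + 1), (q, q + 1)) * x (p, q + 1) -
        fm x ((p - 1, p), (q, q + 1)) * x (p + 1, q + 1)) /
        fm x ((p, p + 1), (q, q + 1)) := by
      rw [eq_div_iff hne]
      simp only [fm]
      ring
    rw [this]
    exact div_mem (sub_mem (mul_mem hf2 h3) (mul_mem hf1 h4)) hD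

theorem prop_v {E : Type*} [Field E] [Algebra E F] (L : IntermediateField E F) (p q : ℤ)
    (hne : fm x ((p, p + 1), (q, q + 1)) ≠ 0) (h1 : x (p, q) ∈ L) (h2 : x (p + 1, q) ∈ L)
    (h3 : x (p, q + 1) ∈ L) (h4 : x (p + 1, q + 1) ∈ L)
    (hf1 : fm x ((p, p + 1), (q - 1, q)) ∈ L) (hf2 : fm x ((p, p + 1), (q - 1, q + 1)) ∈ L) :
    x (p, q - 1) ∈ L ∧ x (p + 1, q - 1) ∈ L := by
  have hD : fm x ((p, p + 1), (q, q + 1)) ∈ L := sub_mem (mul_mem h3 h2) (mul_mem h4 h1)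
  constructor
  · have : x (p, q - 1) = (fm x ((p, p + 1), (q - 1, q + 1)) * x (p, q) -
        fm x ((p, p + 1), (q - 1, q)) * x (p, q + 1)) / fm x ((p, p + 1), (q, q + 1)) := by
      rw [eq_div_iff hne]
      simp only [fm]
      ring
    rw [this]
    exact div_mem (sub_mem (mul_mem hf2 h1) (mul_mem hf1 h3)) hD
  · have : x (p + 1, q - 1) = (fm x ((p, p + 1), (q - 1, q + 1)) * x (p + 1, q) -
        fm x ((p, p + 1), (q - 1, q)) * x (p + 1, q + 1)) /
        fm x ((p, p + 1), (q, q + 1)) := by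
      rw [eq_div_iff hne]
      simp only [fm]
      ring
    rw [this]
    exact div_mem (sub_mem (mul_mem hf2 h2) (mul_mem hf1 h4)) hD

/-- The entries of a block are algebraic over its minors. -/
theorem block_alg (hx : AlgebraicIndependent K x) (E : IntermediateField K F) (b b' : ℤ)
    (h : ∀ u ∈ N9 b b', fm x u ∈ E) (p q : ℤ) (hp : b - 1 ≤ p) (hp' : p ≤ b + 1)
    (hq : b' - 1 ≤ q) (hq' : q ≤ b' + 1) : x (p, q) ∈ algebraicClosure E F := by
  rw [mem_algebraicClosure_iff]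
  set y := yb x b b' with hy
  have hm : ∀ z, m3 y z ∈ E := by
    rintro ⟨i, j⟩
    have h1 := h ((b - 1 + (((cp i).1 : ℕ) : ℤ), b - 1 + (((cp i).2 : ℕ) : ℤ)),
      (b' - 1 + (((cp j).1 : ℕ) : ℤ), b' - 1 + (((cp j).2 : ℕ) : ℤ))) (by
        simp only [N9, Set.mem_ofPred_eq]
        fin_cases i <;> fin_cases j <;> simp [cp] <;> omega)
    exact h1
  have hmm : ∀ z, m3 (m3 y) z ∈ E := fun z =>
    sub_mem (mul_mem (hm _) (hm _)) (mul_mem (hm _) (hm _))
  have hdm : d3 (m3 y) ∈ E := by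
    unfold d3
    exact add_mem (sub_mem (mul_mem (hm _) (sub_mem (mul_mem (hm _) (hm _))
      (mul_mem (hm _) (hm _)))) (mul_mem (hm _) (sub_mem (mul_mem (hm _) (hm _))
      (mul_mem (hm _) (hm _))))) (mul_mem (hm _) (sub_mem (mul_mem (hm _) (hm _))
      (mul_mem (hm _) (hm _))))
  have hd0 : d3 y ≠ 0 := by
    intro h0
    apply d3_X_ne (K := K)
    apply (yb_ind hx b b').eq_zero_of_aeval_eq_zero
    rw [← h0]
    simp [d3, hy]
  have hsq : ∀ z, y z ^ 2 ∈ E := by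
    intro z
    have h1 : y z ^ 2 = m3 (m3 y) z ^ 2 / (- d3 (m3 y)) := by
      rw [d3_m3, m3_m3, neg_neg, eq_div_iff (pow_ne_zero 2 hd0)]
      ring
    rw [h1]
    exact div_mem (pow_mem (hmm z) 2) (neg_mem hdm)
  have h2 : x (p, q) = y (⟨(p - (b - 1)).toNat, by omega⟩, ⟨(q - (b' - 1)).toNat, by omega⟩) := by
    simp only [hy, yb]
    congr 1
    simp only [Prod.mk.injEq]
    omega
  rw [h2]
  apply IsAlgebraic.of_pow (n := 2) (by norm_num)
  exact isAlgebraic_algebraMap (⟨_, hsq _⟩ : E)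

end prop

end Pool.Agent.J4.H7.C39
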