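import Mathlib
import Pool.Agent.J4.H7.C39.Two2

namespace Pool.Agent.J4.H7.C39

open MvPolynomial

variable {K F : Type*} [Field K] [Field F] [Algebra K F] {x : ℤ × ℤ → F}

/-- Two blocks in general position prevent generation by quadrics. -/
theorem two_not_quad (hx : AlgebraicIndependent K x) {R : Set (ℤ × ℤ)} (hR : Reg R) (hs : Smp R)
    (s t b b' : ℤ) (h1 : (s, t + 2) ∈ R) (h2 : (s + 2, t) ∈ R) (hB : Blk R b b')
    (hb1 : s + 2 ≤ b) (hb2 : t + 2 ≤ b')
    (ng1 : ∀ i j, ¬ ((i, j + 2) ∈ R ∧ (i + 3, j) ∈ R))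
    (ng2 : ∀ i j, ¬ ((i, j + 3) ∈ R ∧ (i + 2, j) ∈ R)) :
    ¬ Quad K (fun q : Ys R => fm x q) := by
  classical
  intro hQ
  have hQ' := quad_up hx R s t hQ
  set Y := Ys (up R s t) with hYdef
  have hAr : Ar Y s t := by
    refine ⟨fun u hu => ?_, fun u hu hus => ?_, fun u hu hut => ?_⟩
    · have := mem_up.1 hu
      exact ⟨this.2.1, this.1.1, this.2.2, this.1.2.1⟩
    · have h3 := (mem_up.1 hu).1.2.2.1
      by_contra h4
      rw [hus] at h3
      exact ng2 s t ⟨hR.rect h3 h2 (p := s) (q := t + 3) (by omega) (by omega) (by omega)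
        (by omega), h2⟩
    · have h3 := (mem_up.1 hu).1.2.2.2
      by_contra h4
      rw [hut] at h3
      exact ng1 s t ⟨h1, hR.rect h1 h3 (p := s + 3) (q := t) (by omega) (by omega) (by omega)
        (by omega)⟩
  let T : Set ((ℤ × ℤ) × (ℤ × ℤ)) := {u | u ∈ Y ∧ u.1.1 = s ∧ u.2.1 = t}
  let A : Set ((ℤ × ℤ) × (ℤ × ℤ)) := {u | u ∈ Y ∧ ¬ (u.1.1 = s ∧ u.2.1 = t)}
  let g : T ⊕ A → F := Sum.elim (fun u => fm x u) (fun u => fm x u)
  let e : T ⊕ A → Y := Sum.elim (fun u => ⟨u.1, u.2.1⟩) (fun u => ⟨u.1, u.2.1⟩)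
  have he : Function.Bijective e := by
    constructor
    · rintro (u | u) (v | v) h
      · have h3 : u.1 = v.1 := congrArg (fun z : Y => (z : (ℤ × ℤ) × (ℤ × ℤ))) h
        exact congrArg Sum.inl (Subtype.ext h3)
      · exfalso
        have h3 : u.1 = v.1 := congrArg (fun z : Y => (z : (ℤ × ℤ) × (ℤ × ℤ))) h
        exact v.2.2 (h3 ▸ u.2.2)
      · exfalso
        have h3 : u.1 = v.1 := congrArg (fun z : Y => (z : (ℤ × ℤ) × (ℤ × ℤ))) h
        exact u.2.2 (h3.symm ▸ v.2.2)
      · have h3 : u.1 = v.1 := congrArg (fun z : Y => (z : (ℤ × ℤ) × (ℤ × ℤ))) h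
        exact congrArg Sum.inr (Subtype.ext h3)
    · rintro ⟨u, hu⟩
      by_cases h : u.1.1 = s ∧ u.2.1 = t
      · exact ⟨Sum.inl ⟨u, hu, h⟩, rfl⟩
      · exact ⟨Sum.inr ⟨u, hu, h⟩, rfl⟩
  have hge : ∀ z, g z = fm x (e z) := by
    rintro (u | u) <;> rfl
  have hQg : Quad K g := by
    apply Quad.of_equiv (Equiv.ofBijective e he).symm
    have : g ∘ (Equiv.ofBijective e he).symm = fun q : Y => fm x q := by
      funext q
      rw [Function.comp, hge]
      have := (Equiv.ofBijective e he).apply_symm_apply q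
      rw [Equiv.ofBijective_apply] at this
      rw [this]
    rw [this]
    exact hQ'
  have hfree := quad_free g hQg (by
    intro q hq h0 m hm t'
    have h3 : aeval (fun u : Y => fm x u) (rename e q) = 0 := by
      rw [aeval_rename]
      have : (fun u : Y => fm x u) ∘ e = g := by
        funext z; exact (hge z).symm
      rw [this, h0]
    have h4 : coeff (m.mapDomain e) (rename e q) ≠ 0 := by
      rw [coeff_rename_mapDomain e he.1]
      exact hm
    have h5 := no_bottom' hx hAr (rename e q) (hq.rename_isHomogeneous) h3 _ h4 (e (Sum.inl t'))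
      t'.2.2
    rwa [Finsupp.mapDomain_apply he.1] at h5)
  unfold Ind at hfree
  set E := IntermediateField.adjoin K (Set.range (g ∘ Sum.inr)) with hE
  have hA : ∀ u ∈ A, fm x u ∈ E := fun u hu =>
    IntermediateField.subset_adjoin _ _ ⟨⟨u, hu⟩, rfl⟩
  set L := algebraicClosure E F with hL
  have hEL : ∀ z ∈ E, z ∈ L := by
    intro z hz
    have := L.algebraMap_mem (⟨z, hz⟩ : E)
    exact this
  have hT := hfree.algebraicClosure
  -- membership in A
  have hmemA : ∀ a b c d : ℤ, s ≤ a → a < b → t ≤ c → c < d → (a, d) ∈ R → (b, c) ∈ R →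
      ¬ (a = s ∧ c = t) → ((a, b), (c, d)) ∈ A := fun a b c d g1 g2 g3 g4 g5 g6 g7 =>
    ⟨mem_up.2 ⟨⟨g2, g4, g5, g6⟩, g1, g3⟩, g7⟩
  -- the second block
  have hblk : ∀ p q, b - 1 ≤ p → p ≤ b + 1 → b' - 1 ≤ q → q ≤ b' + 1 → x (p, q) ∈ L := by
    intro p q hp hp' hq hq'
    refine block_alg hx E b b' (fun u hu => hA u ?_) p q hp hp' hq hq'
    have h3 := N9_sub hR hB hu
    obtain ⟨k1, k2, k3, k4, k5, k6⟩ := hu
    exact ⟨mem_up.2 ⟨h3, by omega, by omega⟩, by omega⟩
  have hblkR : ∀ p q, b - 1 ≤ p → p ≤ b + 1 → b' - 1 ≤ q → q ≤ b' + 1 → (p, q) ∈ R :=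
    fun p q hp hp' hq hq' => hR.rect hB.1 hB.2 hp hp' hq hq'
  -- descent
  have desc : ∀ (n : ℕ) (p q : ℤ), p + q = s + t + 2 + n → s + 1 ≤ p → t + 1 ≤ q →
      (p, q) ∈ R → (p + 1, q) ∈ R → (p, q + 1) ∈ R → (p + 1, q + 1) ∈ R →
      x (p, q) ∈ L → x (p + 1, q) ∈ L → x (p, q + 1) ∈ L → x (p + 1, q + 1) ∈ L →
      (s + 1, t + 1) ∈ R ∧ (s + 2, t + 1) ∈ R ∧ (s + 1, t + 2) ∈ R ∧ (s + 2, t + 2) ∈ R ∧
      x (s + 1, t + 1) ∈ L ∧ x (s + 2, t + 1) ∈ L ∧ x (s + 1, t + 2) ∈ L ∧
      x (s + 2, t + 2) ∈ L := by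
    intro n
    induction n with
    | zero =>
      intro p q hpq hp hq r1 r2 r3 r4 x1 x2 x3 x4
      have e1 : p = s + 1 := by push_cast at hpq; omega
      have e2 : q = t + 1 := by push_cast at hpq; omega
      subst e1 e2
      have e3 : s + 1 + 1 = s + 2 := by ring
      have e4 : t + 1 + 1 = t + 2 := by ring
      rw [e3] at r2 r4 x2 x4
      rw [e4] at r3 r4 x3 x4
      exact ⟨r1, r2, r3, r4, x1, x2, x3, x4⟩
    | succ n ih =>
      intro p q hpq hp hq r1 r2 r3 r4 x1 x2 x3 x4
      push_cast at hpq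
      have hne : fm x ((p, p + 1), (q, q + 1)) ≠ 0 := fm_ne_zero hx _ (by simp) (by simp)
      rcases hs p q r1 ⟨s, t + 2, h1, by omega⟩ ⟨p + 1, q + 1, r4, by omega⟩ with h | h
      · -- horizontal
        have r5 : (p - 1, q) ∈ R := hR.rect h r1 (by omega) (by omega) (by omega) (by omega)
        have hp2 : s + 1 ≤ p - 1 := by
          by_contra hcon
          have e1 : p = s + 1 := by omega
          subst e1
          rw [add_sub_cancel_right] at h
          exact ng2 s t ⟨hR.rect h h2 (p := s) (q := t + 3) (by omega) (by omega) (by omega)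
            (by omega), h2⟩
        have hpr := prop_h L p q hne x1 x2 x3 x4
          (hEL _ (hA _ (hmemA _ _ _ _ (by omega) (by omega) (by omega) (by omega) h r1
            (by omega))))
          (hEL _ (hA _ (hmemA _ _ _ _ (by omega) (by omega) (by omega) (by omega) h r2
            (by omega))))
        refine ih (p - 1) q (by omega) hp2 hq r5 ?_ h ?_ hpr.1 ?_ hpr.2 ?_
        · rw [sub_add_cancel]; exact r1
        · rw [sub_add_cancel]; exact r3
        · rw [sub_add_cancel]; exact x1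
        · rw [sub_add_cancel]; exact x3
      · -- vertical
        have r5 : (p, q - 1) ∈ R := hR.rect r1 h (by omega) (by omega) (by omega) (by omega)
        have hq2 : t + 1 ≤ q - 1 := by
          by_contra hcon
          have e1 : q = t + 1 := by omega
          subst e1
          rw [add_sub_cancel_right] at h
          exact ng1 s t ⟨h1, hR.rect h1 h (p := s + 3) (q := t) (by omega) (by omega) (by omega)
            (by omega)⟩
        have hpr := prop_v L p q hne x1 x2 x3 x4
          (hEL _ (hA _ (hmemA _ _ _ _ (by omega) (by omega) (by omega) (by omega) r1 h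
            (by omega))))
          (hEL _ (hA _ (hmemA _ _ _ _ (by omega) (by omega) (by omega) (by omega) r3 h
            (by omega))))
        refine ih p (q - 1) (by omega) hp hq2 r5 h ?_ ?_ hpr.1 hpr.2 ?_ ?_
        · rw [sub_add_cancel]; exact r1
        · rw [sub_add_cancel]; exact r2
        · rw [sub_add_cancel]; exact x1
        · rw [sub_add_cancel]; exact x2
  obtain ⟨r1, r2, r3, r4, x1, x2, x3, x4⟩ := desc (b - 1 + (b' - 1) - (s + t + 2)).toNat
    (b - 1) (b' - 1) (by omega) (by omega) (by omega)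
    (hblkR _ _ (by omega) (by omega) (by omega) (by omega))
    (hblkR _ _ (by omega) (by omega) (by omega) (by omega))
    (hblkR _ _ (by omega) (by omega) (by omega) (by omega))
    (hblkR _ _ (by omega) (by omega) (by omega) (by omega))
    (hblk _ _ (by omega) (by omega) (by omega) (by omega))
    (hblk _ _ (by omega) (by omega) (by omega) (by omega))
    (hblk _ _ (by omega) (by omega) (by omega) (by omega))
    (hblk _ _ (by omega) (by omega) (by omega) (by omega))
  have e3 : s + 1 + 1 = s + 2 := by ring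
  have e4 : t + 1 + 1 = t + 2 := by ring
  have hne : fm x ((s + 1, s + 1 + 1), (t + 1, t + 1 + 1)) ≠ 0 :=
    fm_ne_zero hx _ (by simp) (by simp)
  have r5 : (s + 1, t) ∈ R := hR.rect h1 h2 (by omega) (by omega) (by omega) (by omega)
  have hpr := prop_v L (s + 1) (t + 1) hne x1 (by rw [e3]; exact x2) (by rw [e4]; exact x3)
    (by rw [e3, e4]; exact x4)
    (hEL _ (hA _ (hmemA _ _ _ _ (by omega) (by omega) (by omega) (by omega) r1
      (by rw [e3, add_sub_cancel_right]; exact h2) (by omega))))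
    (hEL _ (hA _ (hmemA _ _ _ _ (by omega) (by omega) (by omega) (by omega)
      (by rw [e4]; exact r3) (by rw [e3, add_sub_cancel_right]; exact h2) (by omega))))
  rw [add_sub_cancel_right] at hpr
  have x5 : x (s + 1, t) ∈ L := hpr.1
  -- the relation
  have rs1 : (s, t + 1) ∈ R := hR.rect h1 h2 (by omega) (by omega) (by omega) (by omega)
  let f1 : T := ⟨((s, s + 1), (t, t + 1)), mem_up.2 ⟨⟨by simp, by simp, rs1, r5⟩, by simp,
    by simp⟩, rfl, rfl⟩
  let f2 : T := ⟨((s, s + 1), (t, t + 2)), mem_up.2 ⟨⟨by simp, by simp, h1, r5⟩, by simp,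
    by simp⟩, rfl, rfl⟩
  have hff : f1 ≠ f2 := by
    intro h
    have := congrArg (fun z : T => z.1.2.2) h
    simp only [f1, f2] at this
    omega
  have hf3 : fm x ((s, s + 1), (t + 1, t + 2)) ∈ L :=
    hEL _ (hA _ (hmemA _ _ _ _ (by omega) (by omega) (by omega) (by omega) h1 r1 (by omega)))
  let k1 : L := ⟨x (s + 1, t + 2), x3⟩
  let k2 : L := ⟨x (s + 1, t + 1), x1⟩
  let k3 : L := ⟨x (s + 1, t) * fm x ((s, s + 1), (t + 1, t + 2)), mul_mem x5 hf3⟩
  have hP : (C k1 * X f1 - C k2 * X f2 + C k3 : MvPolynomial T L) = 0 := by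
    apply hT.eq_zero_of_aeval_eq_zero
    simp only [map_add, map_sub, map_mul, aeval_C, aeval_X, Function.comp, g, Sum.elim_inl]
    have a1 : (algebraMap L F) k1 = x (s + 1, t + 2) := rfl
    have a2 : (algebraMap L F) k2 = x (s + 1, t + 1) := rfl
    have a3 : (algebraMap L F) k3 = x (s + 1, t) * fm x ((s, s + 1), (t + 1, t + 2)) := rfl
    rw [a1, a2, a3]
    simp only [f1, f2, fm]
    ring
  have hco := congrArg (coeff (Finsupp.single f1 1)) hP
  rw [coeff_add, coeff_sub, coeff_C_mul, coeff_C_mul, coeff_X, coeff_X, coeff_C, coeff_zero,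
    if_pos rfl, if_neg, if_neg] at hco
  · simp only [mul_one, mul_zero, sub_zero, add_zero] at hco
    have : x (s + 1, t + 2) = 0 := congrArg Subtype.val hco
    exact hx.ne_zero _ this
  · intro h
    have := DFunLike.congr_fun h f1
    simp at this
  · intro h
    exact hff (Finsupp.single_left_injective one_ne_zero h).symm

/-- Regions with two blocks do not have relation ideal generated by quadrics. -/
theorem backward (hx : AlgebraicIndependent K x) {R : Set (ℤ × ℤ)} (hR : Reg R) (hs : Smp R)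
    (hQ : Quad K (fun q : Ys R => fm x q)) :
    ∀ i j k l, Blk R i j → Blk R k l → i = k ∧ j = l := by
  have ng1 : ∀ i j, ¬ ((i, j + 2) ∈ R ∧ (i + 3, j) ∈ R) := by
    rintro i j ⟨h1, h2⟩
    exact grid_not_quad hx hR i j h1 h2 hQ
  have ng2 : ∀ i j, ¬ ((i, j + 3) ∈ R ∧ (i + 2, j) ∈ R) := by
    rintro i j ⟨h1, h2⟩
    exact grid_not_quad (ind_sw hx) hR.sw j i h2 h1 (quad_sw x R hQ)
  have main : ∀ c c' b b', Blk R c c' → Blk R b b' → c ≤ b → c = b ∧ c' = b' := by
    intro c c' b b' h1 h2 hcb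
    by_contra hne
    by_cases hb' : b' ≤ c'
    · -- rectangle
      have hrect : ∀ p q, c - 1 ≤ p → p ≤ b + 1 → b' - 1 ≤ q → q ≤ c' + 1 → (p, q) ∈ R :=
        fun p q a1 a2 a3 a4 => hR.rect h1.1 h2.2 a1 a2 a3 a4
      by_cases hc : c = b
      · exact ng2 (c - 1) (b' - 1) ⟨hrect _ _ (by omega) (by omega) (by omega) (by omega),
          hrect _ _ (by omega) (by omega) (by omega) (by omega)⟩
      · exact ng1 (c - 1) (b' - 1) ⟨hrect _ _ (by omega) (by omega) (by omega) (by omega),
          hrect _ _ (by omega) (by omega) (by omega) (by omega)⟩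
    · by_cases hc : c = b
      · subst hc
        have hrect : ∀ p q, c - 1 ≤ p → p ≤ c + 1 → c' - 1 ≤ q → q ≤ b' + 1 → (p, q) ∈ R :=
          fun p q a1 a2 a3 a4 => hR.rect h2.1 h1.2 a1 a2 a3 a4
        exact ng2 (c - 1) (c' - 1) ⟨hrect _ _ (by omega) (by omega) (by omega) (by omega),
          hrect _ _ (by omega) (by omega) (by omega) (by omega)⟩
      · refine two_not_quad hx hR hs (c - 1) (c' - 1) b b' ?_ ?_ h2 (by omega) (by omega) ng1
          ng2 hQ
        · have e : c' - 1 + 2 = c' + 1 := by ring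
          rw [e]; exact h1.1
        · have e : c - 1 + 2 = c + 1 := by ring
          rw [e]; exact h1.2
  intro i j k l h1 h2
  rcases le_total i k with h | h
  · exact main i j k l h1 h2 h
  · have := main k l i j h2 h1 h
    exact ⟨this.1.symm, this.2.symm⟩

end Pool.Agent.J4.H7.C39
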